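import Mathlib

/-! The analytic core: functionals with polynomial growth vanish. -/

set_option autoImplicit false

namespace Pool.Agent.J4H56.SM

open Finset Real

lemma expbound (m : ℕ) {δ : ℝ} (hδ : 0 < δ) : ∃ K : ℝ, 0 ≤ K ∧ ∀ t : ℝ, 0 < t → t ≤ 1 →
    (1 / √t) ^ m * rexp (-δ / t) ≤ K * t := by
  refine ⟨(m + 1).factorial / δ ^ (m + 1), by positivity, fun t ht ht1 => ?_⟩
  have h1 : (1 / √t) ^ m ≤ (1 / t) ^ m := by
    have hs : t ≤ √t := by
      apply Real.le_sqrt_of_sq_le
      nlinarith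
    have hs0 : 0 < √t := Real.sqrt_pos.2 ht
    gcongr
  have h2 := Real.pow_div_factorial_le_exp (δ / t) (by positivity) (m + 1)
  have h3 : rexp (-δ / t) = (rexp (δ / t))⁻¹ := by rw [← Real.exp_neg, neg_div]
  have h4 : 0 < (δ / t) ^ (m + 1) / (m + 1).factorial := by positivity
  calc (1 / √t) ^ m * rexp (-δ / t) ≤ (1 / t) ^ m * ((δ / t) ^ (m + 1) / (m + 1).factorial)⁻¹ := by
        rw [h3]
        gcongr
    _ = (m + 1).factorial / δ ^ (m + 1) * t := by
        rw [div_pow, div_pow]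
        field_simp
        rw [one_pow]
        ring

lemma prod_sum {O Y Λ : Type*} (pr : Λ → O) (P : Λ → ℝ) (g : O → ℝ) (e : O × Y ≃ Λ)
    (he : ∀ c y, pr (e (c, y)) = c) (q : O → Y → ℝ) (hq : ∀ c y, 0 ≤ q c y) (hg : ∀ c, 0 < g c)
    (hPq : ∀ c y, P (e (c, y)) = g c * q c y) (hqs : ∀ c, Summable (q c)) {B : ℝ}
    (hB : ∀ c, ∑' y, q c y ≤ B) (φ : O → ℝ) (hφ : Summable fun c => g c * |φ c|) :
    Summable (fun x => P x * φ (pr x)) ∧ ∑' x, P x * φ (pr x) = ∑' c, g c * φ c * ∑' y, q c y := by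
  have hΘ0 : ∀ c, 0 ≤ ∑' y, q c y := fun c => tsum_nonneg (hq c)
  have h1 : Summable (fun p : O × Y => g p.1 * |φ p.1| * q p.1 p.2) := by
    rw [summable_prod_of_nonneg (fun p => mul_nonneg (mul_nonneg (hg _).le (abs_nonneg _)) (hq _ _))]
    refine ⟨fun c => (hqs c).mul_left (g c * |φ c|), ?_⟩
    have h2 : ∀ c, ∑' y, g c * |φ c| * q c y = g c * |φ c| * ∑' y, q c y := fun c => tsum_mul_left
    refine Summable.of_nonneg_of_le (fun c => ?_) (fun c => ?_) (hφ.mul_right B)
    · exact tsum_nonneg fun y => mul_nonneg (mul_nonneg (hg _).le (abs_nonneg _)) (hq _ _)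
    · refine (h2 c).le.trans ?_
      exact mul_le_mul_of_nonneg_left (hB c) (mul_nonneg (hg _).le (abs_nonneg _))
  have h3 : Summable (fun p : O × Y => g p.1 * φ p.1 * q p.1 p.2) := by
    apply Summable.of_abs
    refine h1.congr fun p => ?_
    rw [abs_mul, abs_mul, abs_of_pos (hg p.1), abs_of_nonneg (hq p.1 p.2)]
  have h4 : ∀ p : O × Y, P (e p) * φ (pr (e p)) = g p.1 * φ p.1 * q p.1 p.2 := by
    rintro ⟨c, y⟩
    rw [he, hPq]
    ring
  constructor
  · rw [← e.summable_iff]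
    exact h3.congr fun p => (h4 p).symm
  · rw [← e.tsum_eq, tsum_congr h4, h3.tsum_prod]
    exact tsum_congr fun c => (tsum_mul_left (a := g c * φ c) (f := q c))

theorem core {n : ℕ} (hn : 0 < n) {Λ O : Type*} [Nonempty O] (pr : Fin n → Λ → O) (P : ℝ → Λ → ℝ)
    (g : ℝ → O → ℝ) (W : O → ℝ) (hP : ∀ t x, 0 ≤ P t x) (hg : ∀ t c, 0 < g t c)
    (hQ : ∀ κ : ℕ, ∃ (B : ℝ) (m : ℕ), 0 ≤ B ∧ ∀ t, 0 < t → t ≤ 1 →
      Summable (fun c => g t c * W c ^ κ) ∧ ∑' c, g t c * W c ^ κ ≤ B * (1 / √t) ^ m)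
    (Y : Fin n → Type*) (e : ∀ i, O × Y i ≃ Λ) (he : ∀ i c y, pr i (e i (c, y)) = c)
    (q : ∀ i, ℝ → O → Y i → ℝ) (hq : ∀ i t c y, 0 ≤ q i t c y)
    (hPq : ∀ i t c y, P t (e i (c, y)) = g t c * q i t c y)
    (A C δ : Fin n → ℝ) (D : Fin n → ℕ) (hC : ∀ i, 0 ≤ C i) (hδ : ∀ i, 0 < δ i)
    (hΘ : ∀ i t, 0 < t → t ≤ 1 → ∀ c, Summable (q i t c) ∧
      |∑' y, q i t c y - A i * (1 / √t) ^ D i| ≤ C i * (1 / √t) ^ D i * rexp (-δ i / t))
    (f : Fin n → O → ℝ) (hf0 : ∀ c, ∑ i, f i c = 0) (hf : ∀ x, 0 ≤ ∑ i, f i (pr i x))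
    (M : ℝ) (κ : ℕ) (hM0 : 0 ≤ M) (hM : ∀ i c, |f i c| ≤ M * W c ^ κ)
    (x₀ : Λ) (p₀ : ℝ) (hp₀ : 0 < p₀) (hp : ∀ t, 0 < t → t ≤ 1 → p₀ ≤ P t x₀) :
    ∑ i, f i (pr i x₀) = 0 := by
  obtain ⟨B, m, hB, hQκ⟩ := hQ κ
  obtain ⟨B0, m0, -, hQ0⟩ := hQ 0
  let i₀ : Fin n := ⟨0, hn⟩
  choose K1 hK1 hK1' using fun i : Fin n => expbound (D i + m) (hδ i)
  -- main estimate
  have main : ∀ t, 0 < t → t ≤ 1 → p₀ * ∑ i, f i (pr i x₀) ≤
      (∑ i, (2 * C i * K1 i + C i₀ * K1 i₀) * (M * B)) * t := by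
    intro t ht ht1
    set r : ℝ := 1 / √t with hr
    have hr0 : 0 < r := by have := Real.sqrt_pos.2 ht; positivity
    set G : Fin n → ℝ := fun i => A i * r ^ D i with hG
    set E : Fin n → ℝ := fun i => C i * r ^ D i * rexp (-δ i / t) with hE
    have hE0 : ∀ i, 0 ≤ E i := fun i => by have := hC i; positivity
    have hqs : ∀ i c, Summable (q i t c) := fun i c => (hΘ i t ht ht1 c).1
    have hqe : ∀ i c, |∑' y, q i t c y - G i| ≤ E i := fun i c => (hΘ i t ht ht1 c).2
    have hqB : ∀ i c, ∑' y, q i t c y ≤ G i + E i := fun i c => by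
      have := (abs_le.1 (hqe i c)).2
      linarith
    obtain ⟨hsκ, hVκ⟩ := hQκ t ht ht1
    have hs0 : Summable (g t) := (hQ0 t ht ht1).1.congr fun c => by rw [pow_zero, mul_one]
    set V : ℝ := ∑' c, g t c * W c ^ κ with hV
    -- total mass
    have hT : ∀ i, |∑' x, P t x - G i * ∑' c, g t c| ≤ E i * ∑' c, g t c := by
      intro i
      obtain ⟨h1, h2⟩ := prod_sum (pr i) (P t) (g t) (e i) (he i) (q i t) (hq i t) (hg t) (hPq i t)
        (hqs i) (hqB i) (fun _ => 1) (by simpa using hs0)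
      simp only [mul_one] at h1 h2
      have h3 : Summable fun c => g t c * ∑' y, q i t c y := by
        refine Summable.of_nonneg_of_le (fun c => mul_nonneg (hg t c).le (tsum_nonneg (hq i t c)))
          (fun c => mul_le_mul_of_nonneg_left (hqB i c) (hg t c).le) (hs0.mul_right _)
      have h4 : ∑' x, P t x - G i * ∑' c, g t c = ∑' c, g t c * (∑' y, q i t c y - G i) := by
        rw [h2, mul_comm (G i), ← tsum_mul_right, ← h3.tsum_sub (hs0.mul_right _)]
        exact tsum_congr fun c => by ring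
      rw [h4, ← Real.norm_eq_abs, mul_comm (E i), ← tsum_mul_right]
      refine tsum_of_norm_bounded (hs0.mul_right _).hasSum fun c => ?_
      rw [norm_mul, Real.norm_of_nonneg (hg t c).le, Real.norm_eq_abs]
      exact mul_le_mul_of_nonneg_left (hqe i c) (hg t c).le
    have hQpos : 0 < ∑' c, g t c := hs0.tsum_pos (fun c => (hg t c).le) (Classical.arbitrary O) (hg t _)
    have hGG : ∀ i, |G i - G i₀| ≤ E i + E i₀ := by
      intro i
      have h1 := abs_le.1 (hT i)
      have h2 := abs_le.1 (hT i₀)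
      rw [abs_le]
      constructor
      · by_contra h
        push Not at h
        have := mul_lt_mul_of_pos_right h hQpos
        nlinarith [h1.1, h1.2, h2.1, h2.2]
      · by_contra h
        push Not at h
        have := mul_lt_mul_of_pos_right h hQpos
        nlinarith [h1.1, h1.2, h2.1, h2.2]
    have hΘG : ∀ i c, |∑' y, q i t c y - G i₀| ≤ 2 * E i + E i₀ := by
      intro i c
      have h1 : ∑' y, q i t c y - G i₀ = (∑' y, q i t c y - G i) + (G i - G i₀) := by ring
      rw [h1]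
      refine (abs_add_le _ _).trans ?_
      linarith [hqe i c, hGG i]
    have hfs : ∀ i, Summable fun c => g t c * |f i c| := by
      intro i
      refine Summable.of_nonneg_of_le (fun c => mul_nonneg (hg t c).le (abs_nonneg _))
        (fun c => ?_) (hsκ.mul_right M)
      calc g t c * |f i c| ≤ g t c * (M * W c ^ κ) := mul_le_mul_of_nonneg_left (hM i c) (hg t c).le
        _ = _ := by ring
    have hfs' : ∀ i, Summable fun c => g t c * f i c := fun i => by
      apply Summable.of_abs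
      refine (hfs i).congr fun c => ?_
      rw [abs_mul, abs_of_pos (hg t c)]
    have hfV : ∀ i, ∑' c, g t c * |f i c| ≤ M * V := by
      intro i
      rw [hV, ← tsum_mul_left]
      refine (hfs i).tsum_le_tsum (fun c => ?_) (hsκ.mul_left M)
      calc g t c * |f i c| ≤ g t c * (M * W c ^ κ) := mul_le_mul_of_nonneg_left (hM i c) (hg t c).le
        _ = _ := by ring
    have hps := fun i => prod_sum (pr i) (P t) (g t) (e i) (he i) (q i t) (hq i t) (hg t) (hPq i t)
        (hqs i) (hqB i) (f i) (hfs i)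
    have hFs : Summable fun x => P t x * ∑ i, f i (pr i x) := by
      simp_rw [mul_sum]
      exact summable_sum fun i _ => (hps i).1
    have hFt : ∑' x, P t x * ∑ i, f i (pr i x) = ∑ i, ∑' c, g t c * f i c * ∑' y, q i t c y := by
      simp_rw [mul_sum]
      rw [Summable.tsum_finsetSum fun i _ => (hps i).1]
      exact sum_congr rfl fun i _ => (hps i).2
    have hzero : ∑ i, ∑' c, g t c * f i c * G i₀ = 0 := by
      rw [← Summable.tsum_finsetSum fun i _ => (hfs' i).mul_right _]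
      have : ∀ c, ∑ i, g t c * f i c * G i₀ = 0 := by
        intro c
        rw [← sum_mul, ← mul_sum, hf0, mul_zero, zero_mul]
      simp_rw [this]
      exact tsum_zero
    have hsΘ : ∀ i, Summable fun c => g t c * f i c * ∑' y, q i t c y := by
      intro i
      apply Summable.of_abs
      refine Summable.of_nonneg_of_le (fun c => abs_nonneg _) (fun c => ?_)
        ((hfs i).mul_right (G i + E i))
      rw [abs_mul, abs_mul, abs_of_pos (hg t c), abs_of_nonneg (tsum_nonneg (hq i t c))]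
      exact mul_le_mul_of_nonneg_left (hqB i c) (mul_nonneg (hg t c).le (abs_nonneg _))
    have hbound : ∀ i, ∑' c, g t c * f i c * ∑' y, q i t c y - ∑' c, g t c * f i c * G i₀ ≤
        (2 * E i + E i₀) * (M * V) := by
      intro i
      rw [← (hsΘ i).tsum_sub ((hfs' i).mul_right _)]
      have h1 : ∀ c, g t c * f i c * ∑' y, q i t c y - g t c * f i c * G i₀ =
          g t c * f i c * (∑' y, q i t c y - G i₀) := fun c => by ring
      simp_rw [h1]
      refine (le_abs_self _).trans ?_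
      have hEE : 0 ≤ 2 * E i + E i₀ := by linarith [hE0 i, hE0 i₀]
      calc |∑' c, g t c * f i c * (∑' y, q i t c y - G i₀)| ≤
          ∑' c, g t c * |f i c| * (2 * E i + E i₀) := by
            rw [← Real.norm_eq_abs]
            refine tsum_of_norm_bounded ((hfs i).mul_right _).hasSum fun c => ?_
            rw [norm_mul, norm_mul, Real.norm_of_nonneg (hg t c).le, Real.norm_eq_abs, Real.norm_eq_abs]
            exact mul_le_mul_of_nonneg_left (hΘG i c) (mul_nonneg (hg t c).le (abs_nonneg _))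
        _ = (∑' c, g t c * |f i c|) * (2 * E i + E i₀) := tsum_mul_right
        _ ≤ (M * V) * (2 * E i + E i₀) := mul_le_mul_of_nonneg_right (hfV i) hEE
        _ = _ := by ring
    have h5 : P t x₀ * ∑ i, f i (pr i x₀) ≤ ∑ i, (2 * E i + E i₀) * (M * V) := by
      calc P t x₀ * ∑ i, f i (pr i x₀) ≤ ∑' x, P t x * ∑ i, f i (pr i x) :=
            hFs.le_tsum x₀ fun x _ => mul_nonneg (hP t x) (hf x)
        _ = ∑ i, (∑' c, g t c * f i c * ∑' y, q i t c y - ∑' c, g t c * f i c * G i₀) := by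
            rw [sum_sub_distrib, hzero, sub_zero, hFt]
        _ ≤ _ := sum_le_sum fun i _ => hbound i
    have h6 : ∀ i, E i * V ≤ C i * K1 i * B * t := by
      intro i
      calc E i * V ≤ E i * (B * r ^ m) := mul_le_mul_of_nonneg_left hVκ (hE0 i)
        _ = C i * B * (r ^ (D i + m) * rexp (-δ i / t)) := by
            simp only [hE]
            rw [pow_add]
            ring
        _ ≤ C i * B * (K1 i * t) := mul_le_mul_of_nonneg_left (hK1' i t ht ht1) (mul_nonneg (hC i) hB)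
        _ = _ := by ring
    calc p₀ * ∑ i, f i (pr i x₀) ≤ P t x₀ * ∑ i, f i (pr i x₀) :=
          mul_le_mul_of_nonneg_right (hp t ht ht1) (hf x₀)
      _ ≤ ∑ i, (2 * E i + E i₀) * (M * V) := h5
      _ ≤ ∑ i, (2 * C i * K1 i + C i₀ * K1 i₀) * (M * B) * t := by
          refine sum_le_sum fun i _ => ?_
          have h7 := mul_le_mul_of_nonneg_left (h6 i) hM0
          have h8 := mul_le_mul_of_nonneg_left (h6 i₀) hM0
          nlinarith
      _ = _ := by rw [sum_mul]
  have h0 : p₀ * ∑ i, f i (pr i x₀) ≤ 0 := by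
    by_contra hpos
    push Not at hpos
    set X := p₀ * ∑ i, f i (pr i x₀) with hX
    set K := ∑ i, (2 * C i * K1 i + C i₀ * K1 i₀) * (M * B) with hK
    have hK0 : 0 < K := by
      have := main 1 one_pos le_rfl
      linarith
    have h1 := main (min 1 (X / (2 * K))) (lt_min one_pos (by positivity)) (min_le_left _ _)
    have h2 : K * min 1 (X / (2 * K)) ≤ K * (X / (2 * K)) :=
      mul_le_mul_of_nonneg_left (min_le_right _ _) hK0.le
    have h3 : K * (X / (2 * K)) = X / 2 := by field_simp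
    linarith
  have h1 := hf x₀
  nlinarith

end Pool.Agent.J4H56.SM
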