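import Mathlib

/-! Duality: a cone on which every nonnegative functional vanishes is a subspace. -/

set_option autoImplicit false

namespace Pool.Agent.J4H56.SM

open Finset

lemma cone_subspace {V : Type*} [AddCommGroup V] [Module ℝ V] (C : Set V) (h0 : (0 : V) ∈ C)
    (hadd : ∀ x ∈ C, ∀ y ∈ C, x + y ∈ C) (hsmul : ∀ r : ℝ, 0 ≤ r → ∀ x ∈ C, r • x ∈ C)
    (D : Submodule ℝ V) [FiniteDimensional ℝ D] (hD : ∀ y, ∃ x ∈ D, x + y ∈ C)
    (hf : ∀ l : V →ₗ[ℝ] ℝ, (∀ x ∈ C, 0 ≤ l x) → ∀ x ∈ C, l x = 0) :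
    ∀ w ∈ C, -w ∈ C := by
  intro w hw
  by_contra hneg
  have hsum : ∀ {ι : Type} (s : Finset ι) (g : ι → V), (∀ i ∈ s, g i ∈ C) → ∑ i ∈ s, g i ∈ C := by
    intro ι s g hg
    exact Finset.sum_induction g (· ∈ C) (fun a b ha hb => hadd a ha b hb) h0 hg
  let Y : Submodule ℝ V := Submodule.span ℝ C
  have hCY : ∀ x ∈ C, x ∈ Y := fun x hx => Submodule.subset_span hx
  have hY : ∀ y ∈ Y, ∃ c ∈ C, ∃ c' ∈ C, y = c - c' := by
    intro y hy
    induction hy using Submodule.span_induction with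
    | mem x hx => exact ⟨x, hx, 0, h0, by simp⟩
    | zero => exact ⟨0, h0, 0, h0, by simp⟩
    | add x y _ _ hx hy =>
      obtain ⟨c, hc, c', hc', rfl⟩ := hx
      obtain ⟨d, hd, d', hd', rfl⟩ := hy
      exact ⟨c + d, hadd _ hc _ hd, c' + d', hadd _ hc' _ hd', by abel⟩
    | smul r x _ hx =>
      obtain ⟨c, hc, c', hc', rfl⟩ := hx
      rcases le_total 0 r with hr | hr
      · exact ⟨r • c, hsmul r hr c hc, r • c', hsmul r hr c' hc', by rw [smul_sub]⟩
      · refine ⟨(-r) • c', hsmul (-r) (by linarith) c' hc', (-r) • c, hsmul (-r) (by linarith) c hc, ?_⟩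
        rw [smul_sub, neg_smul, neg_smul]
        abel
  have : FiniteDimensional ℝ (D ⊓ Y : Submodule ℝ V) :=
    Submodule.finiteDimensional_of_le (inf_le_left : D ⊓ Y ≤ D)
  let b := Module.finBasis ℝ (D ⊓ Y : Submodule ℝ V)
  have hb : ∀ k, ∃ c ∈ C, ∃ c' ∈ C, ((b k : (D ⊓ Y : Submodule ℝ V)) : V) = c - c' :=
    fun k => hY _ (b k).2.2
  choose c hc c' hc' hbc using hb
  set w' : V := w + ∑ k, (c k + c' k) with hw'
  have hw'C : w' ∈ C := hadd _ hw _ (hsum _ _ fun k _ => hadd _ (hc k) _ (hc' k))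
  have hw'n : -w' ∉ C := by
    intro h
    apply hneg
    have : -w = -w' + ∑ k, (c k + c' k) := by rw [hw']; abel
    rw [this]
    exact hadd _ h _ (hsum _ _ fun k _ => hadd _ (hc k) _ (hc' k))
  have hw'0 : w' ≠ 0 := by
    rintro h
    rw [h, neg_zero] at hw'n
    exact hw'n h0
  -- order unit
  have hunit : ∀ d ∈ (D ⊓ Y : Submodule ℝ V), ∃ r : ℝ, 0 ≤ r ∧ r • w' + d ∈ C := by
    intro d hd
    set a : Fin _ → ℝ := fun k => b.repr ⟨d, hd⟩ k with ha
    have hda : d = ∑ k, a k • (c k - c' k) := by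
      have h1 := b.sum_repr ⟨d, hd⟩
      have h2 := congrArg (fun z : (D ⊓ Y : Submodule ℝ V) => (z : V)) h1
      simp only [Submodule.coe_sum, Submodule.coe_smul] at h2
      rw [← h2]
      exact sum_congr rfl fun k _ => by rw [hbc]
    refine ⟨∑ k, |a k|, sum_nonneg fun k _ => abs_nonneg _, ?_⟩
    set r : ℝ := ∑ k, |a k| with hr
    have hrk : ∀ k, |a k| ≤ r := fun k => single_le_sum (f := fun k => |a k|)
      (fun k _ => abs_nonneg _) (mem_univ k)
    have : r • w' + d = r • w + ∑ k, ((r + a k) • c k + (r - a k) • c' k) := by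
      rw [hw', hda, smul_add, smul_sum, add_assoc, ← sum_add_distrib]
      congr 1
      refine sum_congr rfl fun k _ => ?_
      module
    rw [this]
    refine hadd _ (hsmul r (sum_nonneg fun k _ => abs_nonneg _) _ hw) _ (hsum _ _ fun k _ => ?_)
    have h1 := hrk k
    have h2 := abs_le.1 h1
    exact hadd _ (hsmul _ (by linarith [h2.1]) _ (hc k)) _ (hsmul _ (by linarith [h2.2]) _ (hc' k))
  let CY : PointedCone ℝ Y :=
    { carrier := {y | (y : V) ∈ C}
      add_mem' := fun {x y} hx hy => hadd _ hx _ hy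
      zero_mem' := h0
      smul_mem' := fun r x hx => hsmul r.1 r.2 _ hx }
  let W : Y := ⟨w', hCY _ hw'C⟩
  have hW0 : W ≠ 0 := fun h => hw'0 (congrArg Subtype.val h)
  let f : Y →ₗ.[ℝ] ℝ := LinearPMap.mkSpanSingleton (σ := RingHom.id ℝ) W (1 : ℝ) hW0
  have hdom : ∀ z, z ∈ f.domain ↔ ∃ r : ℝ, r • W = z := fun z => Submodule.mem_span_singleton
  have hfr : ∀ (r : ℝ) (h : r • W ∈ f.domain), f ⟨r • W, h⟩ = r := by
    intro r h
    have := LinearPMap.mkSpanSingleton'_apply (σ := RingHom.id ℝ) W (1 : ℝ) (fun c hc =>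
      (smul_eq_zero.1 hc).elim (fun hc => by rw [hc, RingHom.map_zero, zero_smul]) fun hx' =>
      absurd hx' hW0) r h
    exact this.trans (by simp)
  obtain ⟨g, hg1, hg2⟩ := riesz_extension CY f (by
    rintro ⟨z, hz⟩ hzC
    obtain ⟨r, rfl⟩ := (hdom z).1 hz
    rw [hfr]
    by_contra hr
    push Not at hr
    apply hw'n
    have h1 : ((r • W : Y) : V) ∈ C := hzC
    have h2 : -w' = (-r)⁻¹ • (r • w') := by
      rw [smul_smul, inv_neg, neg_mul, inv_mul_cancel₀ hr.ne]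
      simp
    rw [h2]
    exact hsmul _ (by rw [inv_nonneg]; linarith) _ h1) (by
    intro y
    obtain ⟨x, hxD, hxC⟩ := hD y
    have hxY : x ∈ Y := by
      have : x = (x + y) - y := by abel
      rw [this]
      exact Y.sub_mem (hCY _ hxC) y.2
    obtain ⟨r, hr, hrC⟩ := hunit (-x) ⟨D.neg_mem hxD, Y.neg_mem hxY⟩
    refine ⟨⟨r • W, (hdom _).2 ⟨r, rfl⟩⟩, ?_⟩
    change r • w' + (y : V) ∈ C
    have : r • w' + (y : V) = (r • w' + -x) + (x + y) := by abel
    rw [this]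
    exact hadd _ hrC _ hxC)
  obtain ⟨l, hl⟩ := LinearMap.exists_extend g
  have hlY : ∀ y : Y, l (y : V) = g y := fun y => by
    rw [← hl]; rfl
  have h1 := hf l (fun x hx => by
    rw [show l x = g ⟨x, hCY x hx⟩ from hlY ⟨x, hCY x hx⟩]
    exact hg2 _ hx) w' hw'C
  have h2 : l w' = 1 := by
    rw [show l w' = g W from hlY W]
    have h3 : (1 : ℝ) • W ∈ f.domain := (hdom _).2 ⟨1, rfl⟩
    have h4 := hg1 ⟨(1 : ℝ) • W, h3⟩
    rw [hfr] at h4
    rw [← h4]
    simp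
  rw [h1] at h2
  exact zero_ne_one h2

end Pool.Agent.J4H56.SM
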