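import Pool.Agent.J4H56.SM.Dual

/-! Balanced finitely supported weights from descent and the vanishing of functionals. -/

set_option autoImplicit false

namespace Pool.Agent.J4H56.SM

open Finset

section

variable {O : Type*} {n : ℕ}

lemma descent_induction (W : O → ℝ) {θ R : ℝ} (hθ0 : 0 < θ) (hθ1 : θ < 1) (hR : 0 < R)
    (hW : ∀ c, 0 < W c) (P : O → Prop) (base : ∀ c, W c ≤ R → P c)
    (step : ∀ c, R < W c → (∀ c', W c' ≤ θ * W c → P c') → P c) : ∀ c, P c := by
  have key : ∀ (k : ℕ) (c : O), W c * θ ^ k ≤ R → P c := by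
    intro k
    induction k with
    | zero =>
      intro c hc
      exact base c (by simpa using hc)
    | succ k ih =>
      intro c hc
      rcases le_or_gt (W c) R with h | h
      · exact base c h
      · refine step c h fun c' hc' => ih c' ?_
        calc W c' * θ ^ k ≤ (θ * W c) * θ ^ k := by gcongr
          _ = W c * θ ^ (k + 1) := by ring
          _ ≤ R := hc
  intro c
  obtain ⟨k, hk⟩ := exists_pow_lt_of_lt_one (show 0 < R / W c from div_pos hR (hW c)) hθ1
  refine key k c ?_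
  have := (lt_div_iff₀ (hW c)).1 hk
  linarith [mul_comm (W c) (θ ^ k)]

/-- polynomial growth of dual functionals -/
lemma growth (hn : 0 < n) (Λ : Set (Fin n → O)) (W : O → ℝ) {θ R : ℝ} (hθ0 : 0 < θ) (hθ1 : θ < 1)
    (hR : 0 < R) (hW : ∀ c, 1 ≤ W c) (hfin : {c | W c ≤ R}.Finite)
    (hdesc : ∀ c, R < W c → ∀ i, ∃ x ∈ Λ, x i = c ∧ ∀ j, j ≠ i → W (x j) ≤ θ * W c)
    (f : Fin n → O → ℝ) (hf0 : ∀ c, ∑ i, f i c = 0) (hf : ∀ x ∈ Λ, 0 ≤ ∑ i, f i (x i)) :
    ∃ (M : ℝ) (κ : ℕ), 0 ≤ M ∧ ∀ i c, |f i c| ≤ M * W c ^ κ := by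
  obtain ⟨κ, hκ⟩ := exists_pow_lt_of_lt_one
    (show (0 : ℝ) < 1 / (n : ℝ) ^ 2 by positivity) hθ1
  obtain ⟨M, hM⟩ := (hfin.image fun c => ∑ i, |f i c|).bddAbove
  have hM' : ∀ c, W c ≤ R → ∀ i, |f i c| ≤ M := by
    intro c hc i
    calc |f i c| ≤ ∑ i, |f i c| := single_le_sum (f := fun i => |f i c|)
          (fun _ _ => abs_nonneg _) (mem_univ i)
      _ ≤ M := hM ⟨c, hc, rfl⟩
  refine ⟨max M 0, κ, le_max_right _ _, ?_⟩
  have hMM : 0 ≤ max M 0 := le_max_right _ _
  intro i c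
  revert i
  have hWpos : ∀ c, 0 < W c := fun c => lt_of_lt_of_le one_pos (hW c)
  refine descent_induction W hθ0 hθ1 hR hWpos
    (fun c => ∀ i, |f i c| ≤ max M 0 * W c ^ κ) ?_ ?_ c
  · intro c hc i
    calc |f i c| ≤ M := hM' c hc i
      _ ≤ max M 0 * 1 := by simp
      _ ≤ max M 0 * W c ^ κ := by
        gcongr
        exact one_le_pow₀ (hW c)
  · intro c hc ih
    set B : ℝ := max M 0 * (θ * W c) ^ κ with hB
    have hB0 : 0 ≤ B := mul_nonneg hMM (pow_nonneg (mul_nonneg hθ0.le (hWpos c).le) _)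
    have hn1 : (1 : ℝ) ≤ n := by exact_mod_cast hn
    have hlow : ∀ i, -(n * B) ≤ f i c := by
      intro i
      obtain ⟨x, hx, hxi, hxj⟩ := hdesc c hc i
      have h1 := hf x hx
      rw [← add_sum_erase univ _ (mem_univ i), hxi] at h1
      have h2 : ∑ j ∈ univ.erase i, f j (x j) ≤ ∑ j ∈ univ.erase i, B := by
        refine sum_le_sum fun j hj => ?_
        have h3 := hxj j (ne_of_mem_erase hj)
        have h4 := ih (x j) h3 j
        refine (le_abs_self _).trans (h4.trans ?_)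
        have := (hWpos (x j)).le
        rw [hB]
        gcongr
      rw [sum_const, card_erase_of_mem (mem_univ i), card_univ, Fintype.card_fin, nsmul_eq_mul] at h2
      have h5 : ((n - 1 : ℕ) : ℝ) * B ≤ n * B := by
        gcongr
        exact Nat.sub_le n 1
      linarith
    have hup : ∀ i, f i c ≤ n * (n * B) := by
      intro i
      have h1 := hf0 c
      rw [← add_sum_erase univ _ (mem_univ i)] at h1
      have h2 : ∑ j ∈ univ.erase i, -(n * B) ≤ ∑ j ∈ univ.erase i, f j c :=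
        sum_le_sum fun j _ => hlow j
      rw [sum_const, card_erase_of_mem (mem_univ i), card_univ, Fintype.card_fin, nsmul_eq_mul] at h2
      have h5 : ((n - 1 : ℕ) : ℝ) * (n * B) ≤ n * (n * B) := by
        gcongr
        exact Nat.sub_le n 1
      linarith
    intro i
    have h6 : (n : ℝ) ^ 2 * B ≤ max M 0 * W c ^ κ := by
      rw [hB, mul_pow]
      have h7 : (n : ℝ) ^ 2 * θ ^ κ ≤ 1 := by
        have : (0 : ℝ) < (n : ℝ) ^ 2 := by positivity
        rw [lt_div_iff₀ this] at hκ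
        linarith [mul_comm ((n : ℝ) ^ 2) (θ ^ κ)]
      calc (n : ℝ) ^ 2 * (max M 0 * (θ ^ κ * W c ^ κ)) = ((n : ℝ) ^ 2 * θ ^ κ) * (max M 0 * W c ^ κ) := by
            ring
        _ ≤ 1 * (max M 0 * W c ^ κ) := by
            have := (hWpos c).le
            gcongr
        _ = _ := one_mul _
    rw [abs_le]
    constructor
    · have : n * B ≤ (n : ℝ) ^ 2 * B := by
        rw [pow_two, mul_assoc]
        exact le_mul_of_one_le_left (by positivity) hn1
      linarith [hlow i]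
    · have : (n : ℝ) * (n * B) = (n : ℝ) ^ 2 * B := by ring
      linarith [hup i]

/-- the vector of marginals -/
noncomputable def marg (x : Fin n → O) : (Fin n × O) →₀ ℝ := ∑ i, Finsupp.single (i, x i) 1

/-- diagonal vector -/
noncomputable def diag (c : O) : (Fin n × O) →₀ ℝ := ∑ i : Fin n, Finsupp.single (i, c) 1

/-- the cone of marginals of nonnegative weights on `Λ`, modulo diagonal vectors -/
def Cone (Λ : Set (Fin n → O)) : Set ((Fin n × O) →₀ ℝ) :=
  {u | ∃ (P : (Fin n → O) →₀ ℝ) (ν : O →₀ ℝ), (∀ x, 0 ≤ P x) ∧ (∀ x, P x ≠ 0 → x ∈ Λ) ∧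
    u = Finsupp.linearCombination ℝ marg P + Finsupp.linearCombination ℝ diag ν}

lemma Cone.zero (Λ : Set (Fin n → O)) : (0 : (Fin n × O) →₀ ℝ) ∈ Cone Λ :=
  ⟨0, 0, fun _ => le_rfl, fun x h => absurd rfl h, by simp⟩

lemma Cone.add {Λ : Set (Fin n → O)} : ∀ u ∈ Cone Λ, ∀ v ∈ Cone Λ, u + v ∈ Cone Λ := by
  rintro _ ⟨P, ν, hP, hPΛ, rfl⟩ _ ⟨P', ν', hP', hPΛ', rfl⟩
  refine ⟨P + P', ν + ν', fun x => add_nonneg (hP x) (hP' x), fun x hx => ?_, ?_⟩
  · by_cases h : P x = 0
    · apply hPΛ'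
      intro h'
      exact hx (by rw [Finsupp.add_apply, h, h', add_zero])
    · exact hPΛ x h
  · rw [map_add, map_add]
    abel

lemma Cone.smul {Λ : Set (Fin n → O)} : ∀ r : ℝ, 0 ≤ r → ∀ u ∈ Cone Λ, r • u ∈ Cone Λ := by
  rintro r hr _ ⟨P, ν, hP, hPΛ, rfl⟩
  refine ⟨r • P, r • ν, fun x => mul_nonneg hr (hP x), fun x hx => ?_, ?_⟩
  · apply hPΛ
    intro h
    exact hx (by rw [Finsupp.smul_apply, h, smul_zero])
  · rw [map_smul, map_smul, smul_add]

lemma Cone.sum {Λ : Set (Fin n → O)} {ι : Type*} (s : Finset ι) (g : ι → (Fin n × O) →₀ ℝ)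
    (hg : ∀ i ∈ s, g i ∈ Cone Λ) : ∑ i ∈ s, g i ∈ Cone Λ :=
  Finset.sum_induction g (· ∈ Cone Λ) (fun a b ha hb => Cone.add a ha b hb) (Cone.zero Λ) hg

lemma Cone.marg_mem {Λ : Set (Fin n → O)} {x : Fin n → O} (hx : x ∈ Λ) : marg x ∈ Cone Λ := by
  classical
  refine ⟨Finsupp.single x 1, 0, fun y => ?_, fun y hy => ?_, by simp⟩
  · rw [Finsupp.single_apply]
    split_ifs <;> norm_num
  · rw [Finsupp.single_apply] at hy
    split_ifs at hy with h
    · exact h ▸ hx
    · exact absurd rfl hy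

lemma Cone.diag_mem {Λ : Set (Fin n → O)} (c : O) (r : ℝ) : r • diag c ∈ Cone Λ :=
  ⟨0, Finsupp.single c r, fun _ => le_rfl, fun x h => absurd rfl h, by simp⟩

lemma marg_apply [DecidableEq O] (x : Fin n → O) (i : Fin n) (c : O) :
    marg x (i, c) = if x i = c then 1 else 0 := by
  classical
  rw [marg, Finsupp.finsetSum_apply]
  simp_rw [Finsupp.single_apply, Prod.mk.injEq]
  rw [sum_eq_single i]
  · simp
  · intro j _ hj
    simp [hj]
  · simp

lemma diag_apply [DecidableEq O] (c : O) (i : Fin n) (c' : O) :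
    (diag c : (Fin n × O) →₀ ℝ) (i, c') = if c = c' then 1 else 0 := by
  classical
  rw [diag, Finsupp.finsetSum_apply]
  simp_rw [Finsupp.single_apply, Prod.mk.injEq]
  rw [sum_eq_single i]
  · simp
  · intro j _ hj
    simp [hj]
  · simp

/-- Main duality statement. -/
theorem dual_main [DecidableEq O] (hn : 0 < n) (Λ : Set (Fin n → O)) (W : O → ℝ) {θ R : ℝ}
    (hθ0 : 0 < θ) (hθ1 : θ < 1)
    (hR : 0 < R) (hW : ∀ c, 1 ≤ W c) (hfin : {c | W c ≤ R}.Finite)
    (hdesc : ∀ c, R < W c → ∀ i, ∃ x ∈ Λ, x i = c ∧ ∀ j, j ≠ i → W (x j) ≤ θ * W c)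
    (hG : ∀ f : Fin n → O → ℝ, (∀ c, ∑ i, f i c = 0) → (∀ x ∈ Λ, 0 ≤ ∑ i, f i (x i)) →
      (∃ (M : ℝ) (κ : ℕ), 0 ≤ M ∧ ∀ i c, |f i c| ≤ M * W c ^ κ) → ∀ x ∈ Λ, ∑ i, f i (x i) = 0)
    (x₀ : Fin n → O) (hx₀ : x₀ ∈ Λ) :
    ∃ P : (Fin n → O) →₀ ℝ, (∀ x, 0 ≤ P x) ∧ (∀ x, P x ≠ 0 → x ∈ Λ) ∧ 0 < P x₀ ∧
      ∀ i j c, (P.sum fun x r => if x i = c then r else 0) =
        P.sum fun x r => if x j = c then r else 0 := by
  classical
  set S : Set (Fin n × O) := {p | W p.2 ≤ R} with hS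
  have hSfin : S.Finite := by
    have : S ⊆ (Set.univ : Set (Fin n)) ×ˢ {c | W c ≤ R} := fun p hp => ⟨trivial, hp⟩
    exact (Set.finite_univ.prod hfin).subset this
  set D : Submodule ℝ ((Fin n × O) →₀ ℝ) :=
    Submodule.span ℝ ((fun p : Fin n × O => Finsupp.single p (1 : ℝ)) '' S) with hDdef
  have : FiniteDimensional ℝ D := FiniteDimensional.span_of_finite ℝ (hSfin.image _)
  have hWpos : ∀ c, 0 < W c := fun c => lt_of_lt_of_le one_pos (hW c)
  have hbase : ∀ c, (∀ i : Fin n, ∃ d ∈ D, d + Finsupp.single (i, c) (1 : ℝ) ∈ Cone Λ) ∧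
      (∀ i : Fin n, ∃ d ∈ D, d - Finsupp.single (i, c) (1 : ℝ) ∈ Cone Λ) := by
    refine descent_induction W hθ0 hθ1 hR hWpos _ ?_ ?_
    · intro c hc
      have hmem : ∀ i : Fin n, Finsupp.single (i, c) (1 : ℝ) ∈ D := fun i =>
        Submodule.subset_span ⟨(i, c), hc, rfl⟩
      refine ⟨fun i => ⟨-Finsupp.single (i, c) (1 : ℝ), D.neg_mem (hmem i), ?_⟩,
        fun i => ⟨Finsupp.single (i, c) (1 : ℝ), hmem i, ?_⟩⟩
      · rw [neg_add_cancel]; exact Cone.zero Λ
      · rw [sub_self]; exact Cone.zero Λ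
    · intro c hc ih
      have hplus : ∀ i : Fin n, ∃ d ∈ D, d + Finsupp.single (i, c) (1 : ℝ) ∈ Cone Λ := by
        intro i
        obtain ⟨x, hx, hxi, hxj⟩ := hdesc c hc i
        have h1 : ∀ j : Fin n, ∃ d ∈ D, j ≠ i → d - Finsupp.single (j, x j) (1 : ℝ) ∈ Cone Λ := by
          intro j
          by_cases hj : j = i
          · exact ⟨0, D.zero_mem, fun h => absurd hj h⟩
          · obtain ⟨d, hd, hd'⟩ := (ih (x j) (hxj j hj)).2 j
            exact ⟨d, hd, fun _ => hd'⟩
        choose d hd hd' using h1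
        refine ⟨∑ j ∈ univ.erase i, d j, D.sum_mem fun j _ => hd j, ?_⟩
        have h2 : ∑ j ∈ univ.erase i, d j + Finsupp.single (i, c) (1 : ℝ) =
            marg x + ∑ j ∈ univ.erase i, (d j - Finsupp.single (j, x j) (1 : ℝ)) := by
          rw [marg, ← add_sum_erase univ _ (mem_univ i), hxi, sum_sub_distrib]
          abel
        rw [h2]
        exact Cone.add _ (Cone.marg_mem hx) _ (Cone.sum _ _ fun j hj => hd' j (ne_of_mem_erase hj))
      refine ⟨hplus, fun i => ?_⟩
      choose d hd hd' using hplus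
      refine ⟨∑ j ∈ univ.erase i, d j, D.sum_mem fun j _ => hd j, ?_⟩
      have h2 : ∑ j ∈ univ.erase i, d j - Finsupp.single (i, c) (1 : ℝ) =
          (-1 : ℝ) • diag c + ∑ j ∈ univ.erase i, (d j + Finsupp.single (j, c) (1 : ℝ)) := by
        rw [diag, ← add_sum_erase univ _ (mem_univ i), sum_add_distrib, neg_smul, one_smul]
        abel
      rw [h2]
      exact Cone.add _ (Cone.diag_mem c _) _ (Cone.sum _ _ fun j _ => hd' j)
  have hD : ∀ y, ∃ x ∈ D, x + y ∈ Cone Λ := by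
    intro y
    induction y using Finsupp.induction_linear with
    | zero => exact ⟨0, D.zero_mem, by rw [add_zero]; exact Cone.zero Λ⟩
    | add f g hf hg =>
      obtain ⟨x, hx, hx'⟩ := hf
      obtain ⟨y, hy, hy'⟩ := hg
      refine ⟨x + y, D.add_mem hx hy, ?_⟩
      have : x + y + (f + g) = (x + f) + (y + g) := by abel
      rw [this]
      exact Cone.add _ hx' _ hy'
    | single p r =>
      obtain ⟨i, c⟩ := p
      rcases le_total 0 r with hr | hr
      · obtain ⟨d, hd, hd'⟩ := (hbase c).1 i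
        refine ⟨r • d, D.smul_mem _ hd, ?_⟩
        have : r • d + Finsupp.single (i, c) r = r • (d + Finsupp.single (i, c) (1 : ℝ)) := by
          rw [smul_add, Finsupp.smul_single, smul_eq_mul, mul_one]
        rw [this]
        exact Cone.smul r hr _ hd'
      · obtain ⟨d, hd, hd'⟩ := (hbase c).2 i
        refine ⟨(-r) • d, D.smul_mem _ hd, ?_⟩
        have : (-r) • d + Finsupp.single (i, c) r = (-r) • (d - Finsupp.single (i, c) (1 : ℝ)) := by
          rw [smul_sub, Finsupp.smul_single, smul_eq_mul, mul_one, Finsupp.single_neg]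
          abel
        rw [this]
        exact Cone.smul (-r) (by linarith) _ hd'
  have hfun : ∀ l : ((Fin n × O) →₀ ℝ) →ₗ[ℝ] ℝ, (∀ u ∈ Cone Λ, 0 ≤ l u) →
      ∀ u ∈ Cone Λ, l u = 0 := by
    intro l hl
    set f : Fin n → O → ℝ := fun i c => l (Finsupp.single (i, c) 1) with hfdef
    have hdiag : ∀ c, l (diag c) = ∑ i, f i c := fun c => by rw [diag, map_sum]
    have hmarg : ∀ x, l (marg x) = ∑ i, f i (x i) := fun x => by rw [marg, map_sum]
    have hf0 : ∀ c, ∑ i, f i c = 0 := by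
      intro c
      rw [← hdiag]
      have h1 := hl _ (Cone.diag_mem c 1)
      have h2 := hl _ (Cone.diag_mem c (-1))
      rw [map_smul, smul_eq_mul] at h1 h2
      linarith
    have hf : ∀ x ∈ Λ, 0 ≤ ∑ i, f i (x i) := fun x hx => by
      rw [← hmarg]
      exact hl _ (Cone.marg_mem hx)
    have hz := hG f hf0 hf (growth hn Λ W hθ0 hθ1 hR hW hfin hdesc f hf0 hf)
    rintro _ ⟨P, ν, hP, hPΛ, rfl⟩
    rw [map_add, Finsupp.linearCombination_apply, Finsupp.linearCombination_apply, map_finsuppSum,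
      map_finsuppSum]
    rw [Finsupp.sum, Finsupp.sum, sum_eq_zero, sum_eq_zero, add_zero]
    · intro c _
      rw [map_smul, hdiag, hf0, smul_zero]
    · intro x hx
      rw [map_smul, hmarg, hz x (hPΛ x (Finsupp.mem_support_iff.1 hx)), smul_zero]
  obtain ⟨P, ν, hP, hPΛ, hPν⟩ := cone_subspace (Cone Λ) (Cone.zero Λ) Cone.add Cone.smul D hD hfun
    (marg x₀) (Cone.marg_mem hx₀)
  refine ⟨P + Finsupp.single x₀ 1, ?_, ?_, ?_, ?_⟩
  · intro x
    rw [Finsupp.add_apply, Finsupp.single_apply]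
    have := hP x
    split_ifs <;> linarith
  · intro x hx
    by_cases h : x = x₀
    · exact h ▸ hx₀
    · apply hPΛ
      intro h'
      exact hx (by rw [Finsupp.add_apply, h', Finsupp.single_apply, if_neg (Ne.symm h), add_zero])
  · rw [Finsupp.add_apply, Finsupp.single_apply, if_pos rfl]
    linarith [hP x₀]
  · have key : ∀ i c, ((P + Finsupp.single x₀ (1 : ℝ)).sum fun x r => if x i = c then r else 0) =
        - ν c := by
      intro i c
      have h1 := DFunLike.congr_fun hPν (i, c)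
      rw [Finsupp.neg_apply, Finsupp.add_apply, marg_apply, Finsupp.linearCombination_apply,
        Finsupp.linearCombination_apply, Finsupp.sum_apply, Finsupp.sum_apply] at h1
      have h2 : (P.sum fun a₁ b => (b • marg a₁) (i, c)) = P.sum fun x r => if x i = c then r else 0 := by
        refine Finsupp.sum_congr fun x _ => ?_
        rw [Finsupp.smul_apply, marg_apply]
        split_ifs <;> simp
      have h3 : (ν.sum fun a₁ b => (b • (diag a₁ : (Fin n × O) →₀ ℝ)) (i, c)) = ν c := by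
        have : (ν.sum fun a₁ b => (b • (diag a₁ : (Fin n × O) →₀ ℝ)) (i, c)) =
            ν.sum fun x r => if x = c then r else 0 := by
          refine Finsupp.sum_congr fun x _ => ?_
          rw [Finsupp.smul_apply, diag_apply]
          split_ifs <;> simp
        rw [this, Finsupp.sum_ite_self_eq']
      rw [h2, h3] at h1
      rw [Finsupp.sum_add_index' (by intro a; simp) (by intro a b c; split_ifs <;> simp),
        Finsupp.sum_single_index (by simp)]
      linarith
    intro i j c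
    rw [key, key]

end

end Pool.Agent.J4H56.SM
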