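import Mathlib

/-! Polygons and positive definite forms with equal marginals. -/

set_option autoImplicit false

namespace Pool.Agent.J4H56.SM

open Finset

/-- greedy choice of signs -/
lemma greedy {ι : Type*} [DecidableEq ι] (M : ℝ) (s : ι → ℝ) (hM : 0 ≤ M) (T : Finset ι)
    (hs : ∀ j ∈ T, 0 ≤ s j ∧ s j ≤ M) :
    ∃ e : ι → Bool, |∑ j ∈ T, (if e j then s j else - s j)| ≤ M := by
  induction T using Finset.induction_on with
  | empty => exact ⟨fun _ => true, by simpa using hM⟩
  | insert a T ha ih =>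
    obtain ⟨e, he⟩ := ih fun j hj => hs j (mem_insert_of_mem hj)
    obtain ⟨h0, h1⟩ := hs a (mem_insert_self a T)
    by_cases hpos : 0 ≤ ∑ j ∈ T, (if e j then s j else - s j)
    · refine ⟨Function.update e a false, ?_⟩
      rw [sum_insert ha]
      have h2 : ∑ j ∈ T, (if Function.update e a false j then s j else - s j) =
          ∑ j ∈ T, (if e j then s j else - s j) := by
        refine sum_congr rfl fun j hj => ?_
        rw [Function.update_of_ne (by rintro rfl; exact ha hj)]
      rw [h2, Function.update_self]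
      rw [abs_le] at he ⊢
      constructor <;> simp <;> linarith
    · refine ⟨Function.update e a true, ?_⟩
      rw [sum_insert ha]
      have h2 : ∑ j ∈ T, (if Function.update e a true j then s j else - s j) =
          ∑ j ∈ T, (if e j then s j else - s j) := by
        refine sum_congr rfl fun j hj => ?_
        rw [Function.update_of_ne (by rintro rfl; exact ha hj)]
      rw [h2, Function.update_self]
      rw [abs_le] at he ⊢
      push Not at hpos
      constructor <;> simp <;> linarith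

/-- planar polygons with prescribed side lengths -/
lemma polygon {n : ℕ} (s : Fin n → ℝ) (h0 : ∀ j, 0 ≤ s j)
    (hs : ∀ i, s i ≤ ∑ j ∈ univ.erase i, s j) :
    ∃ z : Fin n → ℂ, (∀ j, ‖z j‖ = 1) ∧ ∑ j, (s j : ℂ) * z j = 0 := by
  classical
  rcases Nat.eq_zero_or_pos n with rfl | hn
  · exact ⟨fun _ => 1, fun j => j.elim0, by simp⟩
  have : Nonempty (Fin n) := ⟨⟨0, hn⟩⟩
  obtain ⟨i, -, hi⟩ := exists_max_image (univ : Finset (Fin n)) s univ_nonempty
  rcases (h0 i).eq_or_lt with hi0 | hi0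
  · refine ⟨fun _ => 1, fun j => by simp, ?_⟩
    refine sum_eq_zero fun j _ => ?_
    have : s j = 0 := le_antisymm (hi0 ▸ hi j (mem_univ j)) (h0 j)
    rw [this]; simp
  let f : (Fin n → ℝ) → ℝ := fun φ => ‖∑ j ∈ univ.erase i, (s j : ℂ) * Complex.exp (φ j * Complex.I)‖
  have hf : Continuous f := by
    refine Continuous.norm ?_
    refine continuous_finsetSum _ fun j _ => ?_
    fun_prop
  have hup : ∃ φ, s i ≤ f φ := by
    refine ⟨0, ?_⟩
    have : f 0 = ∑ j ∈ univ.erase i, s j := by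
      simp only [f, Pi.zero_apply, Complex.ofReal_zero, zero_mul, Complex.exp_zero, mul_one]
      rw [← Complex.ofReal_sum, Complex.norm_real, Real.norm_of_nonneg]
      exact sum_nonneg fun j _ => h0 j
    rw [this]
    exact hs i
  have hlo : ∃ φ, f φ ≤ s i := by
    obtain ⟨e, he⟩ := greedy (s i) s (h0 i) (univ.erase i) fun j _ => ⟨h0 j, hi j (mem_univ j)⟩
    refine ⟨fun j => if e j then 0 else Real.pi, ?_⟩
    have : f (fun j => if e j then 0 else Real.pi) =
        |∑ j ∈ univ.erase i, (if e j then s j else - s j)| := by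
      simp only [f]
      rw [← Real.norm_eq_abs, ← Complex.norm_real, Complex.ofReal_sum]
      congr 1
      refine sum_congr rfl fun j _ => ?_
      by_cases hj : e j
      · simp [hj]
      · simp [hj, Complex.exp_pi_mul_I]
    rw [this]
    exact he
  obtain ⟨φ, hφ⟩ := mem_range_of_exists_le_of_exists_ge hf hlo hup
  refine ⟨fun j => if j = i then -(∑ j ∈ univ.erase i, (s j : ℂ) * Complex.exp (φ j * Complex.I)) / s i
    else Complex.exp (φ j * Complex.I), ?_, ?_⟩
  · intro j
    by_cases hj : j = i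
    · simp only [hj, if_true]
      rw [norm_div, norm_neg, Complex.norm_real, Real.norm_of_nonneg (h0 i)]
      change f φ / s i = 1
      rw [hφ, div_self hi0.ne']
    · simp only [hj, if_false]
      exact Complex.norm_exp_ofReal_mul_I _
  · rw [← add_sum_erase univ _ (mem_univ i)]
    simp only [if_true]
    have h1 : ∑ j ∈ univ.erase i, (s j : ℂ) * (if j = i then
        -(∑ j ∈ univ.erase i, (s j : ℂ) * Complex.exp (φ j * Complex.I)) / s i
        else Complex.exp (φ j * Complex.I)) =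
        ∑ j ∈ univ.erase i, (s j : ℂ) * Complex.exp (φ j * Complex.I) := by
      refine sum_congr rfl fun j hj => ?_
      rw [if_neg (ne_of_mem_erase hj)]
    rw [h1]
    have : (s i : ℂ) ≠ 0 := by exact_mod_cast hi0.ne'
    rw [mul_div_assoc', mul_div_cancel_left₀ _ this]
    exact neg_add_cancel _

open Matrix in
open scoped MatrixOrder in
/-- a positive definite form with equal marginals on a hyperplane -/
theorem frame {n : ℕ} (hn : 0 < n) (r : Fin n → ℝ) (hr0 : ∀ j, 0 ≤ r j)
    (hr : ∀ i, r i < ∑ j ∈ univ.erase i, r j) :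
    ∃ (S : Matrix (Fin n) (Fin n) ℝ) (y : Fin n → Fin n → ℝ), (∀ i, y i i = 1) ∧
      (∀ i, ∑ j, r j * y i j = 0) ∧
      ∀ (i : Fin n) (x : Fin n → ℝ), ∑ j, r j * x j = 0 →
        (S *ᵥ x) ⬝ᵥ (S *ᵥ (y i)) = x i := by
  classical
  set R2 : ℝ := ∑ j, r j ^ 2 with hR2
  have hR2pos : 0 < R2 := by
    have i : Fin n := ⟨0, hn⟩
    have h1 : 0 < ∑ j ∈ univ.erase i, r j := (hr0 i).trans_lt (hr i)
    obtain ⟨j, -, hj⟩ := exists_lt_of_sum_lt (s := univ.erase i) (f := fun _ => (0 : ℝ)) (g := r)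
      (by simpa using h1)
    exact sum_pos' (fun j _ => sq_nonneg _) ⟨j, mem_univ j, by positivity⟩
  obtain ⟨ε, hε0, hε1, hε⟩ : ∃ ε : ℝ, 0 < ε ∧ ε < 1 ∧
      ∀ i, r i < √(1 - ε) * ∑ j ∈ univ.erase i, r j := by
    have h1 : ∀ i, ∀ᶠ ε in nhdsWithin (0 : ℝ) (Set.Ioi 0),
        r i < √(1 - ε) * ∑ j ∈ univ.erase i, r j := by
      intro i
      have hc : Continuous fun ε : ℝ => √(1 - ε) * ∑ j ∈ univ.erase i, r j := by fun_prop
      have h2 := (hc.tendsto 0).eventually (lt_mem_nhds (a := r i) (by simpa using hr i))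
      exact h2.filter_mono nhdsWithin_le_nhds
    have h2 := Filter.eventually_all.2 h1
    have h3 : ∀ᶠ ε in nhdsWithin (0 : ℝ) (Set.Ioi 0), ε ∈ Set.Ioo (0 : ℝ) 1 :=
      Ioo_mem_nhdsGT one_pos
    obtain ⟨ε, h4, h5⟩ := (h2.and h3).exists
    exact ⟨ε, h5.1, h5.2, h4⟩
  set d : Fin n → ℝ := fun i => 1 - r i ^ 2 / R2 with hd
  have hd0 : ∀ i, 0 ≤ d i := by
    intro i
    have : r i ^ 2 ≤ R2 := single_le_sum (f := fun j => r j ^ 2) (fun j _ => sq_nonneg _) (mem_univ i)
    simp only [hd, sub_nonneg]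
    exact div_le_one_of_le₀ this hR2pos.le
  have hd1 : ∀ i, d i ≤ 1 := by
    intro i
    simp only [hd]
    have : 0 ≤ r i ^ 2 / R2 := by positivity
    linarith
  set t : Fin n → ℝ := fun i => √(1 - ε * d i) with ht
  have htnn : ∀ i, 0 ≤ 1 - ε * d i := fun i => by nlinarith [hd0 i, hd1 i]
  have ht1 : ∀ i, t i ≤ 1 := fun i => by
    calc √(1 - ε * d i) ≤ √1 := Real.sqrt_le_sqrt (by nlinarith [hd0 i])
      _ = 1 := Real.sqrt_one
  have ht0 : ∀ i, √(1 - ε) ≤ t i := fun i => by
    apply Real.sqrt_le_sqrt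
    nlinarith [hd1 i]
  have htp : ∀ i, 0 ≤ t i := fun i => Real.sqrt_nonneg _
  obtain ⟨z, hz1, hz2⟩ := polygon (fun i => r i * t i) (fun i => mul_nonneg (hr0 i) (htp i)) (by
    intro i
    calc r i * t i ≤ r i := mul_le_of_le_one_right (hr0 i) (ht1 i)
      _ ≤ √(1 - ε) * ∑ j ∈ univ.erase i, r j := (hε i).le
      _ = ∑ j ∈ univ.erase i, r j * √(1 - ε) := by rw [mul_sum]; exact sum_congr rfl fun j _ => mul_comm _ _
      _ ≤ _ := sum_le_sum fun j _ => mul_le_mul_of_nonneg_left (ht0 j) (hr0 j))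
  set p : Fin n → ℝ := fun i => t i * (z i).re with hp
  set q : Fin n → ℝ := fun i => t i * (z i).im with hq
  have hrp : ∑ j, r j * p j = 0 := by
    have := congrArg Complex.re hz2
    rw [Complex.re_sum, Complex.zero_re] at this
    rw [← this]
    refine sum_congr rfl fun j _ => ?_
    simp [hp]
    ring
  have hrq : ∑ j, r j * q j = 0 := by
    have := congrArg Complex.im hz2
    rw [Complex.im_sum, Complex.zero_im] at this
    rw [← this]
    refine sum_congr rfl fun j _ => ?_
    simp [hq]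
    ring
  have hpq : ∀ i, p i ^ 2 + q i ^ 2 = 1 - ε * d i := by
    intro i
    have h1 : (z i).re ^ 2 + (z i).im ^ 2 = 1 := by
      have := Complex.sq_norm (z i)
      rw [hz1, Complex.normSq_apply] at this
      linarith
    have h2 : t i ^ 2 = 1 - ε * d i := Real.sq_sqrt (htnn i)
    simp only [hp, hq]
    calc (t i * (z i).re) ^ 2 + (t i * (z i).im) ^ 2 = t i ^ 2 * ((z i).re ^ 2 + (z i).im ^ 2) := by ring
      _ = _ := by rw [h1, h2, mul_one]
  set M : Matrix (Fin n) (Fin n) ℝ := vecMulVec p p + vecMulVec q q + ε • (1 : Matrix (Fin n) (Fin n) ℝ)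
    with hM
  have hMe : ∀ i j, M i j = p i * p j + q i * q j + ε * (if i = j then 1 else 0) := by
    intro i j
    simp [hM, vecMulVec_apply, Matrix.one_apply]
  have hMpd : M.PosDef := by
    have h1 : (vecMulVec p p).PosSemidef := by simpa using Matrix.posSemidef_vecMulVec_self_star p
    have h2 : (vecMulVec q q).PosSemidef := by simpa using Matrix.posSemidef_vecMulVec_self_star q
    have h3 : (ε • (1 : Matrix (Fin n) (Fin n) ℝ)).PosDef := Matrix.PosDef.one.smul hε0
    exact Matrix.PosDef.posSemidef_add (h1.add h2) h3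
  obtain ⟨B, hB⟩ := CStarAlgebra.nonneg_iff_eq_star_mul_self.mp hMpd.inv.posSemidef.nonneg
  have hdet : IsUnit M.det := (Matrix.isUnit_iff_isUnit_det M).1 hMpd.isUnit
  have hMr : M *ᵥ r = ε • r := by
    ext i
    simp only [mulVec, dotProduct, hMe, Pi.smul_apply, smul_eq_mul]
    have : ∀ j, (p i * p j + q i * q j + ε * (if i = j then 1 else 0)) * r j =
        p i * (r j * p j) + q i * (r j * q j) + (if i = j then ε * r j else 0) := by
      intro j
      split_ifs <;> ring
    simp_rw [this]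
    rw [sum_add_distrib, sum_add_distrib, ← mul_sum, ← mul_sum, hrp, hrq]
    simp
  have hMir : M⁻¹ *ᵥ r = (1 / ε) • r := by
    have h1 : M⁻¹ *ᵥ (M *ᵥ r) = r := by
      rw [mulVec_mulVec, Matrix.nonsing_inv_mul _ hdet, one_mulVec]
    rw [hMr, mulVec_smul] at h1
    rw [← h1, smul_smul, h1]
    simp [hε0.ne']
  refine ⟨B, fun i j => M i j - ε * r i / R2 * r j, ?_, ?_, ?_⟩
  · intro i
    simp only [hMe, if_true]
    have := hpq i
    simp only [hd] at this
    field_simp at this ⊢
    linarith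
  · intro i
    have h1 := congrFun hMr i
    simp only [mulVec, dotProduct, Pi.smul_apply, smul_eq_mul] at h1
    have h2 : ∀ j, r j * (M i j - ε * r i / R2 * r j) = M i j * r j - ε * r i / R2 * r j ^ 2 := by
      intro j; ring
    simp_rw [h2]
    rw [sum_sub_distrib, ← mul_sum, h1, ← hR2]
    field_simp
    ring
  · intro i x hx
    have hyi : (fun j => M i j - ε * r i / R2 * r j) = M *ᵥ (Pi.single i 1) - (ε * r i / R2) • r := by
      ext j
      rw [Pi.sub_apply, mulVec_single_one, Pi.smul_apply, smul_eq_mul]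
      congr 1
      rw [Matrix.col_apply, hMe, hMe]
      simp only [eq_comm]
      ring
    have hMy : M⁻¹ *ᵥ (fun j => M i j - ε * r i / R2 * r j) =
        Pi.single i 1 - (r i / R2) • r := by
      rw [hyi, mulVec_sub, mulVec_mulVec, Matrix.nonsing_inv_mul _ hdet, one_mulVec, mulVec_smul, hMir,
        smul_smul]
      congr 2
      field_simp
    have h1 : (B *ᵥ x) ⬝ᵥ (B *ᵥ fun j => M i j - ε * r i / R2 * r j) =
        x ⬝ᵥ (M⁻¹ *ᵥ fun j => M i j - ε * r i / R2 * r j) := by
      rw [hB, ← mulVec_mulVec, star_eq_conjTranspose, conjTranspose_eq_transpose_of_trivial,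
        dotProduct_mulVec x, vecMul_transpose]
    rw [h1, hMy, dotProduct_sub, dotProduct_single, mul_one, dotProduct_smul]
    have h2 : x ⬝ᵥ r = 0 := by
      rw [← hx]
      simp only [dotProduct]
      exact sum_congr rfl fun j _ => mul_comm _ _
    rw [h2, smul_zero, sub_zero]

/-- complex version of `frame` -/
theorem frame_complex {n : ℕ} (hn : 0 < n) (r : Fin n → ℝ) (hr0 : ∀ j, 0 ≤ r j)
    (hr : ∀ i, r i < ∑ j ∈ univ.erase i, r j) :
    ∃ (S : Fin n → Fin n → ℝ) (y : Fin n → Fin n → ℝ), (∀ i, y i i = 1) ∧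
      (∀ i, ∑ j, r j * y i j = 0) ∧
      ∀ (i : Fin n) (X : Fin n → ℂ), ∑ j, (r j : ℂ) * X j = 0 →
        ∑ k, ‖∑ j, (S k j : ℂ) * X j‖ ^ 2 = ‖X i‖ ^ 2 +
          ∑ k, ‖∑ j, (S k j : ℂ) * (X j - X i * y i j)‖ ^ 2 := by
  obtain ⟨S, y, hy1, hy2, h⟩ := frame hn r hr0 hr
  refine ⟨fun k j => S k j, y, hy1, hy2, fun i X hX => ?_⟩
  -- real version
  have hreal : ∀ P : Fin n → ℝ, ∑ j, r j * P j = 0 →
      ∑ k, (∑ j, S k j * P j) ^ 2 = P i ^ 2 + ∑ k, (∑ j, S k j * (P j - P i * y i j)) ^ 2 := by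
    intro P hP
    have h1 := h i (fun j => P j - P i * y i j) (by
      have : ∀ j, r j * (P j - P i * y i j) = r j * P j - P i * (r j * y i j) := fun j => by ring
      simp_rw [this]
      rw [sum_sub_distrib, ← mul_sum, hP, hy2]
      ring)
    have h2 := h i (y i) (hy2 i)
    simp only [Matrix.mulVec, dotProduct] at h1 h2
    rw [hy1] at h2 h1
    have h3 : ∀ k, ∑ j, S k j * P j = ∑ j, S k j * (P j - P i * y i j) + P i * ∑ j, S k j * y i j := by
      intro k
      rw [mul_sum, ← sum_add_distrib]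
      exact sum_congr rfl fun j _ => by ring
    have h4 : ∀ k, (∑ j, S k j * P j) ^ 2 = (∑ j, S k j * (P j - P i * y i j)) ^ 2 +
        2 * P i * ((∑ j, S k j * (P j - P i * y i j)) * (∑ j, S k j * y i j)) +
        P i ^ 2 * ((∑ j, S k j * y i j) * (∑ j, S k j * y i j)) := by
      intro k
      rw [h3]
      ring
    simp_rw [h4]
    rw [sum_add_distrib, sum_add_distrib, ← mul_sum, ← mul_sum, h1, h2]
    ring
  have hre := hreal (fun j => (X j).re) (by
    have := congrArg Complex.re hX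
    rw [Complex.re_sum, Complex.zero_re] at this
    rw [← this]
    exact sum_congr rfl fun j _ => by simp)
  have him := hreal (fun j => (X j).im) (by
    have := congrArg Complex.im hX
    rw [Complex.im_sum, Complex.zero_im] at this
    rw [← this]
    exact sum_congr rfl fun j _ => by simp)
  have hnorm : ∀ z : ℂ, ‖z‖ ^ 2 = z.re ^ 2 + z.im ^ 2 := by
    intro z
    rw [Complex.sq_norm, Complex.normSq_apply]
    ring
  have e1 : ∀ k, ‖∑ j, (S k j : ℂ) * X j‖ ^ 2 = (∑ j, S k j * (X j).re) ^ 2 +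
      (∑ j, S k j * (X j).im) ^ 2 := by
    intro k
    rw [hnorm, Complex.re_sum, Complex.im_sum]
    simp
  have e2 : ∀ k, ‖∑ j, (S k j : ℂ) * (X j - X i * y i j)‖ ^ 2 =
      (∑ j, S k j * ((X j).re - (X i).re * y i j)) ^ 2 +
      (∑ j, S k j * ((X j).im - (X i).im * y i j)) ^ 2 := by
    intro k
    rw [hnorm, Complex.re_sum, Complex.im_sum]
    simp
  simp_rw [e1, e2]
  rw [sum_add_distrib, sum_add_distrib, hre, him, hnorm]
  ring

end Pool.Agent.J4H56.SM
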