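import Mathlib

/-! Subgroups of `S_p` containing all powers: group theory part. -/

set_option autoImplicit false

namespace Pool.Agent.J4H56.SM

open Equiv Equiv.Perm

/-- If every permutation has a small positive power in `H`, then `H` contains all even permutations. -/
theorem alt_le {p d : ℕ} (hp : p.Prime) (hp3 : 3 ≤ p) (hd : d < p) (H : Subgroup (Perm (Fin p)))
    (hH : ∀ π : Perm (Fin p), ∃ l, 0 < l ∧ l ≤ d ∧ π ^ l ∈ H) : alternatingGroup (Fin p) ≤ H := by
  obtain ⟨m, rfl⟩ : ∃ m, p = m + 3 := ⟨p - 3, by omega⟩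
  have hord : ∀ π : Perm (Fin (m + 3)), orderOf π = m + 3 → π ∈ H := by
    intro π hπ
    obtain ⟨l, hl0, hld, hl⟩ := hH π
    have hcop : Nat.Coprime l (m + 3) := by
      rw [Nat.coprime_comm]
      exact (Nat.Prime.coprime_iff_not_dvd hp).2 (Nat.not_dvd_of_pos_of_lt hl0 (by omega))
    have hmem : π ∈ Subgroup.zpowers (π ^ l) := by
      have : Subgroup.zpowers (π ^ l) = Subgroup.zpowers π := by
        apply Subgroup.eq_of_le_of_card_ge
        · rw [Subgroup.zpowers_le]
          exact Subgroup.pow_mem _ (Subgroup.mem_zpowers π) l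
        · rw [Nat.card_zpowers, Nat.card_zpowers, Nat.Coprime.orderOf_pow (by rw [hπ]; exact hcop.symm)]
      rw [this]
      exact Subgroup.mem_zpowers π
    exact (Subgroup.zpowers_le.2 hl) hmem
  set ζ : Perm (Fin (m + 3)) := finRotate (m + 3) with hζ
  have hζord : orderOf ζ = m + 3 := by
    have := (isCycle_finRotate (n := m + 1)).orderOf
    rw [hζ, this, support_finRotate, Finset.card_univ, Fintype.card_fin]
  have hconj : ∀ μ : Perm (Fin (m + 3)), μ * ζ * μ⁻¹ ∈ H := by
    intro μ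
    refine hord _ (Eq.trans ?_ hζord)
    exact orderOf_eq_orderOf_iff.2 fun n => by
      rw [conj_pow]
      constructor
      · intro h
        have : ζ ^ n = μ⁻¹ * (μ * ζ ^ n * μ⁻¹) * μ := by group
        rw [this, h]
        group
      · intro h
        rw [h]
        group
  rw [← closure_three_cycles_eq_alternating, Subgroup.closure_le]
  intro c hc
  set c0 : Perm (Fin (m + 3)) := swap 0 1 * swap 1 2 with hc0
  have hv0 : ((0 : Fin (m + 3)) : ℕ) = 0 := by
    change 0 % (m + 3) = 0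
    exact Nat.mod_eq_of_lt (by omega)
  have hv1 : ((1 : Fin (m + 3)) : ℕ) = 1 := by
    change 1 % (m + 3) = 1
    exact Nat.mod_eq_of_lt (by omega)
  have hv2 : ((2 : Fin (m + 3)) : ℕ) = 2 := by
    change 2 % (m + 3) = 2
    exact Nat.mod_eq_of_lt (by omega)
  have h01 : (0 : Fin (m + 3)) ≠ 1 := by
    intro h; have := congrArg Fin.val h; rw [hv0, hv1] at this; omega
  have h12 : (1 : Fin (m + 3)) ≠ 2 := by
    intro h; have := congrArg Fin.val h; rw [hv1, hv2] at this; omega
  have h02 : (0 : Fin (m + 3)) ≠ 2 := by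
    intro h; have := congrArg Fin.val h; rw [hv0, hv2] at this; omega
  have hc0three : IsThreeCycle c0 := by
    have := isThreeCycle_swap_mul_swap_same h01.symm h12 h02
    rw [hc0, swap_comm 0 1]
    exact this
  have hζ0 : ζ 0 = 1 := by
    rw [hζ]
    simp
  have hζ1 : ζ 1 = 2 := by
    rw [hζ, finRotate_apply]
    rfl
  have hc0eq : c0 = (swap 0 1 * ζ * (swap 0 1)⁻¹) * ζ⁻¹ := by
    have : ζ * (swap 0 1)⁻¹ * ζ⁻¹ = swap 1 2 := by
      rw [swap_inv]
      have := Equiv.swap_apply_apply ζ 0 1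
      rw [hζ0, hζ1] at this
      rw [this]
    rw [hc0, ← this]
    group
  obtain ⟨μ, hμ⟩ := isConj_iff.1 (isConj_iff_cycleType_eq.2 (hc0three.trans hc.symm))
  have hζH : ∀ μ : Perm (Fin (m + 3)), μ * ζ⁻¹ * μ⁻¹ ∈ H := by
    intro μ
    have := H.inv_mem (hconj μ)
    have h2 : (μ * ζ * μ⁻¹)⁻¹ = μ * ζ⁻¹ * μ⁻¹ := by group
    rwa [h2] at this
  have : c = ((μ * swap 0 1) * ζ * (μ * swap 0 1)⁻¹) * (μ * ζ⁻¹ * μ⁻¹) := by
    rw [← hμ, hc0eq]
    group
  rw [this]
  exact H.mul_mem (hconj _) (hζH _)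

/-- embedding a symmetric group in an alternating group on two more letters -/
theorem embed_alt {N p : ℕ} (h : N + 2 ≤ p) (π : Perm (Fin N)) :
    ∃ π' ∈ alternatingGroup (Fin p), ∀ j : Fin N, π' (Fin.castLE (by omega) j) =
      Fin.castLE (by omega) (π j) := by
  classical
  let ι : Fin N ↪ Fin p := Fin.castLEEmb (by omega)
  have hι : ∀ j, ι j = Fin.castLE (by omega) j := fun j => rfl
  let u : Fin p := ⟨N, by omega⟩
  let w : Fin p := ⟨N + 1, by omega⟩
  have hu : u ∉ Set.range ι := by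
    rintro ⟨j, hj⟩
    have := congrArg Fin.val hj
    simp [hι, u] at this
    omega
  have hw : w ∉ Set.range ι := by
    rintro ⟨j, hj⟩
    have := congrArg Fin.val hj
    simp [hι, w] at this
    omega
  have huw : u ≠ w := by
    intro h
    have := congrArg Fin.val h
    simp [u, w] at this
  rcases Int.units_eq_one_or (sign (π.viaEmbedding ι)) with hs | hs
  · exact ⟨π.viaEmbedding ι, mem_alternatingGroup.2 hs, fun j => by rw [← hι, ← hι, viaEmbedding_apply]⟩
  · refine ⟨π.viaEmbedding ι * swap u w, ?_, fun j => ?_⟩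
    · rw [mem_alternatingGroup, Perm.sign_mul, hs, sign_swap huw]
      rfl
    · rw [Perm.mul_apply, ← hι, swap_apply_of_ne_of_ne, viaEmbedding_apply, hι]
      · intro h
        exact hu ⟨j, h⟩
      · intro h
        exact hw ⟨j, h⟩

end Pool.Agent.J4H56.SM
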