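import Pool.Agent.J4H56.SM.GalA
import Pool.Agent.W85.FB.GAL

/-! Extensions of number fields with full symmetric group action on `N` elements. -/

set_option autoImplicit false

namespace Pool.Agent.J4H56.SM

open Polynomial Equiv

theorem gal_lift (Ω : Type) [Field Ω] [CharZero Ω] [Algebra ℚ Ω] [IsAlgClosed Ω]
    [Algebra.IsAlgebraic ℚ Ω] (L : Type) [Field L] [CharZero L] [Algebra ℚ L] [Algebra L Ω]
    [IsScalarTower ℚ L Ω] {p : ℕ} (hp : 2 ≤ p)
    (hL : IsSplittingField ℚ L (X ^ p - X - 1 : ℚ[X]))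
    (π : Perm ((X ^ p - X - 1 : ℚ[X]).rootSet Ω)) :
    ∃ g : Ω ≃ₐ[ℚ] Ω, ∀ x : (X ^ p - X - 1 : ℚ[X]).rootSet Ω, g x.1 = (π x).1 := by
  classical
  have hf0 : (X ^ p - X - 1 : ℚ[X]) ≠ 0 :=
    (X_pow_sub_X_sub_one_irreducible_rat (by omega : p ≠ 1)).ne_zero
  have hmemL : ∀ x : L, x ∈ (X ^ p - X - 1 : ℚ[X]).rootSet L ↔
      (algebraMap L Ω x) ∈ (X ^ p - X - 1 : ℚ[X]).rootSet Ω := by
    intro x
    rw [mem_rootSet_of_ne hf0, mem_rootSet_of_ne hf0]
    constructor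
    · intro h
      have := congrArg (algebraMap L Ω) h
      rw [map_zero, ← aeval_algebraMap_apply] at this
      exact this
    · intro h
      apply (algebraMap L Ω).injective
      rw [map_zero, ← aeval_algebraMap_apply]
      exact h
  have himg := hL.splits.image_rootSet (IsScalarTower.toAlgHom ℚ L Ω)
  have hex : ∀ x : (X ^ p - X - 1 : ℚ[X]).rootSet Ω, ∃ y : (X ^ p - X - 1 : ℚ[X]).rootSet L,
      algebraMap L Ω y.1 = x.1 := by
    intro x
    obtain ⟨y, hy, hyx⟩ := (Set.ext_iff.1 himg x.1).2 x.2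
    exact ⟨⟨y, hy⟩, hyx⟩
  choose s hs using hex
  let e : (X ^ p - X - 1 : ℚ[X]).rootSet L ≃ (X ^ p - X - 1 : ℚ[X]).rootSet Ω :=
    { toFun := fun x => ⟨algebraMap L Ω x.1, (hmemL _).1 x.2⟩
      invFun := s
      left_inv := fun x => by
        apply Subtype.ext
        apply (algebraMap L Ω).injective
        rw [hs]
      right_inv := fun x => Subtype.ext (hs x) }
  obtain ⟨τ, hτ⟩ := Pool.Agent.W85.FB.gal_aux L hp hL (e.symm.permCongr π)
  have : Normal ℚ Ω := by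
    have : IsAlgClosure ℚ Ω := ⟨inferInstance, inferInstance⟩
    exact IsAlgClosure.normal ℚ Ω
  refine ⟨τ.liftNormal Ω, fun x => ?_⟩
  have h1 := AlgEquiv.liftNormal_commutes τ Ω (e.symm x).1
  have h2 : algebraMap L Ω (e.symm x).1 = x.1 := hs x
  rw [h2, hτ] at h1
  rw [h1]
  rw [Equiv.permCongr_apply, Equiv.symm_symm, Equiv.apply_symm_apply]
  exact hs (π x)

/-- all permutations of the roots of `X^p - X - 1` in an algebraic closure come from automorphisms -/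
theorem gal_alg (Ω : Type) [Field Ω] [CharZero Ω] [Algebra ℚ Ω] [IsAlgClosed Ω]
    [Algebra.IsAlgebraic ℚ Ω] {p : ℕ} (hp : 2 ≤ p)
    (π : Perm ((X ^ p - X - 1 : ℚ[X]).rootSet Ω)) :
    ∃ g : Ω ≃ₐ[ℚ] Ω, ∀ x : (X ^ p - X - 1 : ℚ[X]).rootSet Ω, g x.1 = (π x).1 := by
  have hspl : ((X ^ p - X - 1 : ℚ[X]).map (algebraMap ℚ Ω)).Splits := IsAlgClosed.splits _
  let L := IntermediateField.adjoin ℚ ((X ^ p - X - 1 : ℚ[X]).rootSet Ω)
  exact @gal_lift Ω _ _ _ _ _ L _ inferInstance L.algebra' inferInstance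
    L.isScalarTower_mid' p hp
    (IntermediateField.adjoin_rootSet_isSplittingField hspl) π

theorem gal_main (K : Type) [Field K] [NumberField K] (N : ℕ) :
    ∃ θ : Fin N → AlgebraicClosure K, Function.Injective θ ∧
      ∀ π : Perm (Fin N), ∃ τ : AlgebraicClosure K ≃ₐ[K] AlgebraicClosure K,
        ∀ r, τ (θ r) = θ (π r) := by
  classical
  set Ω := AlgebraicClosure K with hΩ
  have : CharZero Ω := charZero_of_injective_algebraMap (algebraMap K Ω).injective
  have : Algebra.IsAlgebraic ℚ Ω := Algebra.IsAlgebraic.trans ℚ K Ω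
  set d := Module.finrank ℚ K with hd
  obtain ⟨p, hpge, hp⟩ := Nat.exists_infinite_primes (N + d + 5)
  set f : ℚ[X] := X ^ p - X - 1 with hf
  have hirr : Irreducible f := X_pow_sub_X_sub_one_irreducible_rat (by omega : p ≠ 1)
  have hspl : (f.map (algebraMap ℚ Ω)).Splits := IsAlgClosed.splits _
  have hdeg : f.natDegree = p := by
    rw [hf]
    have h1 : (X ^ p - X - 1 : ℚ[X]) = X ^ p - (X + 1) := by ring
    rw [h1, natDegree_sub_eq_left_of_natDegree_lt, natDegree_X_pow]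
    rw [natDegree_X_pow, show (X + 1 : ℚ[X]) = X + C 1 by simp, natDegree_X_add_C]
    omega
  have hcard : Fintype.card (f.rootSet Ω) = p := by
    rw [card_rootSet_eq_natDegree hirr.separable hspl, hdeg]
  let ρ : Fin p ≃ f.rootSet Ω := (Fintype.equivFinOfCardEq hcard).symm
  -- all permutations over ℚ
  have hQ : ∀ π : Perm (Fin p), ∃ g : Ω ≃ₐ[ℚ] Ω, ∀ j, g (ρ j).1 = (ρ (π j)).1 := by
    intro π
    obtain ⟨g, hg⟩ := gal_alg Ω (by omega : 2 ≤ p) (ρ.permCongr π)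
    refine ⟨g, fun j => ?_⟩
    rw [hg, Equiv.permCongr_apply, Equiv.symm_apply_apply]
  let H : Subgroup (Perm (Fin p)) :=
    { carrier := {π | ∃ τ : Ω ≃ₐ[K] Ω, ∀ j, τ (ρ j).1 = (ρ (π j)).1}
      mul_mem' := by
        rintro a b ⟨τ, hτ⟩ ⟨τ', hτ'⟩
        refine ⟨τ * τ', fun j => ?_⟩
        rw [AlgEquiv.mul_apply, hτ', hτ]
        rfl
      one_mem' := ⟨1, fun j => rfl⟩
      inv_mem' := by
        rintro a ⟨τ, hτ⟩
        refine ⟨τ⁻¹, fun j => ?_⟩
        have h1 := hτ (a⁻¹ j)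
        have h2 : a (a⁻¹ j) = j := a.apply_symm_apply j
        rw [h2] at h1
        rw [← h1]
        exact τ.symm_apply_apply _ }
  have hH : ∀ π : Perm (Fin p), ∃ l, 0 < l ∧ l ≤ d ∧ π ^ l ∈ H := by
    intro π
    obtain ⟨g, hg⟩ := hQ π
    have hgpow : ∀ (k : ℕ) j, (g ^ k) (ρ j).1 = (ρ ((π ^ k) j)).1 := by
      intro k
      induction k with
      | zero => intro j; rfl
      | succ k ih =>
        intro j
        rw [pow_succ', AlgEquiv.mul_apply, ih, hg, pow_succ']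
        rfl
    let φ : Fin (d + 1) → (K →ₐ[ℚ] Ω) := fun k =>
      ((g ^ (k : ℕ)) : Ω ≃ₐ[ℚ] Ω).toAlgHom.comp (IsScalarTower.toAlgHom ℚ K Ω)
    have hcardK : Fintype.card (K →ₐ[ℚ] Ω) = d := AlgHom.card ℚ K Ω
    obtain ⟨k, k', hne, hkk⟩ := Fintype.exists_ne_map_eq_of_card_lt φ (by
      rw [hcardK, Fintype.card_fin]; omega)
    have key : ∀ k k' : Fin (d + 1), k < k' → φ k = φ k' → ∃ l, 0 < l ∧ l ≤ d ∧ π ^ l ∈ H := by
      intro k k' hlt hkk
      refine ⟨k' - k, by have := Fin.lt_def.1 hlt; omega, by omega, ?_⟩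
      have h1 : ∀ x : K, (g ^ ((k' : ℕ) - k)) (algebraMap K Ω x) = algebraMap K Ω x := by
        intro x
        have h2 : (g ^ (k : ℕ)) (algebraMap K Ω x) = (g ^ (k' : ℕ)) (algebraMap K Ω x) :=
          DFunLike.congr_fun hkk x
        have h3 : (g ^ (k' : ℕ)) = (g ^ (k : ℕ)) * (g ^ ((k' : ℕ) - k)) := by
          rw [← pow_add]
          congr 1
          have := Fin.lt_def.1 hlt
          omega
        rw [h3, AlgEquiv.mul_apply] at h2
        exact ((g ^ (k : ℕ)).injective h2).symm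
      let τ : Ω ≃ₐ[K] Ω := AlgEquiv.ofRingEquiv (f := (g ^ ((k' : ℕ) - k)).toRingEquiv) h1
      exact ⟨τ, fun j => hgpow _ j⟩
    rcases lt_or_gt_of_ne hne with h | h
    · exact key k k' h hkk
    · exact key k' k h hkk.symm
  have halt := alt_le hp (by omega) (by omega : d < p) H hH
  refine ⟨fun r => (ρ (Fin.castLE (by omega) r)).1, ?_, fun π => ?_⟩
  · intro a b hab
    have := ρ.injective (Subtype.ext hab)
    exact Fin.castLE_injective _ this
  · obtain ⟨π', hπ', h⟩ := embed_alt (by omega : N + 2 ≤ p) π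
    obtain ⟨τ, hτ⟩ := halt hπ'
    refine ⟨τ, fun r => ?_⟩
    simp only
    rw [hτ, h]

end Pool.Agent.J4H56.SM
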