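import Pool.Agent.J4H56.SM.GalB

/-! Smyth tuples from balanced families. -/

set_option autoImplicit false

namespace Pool.Agent.J4H56.SM

open Finset Equiv
open scoped NumberField

/-- the left-hand side of Smyth's conjecture -/
def IsSmyth (K : Type) [Field K] [NumberField K] (n : ℕ) (a : Fin n → 𝓞 K) : Prop :=
  ∃ α : Fin n → AlgebraicClosure K,
    (∀ i, α i ≠ 0) ∧ (∀ i j, minpoly K (α i) = minpoly K (α j)) ∧
    ∑ i, algebraMap K (AlgebraicClosure K) (a i : K) * α i = 0

theorem isSmyth_of_balanced (K : Type) [Field K] [NumberField K] (n : ℕ) (a : Fin n → 𝓞 K)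
    (N : ℕ) (v : Fin N → 𝓞 K) (σ : Fin n → Perm (Fin N))
    (h : ∀ r, ∑ i, a i * v (σ i r) = 0) (hne : ∃ i r, v (σ i r) ≠ 0) : IsSmyth K n a := by
  classical
  set Ω := AlgebraicClosure K with hΩ
  set c : 𝓞 K → Ω := fun x => algebraMap K Ω (x : K) with hc
  have hcadd : ∀ x y, c (x + y) = c x + c y := fun x y => by simp [hc]
  have hcmul : ∀ x y, c (x * y) = c x * c y := fun x y => by simp [hc]
  have hcsub : ∀ x y, c (x - y) = c x - c y := fun x y => by simp [hc]
  have hcsum : ∀ {ι : Type} (s : Finset ι) (g : ι → 𝓞 K), c (∑ i ∈ s, g i) = ∑ i ∈ s, c (g i) := by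
    intro ι s g
    simp [hc]
  have hcinj : ∀ x, c x = 0 → x = 0 := by
    intro x hx
    have h1 : (x : K) = 0 := by
      apply (algebraMap K Ω).injective
      rw [map_zero]
      exact hx
    exact_mod_cast h1
  have hc0 : c 0 = 0 := by simp [hc]
  have hcτ : ∀ (τ : Ω ≃ₐ[K] Ω) x, τ (c x) = c x := fun τ x => τ.commutes _
  by_cases hsum : ∑ i, a i = 0
  · refine ⟨fun _ => 1, fun _ => one_ne_zero, fun _ _ => rfl, ?_⟩
    have := congrArg c hsum
    rw [hcsum, hc0] at this
    simpa [hc] using this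
  obtain ⟨θ, hθ, hτ⟩ := gal_main K N
  set A : Ω := ∑ r, c (v r) * θ r with hA
  have hperm : ∀ π : Perm (Fin N), ∃ τ : Ω ≃ₐ[K] Ω, τ A = ∑ r, c (v (π r)) * θ r := by
    intro π
    obtain ⟨τ, hτ⟩ := hτ π⁻¹
    refine ⟨τ, ?_⟩
    rw [hA, map_sum]
    rw [← Equiv.sum_comp π (fun r => τ (c (v r) * θ r))]
    refine sum_congr rfl fun r _ => ?_
    rw [map_mul, hcτ, hτ]
    congr 2
    exact π.symm_apply_apply r
  have hA0 : A ≠ 0 := by
    intro h0
    have hconst : ∀ r s, v r = v s := by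
      intro r s
      by_contra hrs
      have hne' : r ≠ s := fun h => hrs (by rw [h])
      obtain ⟨τ, hτ'⟩ := hperm (swap r s)
      rw [h0, map_zero] at hτ'
      have h1 : ∑ k, c (v k - v (swap r s k)) * θ k = 0 := by
        have : ∀ k, c (v k - v (swap r s k)) * θ k = c (v k) * θ k - c (v (swap r s k)) * θ k := by
          intro k
          rw [hcsub, sub_mul]
        simp_rw [this]
        rw [sum_sub_distrib, ← hA, h0, ← hτ', sub_zero]
      rw [Fintype.sum_eq_add r s hne' (by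
        rintro x ⟨hx1, hx2⟩
        rw [swap_apply_of_ne_of_ne hx1 hx2, sub_self, hc0, zero_mul])] at h1
      rw [swap_apply_left, swap_apply_right, hcsub, hcsub] at h1
      have h2 : (c (v r) - c (v s)) * (θ r - θ s) = 0 := by
        rw [← h1]; ring
      rcases mul_eq_zero.1 h2 with h3 | h3
      · rw [← hcsub] at h3
        exact hrs (sub_eq_zero.1 (hcinj _ h3))
      · exact hne' (hθ (sub_eq_zero.1 h3))
    obtain ⟨i, r, hir⟩ := hne
    have h1 := h r
    have h2 : ∀ j, a j * v (σ j r) = a j * v (σ i r) := fun j => by rw [hconst (σ j r) (σ i r)]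
    simp_rw [h2] at h1
    rw [← sum_mul] at h1
    rcases mul_eq_zero.1 h1 with h3 | h3
    · exact hsum h3
    · exact hir h3
  choose τ hτA using hperm
  refine ⟨fun i => τ (σ i) A, fun i => ?_, fun i j => ?_, ?_⟩
  · simpa using hA0
  · rw [minpoly.algEquiv_eq, minpoly.algEquiv_eq]
  · change ∑ i, c (a i) * τ (σ i) A = 0
    have h0 : ∀ i, c (a i) * τ (σ i) A = ∑ r, c (a i * v (σ i r)) * θ r := by
      intro i
      rw [hτA, mul_sum]
      refine sum_congr rfl fun r _ => ?_
      rw [hcmul]; ring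
    rw [sum_congr rfl fun i _ => h0 i, sum_comm]
    refine sum_eq_zero fun r _ => ?_
    rw [← sum_mul, ← hcsum, h r, hc0, zero_mul]

end Pool.Agent.J4H56.SM
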