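import Mathlib

/-! Number field lattice facts for Smyth's conjecture. -/

set_option autoImplicit false

namespace Pool.Agent.J4H56.SM

open Finset NumberField IsDedekindDomain
open scoped NumberField

variable {K : Type} [Field K] [NumberField K]

lemma val_le (v : HeightOneSpectrum (𝓞 K)) (a b : 𝓞 K)
    (h : v.valuation K (a : K) ≤ v.valuation K (b : K)) : ∃ s, s ∉ v.asIdeal ∧ ∃ t, s * a = t * b := by
  have h' : v.intValuation a ≤ v.intValuation b := by
    have h1 := v.valuation_of_algebraMap (K := K) a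
    have h2 := v.valuation_of_algebraMap (K := K) b
    rw [← h1, ← h2]
    exact h
  by_cases hb : b = 0
  · subst hb
    rw [map_zero] at h'
    have ha : a = 0 := by
      have := le_antisymm h' zero_le
      by_contra hne
      exact v.intValuation_ne_zero a hne this
    subst ha
    refine ⟨1, fun h1 => v.isPrime.ne_top ((Ideal.eq_top_iff_one _).2 h1), 0, by simp⟩
  · have hspan : Ideal.span {b} ≠ ⊥ := by
      rw [Ne, Ideal.span_singleton_eq_bot]
      exact hb
    have hirr : Irreducible v.asIdeal := v.irreducible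
    obtain ⟨e, J, hJ, hbJ⟩ := WfDvdMonoid.max_power_factor hspan hirr
    have hJ' : ¬ J ≤ v.asIdeal := fun hle => hJ (Ideal.dvd_iff_le.2 hle)
    obtain ⟨s, hsJ, hsv⟩ := SetLike.not_le_iff_exists.1 hJ'
    refine ⟨s, hsv, ?_⟩
    have hbe : v.intValuation b ≤ WithZero.exp (-(e : ℤ)) := by
      rw [v.intValuation_le_pow_iff_dvd, hbJ]
      exact Dvd.intro _ rfl
    have hae : a ∈ v.asIdeal ^ e := (v.intValuation_le_pow_iff_mem a e).1 (h'.trans hbe)
    have hmem : s * a ∈ Ideal.span {b} := by
      rw [hbJ, mul_comm s a]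
      exact Ideal.mul_mem_mul hae hsJ
    obtain ⟨t, ht⟩ := Ideal.mem_span_singleton'.1 hmem
    exact ⟨t, ht.symm⟩

/-- surjectivity of the coordinate projections -/
theorem proj_surj {n : ℕ} (a : Fin n → 𝓞 K)
    (h2 : ∀ v : HeightOneSpectrum (𝓞 K), ∀ i : Fin n,
          ∃ j : Fin n, j ≠ i ∧ v.valuation K (a i : K) ≤ v.valuation K (a j : K))
    (i : Fin n) (c : 𝓞 K) : ∃ x : Fin n → 𝓞 K, ∑ j, a j * x j = 0 ∧ x i = c := by
  classical
  let I : Ideal (𝓞 K) :=
    { carrier := {s | ∃ y : Fin n → 𝓞 K, y i = 0 ∧ s * a i = ∑ j, a j * y j}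
      add_mem' := by
        rintro s s' ⟨y, hy, h⟩ ⟨y', hy', h'⟩
        refine ⟨y + y', by simp [hy, hy'], ?_⟩
        rw [add_mul, h, h', ← sum_add_distrib]
        exact sum_congr rfl fun j _ => by rw [Pi.add_apply]; ring
      zero_mem' := ⟨0, rfl, by simp⟩
      smul_mem' := by
        rintro r s ⟨y, hy, h⟩
        refine ⟨fun j => r * y j, by simp [hy], ?_⟩
        rw [smul_eq_mul, mul_assoc, h, mul_sum]
        exact sum_congr rfl fun j _ => by ring }
  have hI : I = ⊤ := by
    by_contra hne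
    obtain ⟨m, hm, hIm⟩ := Ideal.exists_le_maximal I hne
    have hbot : m ≠ ⊥ := Ring.ne_bot_of_isMaximal_of_not_isField hm (RingOfIntegers.not_isField K)
    let v : HeightOneSpectrum (𝓞 K) := ⟨m, hm.isPrime, hbot⟩
    obtain ⟨j, hj, hv⟩ := h2 v i
    obtain ⟨s, hs, t, hst⟩ := val_le v (a i) (a j) hv
    apply hs
    apply hIm
    refine ⟨Pi.single j t, by rw [Pi.single_eq_of_ne (Ne.symm hj)], ?_⟩
    rw [hst, sum_eq_single j]
    · rw [Pi.single_eq_same, mul_comm]
    · intro k _ hk
      rw [Pi.single_eq_of_ne hk, mul_zero]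
    · simp
  obtain ⟨y, hy, h⟩ : (1 : 𝓞 K) ∈ I := hI ▸ Submodule.mem_top
  refine ⟨fun j => if j = i then c else -c * y j, ?_, by simp⟩
  rw [← add_sum_erase univ _ (mem_univ i)] at h ⊢
  rw [hy, mul_zero, zero_add, one_mul] at h
  have h3 : ∑ j ∈ univ.erase i, a j * (if j = i then c else -c * y j) = -c * a i := by
    rw [h, mul_sum]
    refine sum_congr rfl fun j hj => ?_
    rw [if_neg (ne_of_mem_erase hj)]
    ring
  rw [h3]
  simp
  ring

variable (K) in
/-- the archimedean embedding -/
noncomputable def iota : 𝓞 K →+* (InfinitePlace K → ℂ) :=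
  RingHom.pi fun v => v.embedding.comp (algebraMap (𝓞 K) K)

lemma iota_apply (x : 𝓞 K) (v : InfinitePlace K) : iota K x v = v.embedding (x : K) := rfl

lemma norm_iota (x : 𝓞 K) (v : InfinitePlace K) : ‖iota K x v‖ = v (x : K) := by
  rw [iota_apply, InfinitePlace.norm_embedding_eq]

lemma iota_real (x : 𝓞 K) (v : InfinitePlace K) (hv : v.IsReal) : (iota K x v).im = 0 := by
  rw [iota_apply, ← InfinitePlace.embedding_of_isReal_apply hv, Complex.ofReal_im]

theorem mem_span_iota (z : InfinitePlace K → ℂ) (hz : ∀ v, v.IsReal → (z v).im = 0) :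
    z ∈ Submodule.span ℝ (Set.range (iota K)) := by
  classical
  let T : mixedEmbedding.mixedSpace K →ₗ[ℝ] (InfinitePlace K → ℂ) :=
    { toFun := fun m v => if h : v.IsReal then ((m.1 ⟨v, h⟩ : ℝ) : ℂ)
        else m.2 ⟨v, InfinitePlace.not_isReal_iff_isComplex.1 h⟩
      map_add' := by
        intro m m'
        funext v
        by_cases h : v.IsReal <;> simp [h]
      map_smul' := by
        intro r m
        funext v
        by_cases h : v.IsReal <;> simp [h] }
  have hT : ∀ x : 𝓞 K, T (mixedEmbedding K (x : K)) = iota K x := by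
    intro x
    funext v
    by_cases h : v.IsReal
    · simp only [T, LinearMap.coe_mk, AddHom.coe_mk, h, dif_pos]
      rw [mixedEmbedding.mixedEmbedding_apply_isReal, InfinitePlace.embedding_of_isReal_apply,
        iota_apply]
    · simp only [T, LinearMap.coe_mk, AddHom.coe_mk, h]
      rw [dif_neg not_false, mixedEmbedding.mixedEmbedding_apply_isComplex, iota_apply]
  let m : mixedEmbedding.mixedSpace K := (fun w => (z w.1).re, fun w => z w.1)
  have hm : T m = z := by
    funext v
    by_cases h : v.IsReal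
    · simp only [T, LinearMap.coe_mk, AddHom.coe_mk, h, dif_pos, m]
      apply Complex.ext
      · simp
      · simp [hz v h]
    · simp only [T, LinearMap.coe_mk, AddHom.coe_mk, h]
      rw [dif_neg not_false]
  rw [← hm, ← (mixedEmbedding.latticeBasis K).sum_repr m, map_sum]
  refine Submodule.sum_mem _ fun i _ => ?_
  rw [map_smul]
  refine Submodule.smul_mem _ _ (Submodule.subset_span ?_)
  rw [mixedEmbedding.latticeBasis_apply]
  refine ⟨RingOfIntegers.basis K i, ?_⟩
  rw [← hT, integralBasis_apply]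

/-- weight function -/
noncomputable def nrm (c : 𝓞 K) : ℝ := ‖iota K c‖

lemma place_le_nrm (c : 𝓞 K) (v : InfinitePlace K) : v (c : K) ≤ nrm c := by
  rw [← norm_iota]
  exact norm_le_pi_norm _ _

lemma nrm_nonneg (c : 𝓞 K) : 0 ≤ nrm c := norm_nonneg _

lemma finite_nrm (R : ℝ) : {c : 𝓞 K | nrm c ≤ R}.Finite := by
  have h := Embeddings.finite_of_norm_le K ℂ R
  refine Set.Finite.of_finite_image (f := fun c : 𝓞 K => (c : K)) (h.subset ?_)
    (fun x _ y _ hxy => RingOfIntegers.ext hxy)
  rintro _ ⟨c, hc, rfl⟩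
  refine ⟨RingOfIntegers.isIntegral_coe c, fun φ => ?_⟩
  have h1 := place_le_nrm c (InfinitePlace.mk φ)
  rw [InfinitePlace.apply] at h1
  exact h1.trans hc

end Pool.Agent.J4H56.SM
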