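import Pool.Agent.J4H56.SM.LatA

/-! Descent. -/

set_option autoImplicit false

namespace Pool.Agent.J4H56.SM

open Finset NumberField IsDedekindDomain
open scoped NumberField

variable {K : Type} [Field K] [NumberField K]

variable (K) in
/-- the archimedean embedding of the field -/
noncomputable def emb : K →+* (InfinitePlace K → ℂ) := RingHom.pi fun v => v.embedding

lemma emb_apply (x : K) (v : InfinitePlace K) : emb K x v = v.embedding x := rfl

lemma dens (z : InfinitePlace K → ℂ) (hz : ∀ v, v.IsReal → (z v).im = 0) :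
    z ∈ closure (Set.range (emb K)) := by
  have h := mem_span_iota z hz
  clear hz
  induction h using Submodule.span_induction with
  | mem x hx =>
    obtain ⟨c, rfl⟩ := hx
    exact subset_closure ⟨(c : K), rfl⟩
  | zero => exact subset_closure ⟨0, map_zero _⟩
  | add x y _ _ hx hy =>
    refine map_mem_closure₂ continuous_add hx hy ?_
    rintro _ ⟨a, rfl⟩ _ ⟨b, rfl⟩
    exact ⟨a + b, map_add _ _ _⟩
  | smul r x _ hx =>
    have hr : r ∈ closure (Set.range ((↑) : ℚ → ℝ)) := Rat.denseRange_cast r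
    refine map_mem_closure₂ (f := fun (r : ℝ) (x : InfinitePlace K → ℂ) => r • x)
      continuous_smul hr hx ?_
    rintro _ ⟨q, rfl⟩ _ ⟨b, rfl⟩
    refine ⟨(q : K) * b, ?_⟩
    funext v
    rw [emb_apply, map_mul, map_ratCast]
    simp [emb_apply]

lemma exists_lambda {n : ℕ} (a : Fin n → 𝓞 K)
    (h1 : ∀ v : InfinitePlace K, ∀ i : Fin n, v (a i : K) < ∑ j ∈ univ.erase i, v (a j : K))
    (i : Fin n) : ∃ l : Fin n → K, l i = 1 ∧ ∑ j, (a j : K) * l j = 0 ∧
      ∀ j, j ≠ i → ∀ v : InfinitePlace K, v (l j) < 1 := by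
  classical
  have hS : ∀ v : InfinitePlace K, 0 < ∑ j ∈ univ.erase i, v (a j : K) := fun v =>
    lt_of_le_of_lt (apply_nonneg v _) (h1 v i)
  obtain ⟨v₀⟩ := (inferInstance : Nonempty (InfinitePlace K))
  obtain ⟨k, hk, hk0⟩ : ∃ k, k ≠ i ∧ (a k : K) ≠ 0 := by
    obtain ⟨k, hk, hk0⟩ := exists_lt_of_sum_lt (s := univ.erase i) (f := fun _ => (0 : ℝ))
      (g := fun j => v₀ (a j : K)) (by simpa using hS v₀)
    refine ⟨k, ne_of_mem_erase hk, fun h => ?_⟩
    rw [h, map_zero] at hk0
    exact lt_irrefl _ hk0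
  have hσk : ∀ v : InfinitePlace K, v.embedding (a k : K) ≠ 0 := fun v => by
    rw [Ne, map_eq_zero]; exact hk0
  -- real target
  let z : Fin n → InfinitePlace K → ℂ := fun j v =>
    if j = i then 1 else -(v.embedding (a i : K)) * (v (a j : K) : ℂ) /
      (v.embedding (a j : K) * ((∑ j ∈ univ.erase i, v (a j : K) : ℝ) : ℂ))
  have hzreal : ∀ j v, v.IsReal → (z j v).im = 0 := by
    intro j v hv
    by_cases hj : j = i
    · simp [z, hj]
    · have : ∃ r : ℝ, z j v = (r : ℂ) := by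
        refine ⟨-(InfinitePlace.embedding_of_isReal hv (a i : K)) * v (a j : K) /
          (InfinitePlace.embedding_of_isReal hv (a j : K) * (∑ j ∈ univ.erase i, v (a j : K))), ?_⟩
        simp only [z, if_neg hj]
        push_cast
        rw [InfinitePlace.embedding_of_isReal_apply, InfinitePlace.embedding_of_isReal_apply]
      obtain ⟨r, hr⟩ := this
      rw [hr, Complex.ofReal_im]
  -- correction map
  let Φ : (Fin n → InfinitePlace K → ℂ) → Fin n → InfinitePlace K → ℂ := fun u j v =>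
    if j = i then 1 else if j = k then
      -(v.embedding (a i : K) + ∑ l ∈ (univ.erase i).erase k, v.embedding (a l : K) * u l v) /
        v.embedding (a k : K) else u j v
  have hΦc : Continuous Φ := by
    refine continuous_pi fun j => continuous_pi fun v => ?_
    by_cases hj : j = i
    · simp only [Φ, if_pos hj]; exact continuous_const
    · by_cases hj' : j = k
      · simp only [Φ, if_neg hj, if_pos hj']
        fun_prop
      · simp only [Φ, if_neg hj, if_neg hj']
        fun_prop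
  have hkm : k ∈ univ.erase i := mem_erase.2 ⟨hk, mem_univ _⟩
  have hzsum : ∀ v : InfinitePlace K, v.embedding (a i : K) +
      ∑ j ∈ univ.erase i, v.embedding (a j : K) * z j v = 0 := by
    intro v
    have hterm : ∀ j ∈ univ.erase i, v.embedding (a j : K) * z j v =
        -(v.embedding (a i : K)) / ((∑ j ∈ univ.erase i, v (a j : K) : ℝ) : ℂ) * (v (a j : K) : ℂ) := by
      intro j hj
      simp only [z, if_neg (ne_of_mem_erase hj)]
      by_cases h0 : (a j : K) = 0
      · rw [h0]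
        simp
      · have h3 : v.embedding (a j : K) ≠ 0 := by rw [Ne, map_eq_zero]; exact h0
        have h4 : ((∑ j ∈ univ.erase i, v (a j : K) : ℝ) : ℂ) ≠ 0 := by exact_mod_cast (hS v).ne'
        field_simp
    rw [sum_congr rfl hterm, ← mul_sum]
    have h4 : ((∑ j ∈ univ.erase i, v (a j : K) : ℝ) : ℂ) ≠ 0 := by exact_mod_cast (hS v).ne'
    rw [← Complex.ofReal_sum]
    field_simp
    ring
  have hΦz : Φ z = z := by
    funext j v
    by_cases hj : j = i
    · simp [Φ, z, hj]
    · by_cases hj' : j = k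
      · simp only [Φ, if_neg hj, if_pos hj']
        have h5 := hzsum v
        rw [← add_sum_erase _ _ hkm] at h5
        rw [hj', div_eq_iff (hσk v)]
        linear_combination -h5
      · simp only [Φ, if_neg hj, if_neg hj']
  have hzlt : ∀ j, j ≠ i → ∀ v, ‖z j v‖ < 1 := by
    intro j hj v
    simp only [z, if_neg hj]
    rw [norm_div, norm_mul, norm_neg, norm_mul, InfinitePlace.norm_embedding_eq,
      InfinitePlace.norm_embedding_eq, Complex.norm_real, Complex.norm_real,
      Real.norm_of_nonneg (apply_nonneg v _), Real.norm_of_nonneg (hS v).le]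
    by_cases h0 : (a j : K) = 0
    · rw [h0]
      simp
    · have h3 : 0 < v (a j : K) := by rw [InfinitePlace.pos_iff]; exact h0
      rw [div_lt_one (mul_pos h3 (hS v)), mul_comm]
      exact mul_lt_mul_of_pos_left (h1 v i) h3
  let U : Set (Fin n → InfinitePlace K → ℂ) := {u | ∀ j, j ≠ i → ∀ v, ‖Φ u j v‖ < 1}
  have hU : IsOpen U := by
    have : U = ⋂ j, ⋂ v, {u | j ≠ i → ‖Φ u j v‖ < 1} := by
      ext u
      simp only [U, Set.mem_ofPred_eq, Set.mem_iInter]
      exact ⟨fun h j v hj => h j hj v, fun h j hj v => h j v hj⟩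
    rw [this]
    refine isOpen_iInter_of_finite fun j => isOpen_iInter_of_finite fun v => ?_
    by_cases hj : j = i
    · have : {u : Fin n → InfinitePlace K → ℂ | j ≠ i → ‖Φ u j v‖ < 1} = Set.univ := by
        ext u; simp [hj]
      rw [this]
      exact isOpen_univ
    · have : {u : Fin n → InfinitePlace K → ℂ | j ≠ i → ‖Φ u j v‖ < 1} = {u | ‖Φ u j v‖ < 1} := by
        ext u; simp [hj]
      rw [this]
      refine isOpen_lt ?_ continuous_const
      exact ((continuous_apply v).comp ((continuous_apply j).comp hΦc)).norm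
  have hzU : z ∈ U := by
    intro j hj v
    rw [hΦz]
    exact hzlt j hj v
  have hcl : z ∈ closure (Set.pi Set.univ fun _ : Fin n => Set.range (emb K)) := by
    rw [closure_pi_set]
    exact fun j _ => dens (z j) (hzreal j)
  obtain ⟨u, huU, hu⟩ := mem_closure_iff.1 hcl U hU hzU
  choose m hm using fun j : Fin n => hu j trivial
  -- the solution
  let l : Fin n → K := fun j => if j = i then 1 else if j = k then
      -((a i : K) + ∑ l ∈ (univ.erase i).erase k, (a l : K) * m l) / (a k : K) else m j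
  have hl : ∀ j (v : InfinitePlace K), v.embedding (l j) = Φ u j v := by
    intro j v
    have hmv : ∀ j, v.embedding (m j) = u j v := fun j => congrFun (hm j) v
    by_cases hj : j = i
    · simp [l, Φ, hj]
    · by_cases hj' : j = k
      · simp only [l, Φ, if_neg hj, if_pos hj']
        rw [map_div₀, map_neg, map_add, map_sum]
        simp_rw [map_mul, hmv]
      · simp only [l, Φ, if_neg hj, if_neg hj', hmv]
  refine ⟨l, by simp [l], ?_, ?_⟩
  · rw [← add_sum_erase univ _ (mem_univ i), ← add_sum_erase _ _ hkm]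
    have e1 : ∑ j ∈ (univ.erase i).erase k, (a j : K) * l j =
        ∑ j ∈ (univ.erase i).erase k, (a j : K) * m j := by
      refine sum_congr rfl fun j hj => ?_
      have hjk := ne_of_mem_erase hj
      have hji := ne_of_mem_erase (mem_of_mem_erase hj)
      simp only [l, if_neg hji, if_neg hjk]
    rw [e1]
    simp only [l, if_true, if_neg hk]
    field_simp
    ring
  · intro j hj v
    rw [← InfinitePlace.norm_embedding_eq, hl]
    exact huU j hj v

omit [NumberField K] in
lemma place_add (v : InfinitePlace K) (x y : K) : v (x + y) ≤ v x + v y := by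
  rw [← InfinitePlace.norm_embedding_eq, ← InfinitePlace.norm_embedding_eq,
    ← InfinitePlace.norm_embedding_eq, map_add]
  exact norm_add_le _ _

lemma descent_one {n : ℕ} (a : Fin n → 𝓞 K)
    (h1 : ∀ v : InfinitePlace K, ∀ i : Fin n, v (a i : K) < ∑ j ∈ univ.erase i, v (a j : K))
    (h2 : ∀ (i : Fin n) (c : 𝓞 K), ∃ x : Fin n → 𝓞 K, ∑ j, a j * x j = 0 ∧ x i = c)
    (i : Fin n) : ∃ τ C : ℝ, 0 ≤ τ ∧ τ < 1 ∧ 0 ≤ C ∧ ∀ c : 𝓞 K, ∃ x : Fin n → 𝓞 K,
      ∑ j, a j * x j = 0 ∧ x i = c ∧ ∀ j, j ≠ i → nrm (x j) ≤ C + τ * nrm c := by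
  classical
  obtain ⟨l, hli, hl0, hl1⟩ := exists_lambda a h1 i
  obtain ⟨τ, hτ0, hτ1, hτ⟩ : ∃ τ : ℝ, 0 ≤ τ ∧ τ < 1 ∧ ∀ j, j ≠ i → ∀ v : InfinitePlace K, v (l j) ≤ τ := by
    obtain ⟨v₀⟩ := (inferInstance : Nonempty (InfinitePlace K))
    let F : Finset ℝ := insert 0 (((univ.erase i) ×ˢ (univ : Finset (InfinitePlace K))).image
      fun p => p.2 (l p.1))
    have hF : F.Nonempty := ⟨0, mem_insert_self _ _⟩
    refine ⟨F.max' hF, F.le_max' 0 (mem_insert_self _ _), ?_, fun j hj v => ?_⟩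
    · rw [Finset.max'_lt_iff]
      intro y hy
      rcases mem_insert.1 hy with rfl | hy
      · exact one_pos
      · obtain ⟨⟨j, v⟩, hjv, rfl⟩ := mem_image.1 hy
        exact hl1 j (ne_of_mem_erase (mem_product.1 hjv).1) v
    · apply F.le_max'
      refine mem_insert_of_mem (mem_image.2 ⟨(j, v), mem_product.2 ⟨mem_erase.2 ⟨hj, mem_univ _⟩,
        mem_univ _⟩, rfl⟩)
  obtain ⟨⟨q, hq⟩, hql⟩ := IsLocalization.exist_integer_multiples (nonZeroDivisors (𝓞 K)) univ l
  have hq0 : q ≠ 0 := nonZeroDivisors.ne_zero hq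
  have hql' : ∀ j, ∃ m : 𝓞 K, (m : K) = (q : K) * l j := by
    intro j
    obtain ⟨m, hm⟩ := hql j (mem_univ j)
    refine ⟨m, hm.trans ?_⟩
    exact Algebra.smul_def _ _
  choose m hm using hql'
  have hmi : m i = q := by
    apply RingOfIntegers.ext
    rw [hm, hli, mul_one]
  have hm0 : ∑ j, a j * m j = 0 := by
    apply RingOfIntegers.ext
    have : ((∑ j, a j * m j : 𝓞 K) : K) = ∑ j, (a j : K) * (m j : K) := by
      simp
    rw [this]
    have h3 : ∀ j, (a j : K) * (m j : K) = (q : K) * ((a j : K) * l j) := fun j => by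
      rw [hm]; ring
    simp_rw [h3]
    rw [← mul_sum, hl0, mul_zero]
    simp
  have hfin : Finite (𝓞 K ⧸ Ideal.span {q}) := Ideal.finiteQuotientOfFreeOfNeBot _ (by
    rw [Ne, Ideal.span_singleton_eq_bot]
    exact hq0)
  let rep : (𝓞 K ⧸ Ideal.span {q}) → 𝓞 K := fun y => Quotient.out y
  have hrep : ∀ y, Ideal.Quotient.mk (Ideal.span {q}) (rep y) = y := fun y => Quotient.out_eq y
  choose X hX0 hXi using h2 i
  obtain ⟨C, hC⟩ := (Set.finite_range fun y : 𝓞 K ⧸ Ideal.span {q} =>
    nrm (rep y) + ∑ j, nrm (X (rep y) j)).bddAbove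
  have hC' : ∀ y, nrm (rep y) + ∑ j, nrm (X (rep y) j) ≤ C := fun y => hC ⟨y, rfl⟩
  have hC0 : 0 ≤ C := (add_nonneg (nrm_nonneg _) (sum_nonneg fun j _ => nrm_nonneg _)).trans
    (hC' 0)
  refine ⟨τ, C, hτ0, hτ1, hC0, fun c => ?_⟩
  set c₀ := rep (Ideal.Quotient.mk _ c) with hc₀
  obtain ⟨e, he⟩ : ∃ e, c - c₀ = e * q := by
    have : c - c₀ ∈ Ideal.span {q} := by
      rw [← Ideal.Quotient.eq, hrep]
    obtain ⟨e, he⟩ := Ideal.mem_span_singleton'.1 this
    exact ⟨e, he.symm⟩
  refine ⟨fun j => X c₀ j + e * m j, ?_, ?_, ?_⟩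
  · have : ∀ j, a j * (X c₀ j + e * m j) = a j * X c₀ j + e * (a j * m j) := fun j => by ring
    simp_rw [this]
    rw [sum_add_distrib, ← mul_sum, hX0, hm0, mul_zero, add_zero]
  · simp only
    rw [hXi, hmi, ← he]
    ring
  · intro j hj
    simp only
    rw [nrm, pi_norm_le_iff_of_nonneg (by have := nrm_nonneg c; positivity)]
    intro v
    rw [norm_iota]
    have e1 : ((X c₀ j + e * m j : 𝓞 K) : K) = (X c₀ j : K) + ((c : K) - (c₀ : K)) * l j := by
      have h4 : ((c : K) - (c₀ : K)) = (e : K) * (q : K) := by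
        have := congrArg (fun z : 𝓞 K => (z : K)) he
        simpa using this
      have h5 : ((X c₀ j + e * m j : 𝓞 K) : K) = (X c₀ j : K) + (e : K) * (m j : K) := by simp
      rw [h5, hm, h4]
      ring
    rw [e1]
    have hb1 : v (X c₀ j : K) ≤ nrm (X c₀ j) := place_le_nrm _ _
    have hb2 : v (c : K) ≤ nrm c := place_le_nrm _ _
    have hb3 : v (c₀ : K) ≤ nrm c₀ := place_le_nrm _ _
    have hb4 := hC' (Ideal.Quotient.mk _ c)
    rw [← hc₀] at hb4
    have hb5 : nrm (X c₀ j) ≤ ∑ j, nrm (X c₀ j) :=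
      single_le_sum (f := fun j => nrm (X c₀ j)) (fun _ _ => nrm_nonneg _) (mem_univ j)
    have hlτ := hτ j hj v
    have hl0' : 0 ≤ v (l j) := apply_nonneg v _
    calc v ((X c₀ j : K) + ((c : K) - (c₀ : K)) * l j) ≤ v (X c₀ j : K) + v (((c : K) - (c₀ : K)) * l j) :=
          place_add v _ _
      _ = v (X c₀ j : K) + v ((c : K) - (c₀ : K)) * v (l j) := by rw [map_mul]
      _ ≤ v (X c₀ j : K) + (v (c : K) + v (c₀ : K)) * v (l j) := by
          gcongr
          rw [sub_eq_add_neg]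
          refine (place_add v _ _).trans ?_
          have : v (-(c₀ : K)) = v (c₀ : K) := by
            rw [← InfinitePlace.norm_embedding_eq, map_neg, norm_neg, InfinitePlace.norm_embedding_eq]
          rw [this]
      _ ≤ v (X c₀ j : K) + (v (c : K) + v (c₀ : K)) * τ := by
          have : 0 ≤ v (c : K) + v (c₀ : K) := add_nonneg (apply_nonneg v _) (apply_nonneg v _)
          gcongr
      _ ≤ nrm (X c₀ j) + (nrm c + nrm c₀) * τ := by gcongr
      _ ≤ nrm (X c₀ j) + τ * nrm c + nrm c₀ := by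
          have := mul_le_mul_of_nonneg_left hτ1.le (nrm_nonneg c₀)
          nlinarith
      _ ≤ C + τ * nrm c := by linarith

/-- the descent -/
theorem descent {n : ℕ} (hn : 0 < n) (a : Fin n → 𝓞 K)
    (h1 : ∀ v : InfinitePlace K, ∀ i : Fin n, v (a i : K) < ∑ j ∈ univ.erase i, v (a j : K))
    (h2 : ∀ (i : Fin n) (c : 𝓞 K), ∃ x : Fin n → 𝓞 K, ∑ j, a j * x j = 0 ∧ x i = c) :
    ∃ θ R : ℝ, 0 < θ ∧ θ < 1 ∧ 0 < R ∧ ∀ c : 𝓞 K, R < 1 + nrm c → ∀ i, ∃ x : Fin n → 𝓞 K,
      ∑ j, a j * x j = 0 ∧ x i = c ∧ ∀ j, j ≠ i → 1 + nrm (x j) ≤ θ * (1 + nrm c) := by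
  classical
  choose τ C hτ0 hτ1 hC hdesc using descent_one a h1 h2
  have : Nonempty (Fin n) := ⟨⟨0, hn⟩⟩
  obtain ⟨i₁, -, hi₁⟩ := exists_max_image univ τ univ_nonempty
  obtain ⟨i₂, -, hi₂⟩ := exists_max_image univ C univ_nonempty
  set T := τ i₁ with hT
  set D := C i₂ with hD
  have hT0 : 0 ≤ T := hτ0 _
  have hT1 : T < 1 := hτ1 _
  have hD0 : 0 ≤ D := hC _
  refine ⟨(1 + T) / 2, 2 * (1 + D) / (1 - T), by linarith, by linarith, ?_, ?_⟩
  · have : 0 < 1 - T := by linarith
    positivity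
  · intro c hc i
    obtain ⟨x, hx0, hxi, hxj⟩ := hdesc i c
    refine ⟨x, hx0, hxi, fun j hj => ?_⟩
    have h3 := hxj j hj
    have h4 : C i ≤ D := hi₂ i (mem_univ i)
    have h5 : τ i * nrm c ≤ T * nrm c := mul_le_mul_of_nonneg_right (hi₁ i (mem_univ i)) (nrm_nonneg c)
    rw [div_lt_iff₀ (by linarith)] at hc
    nlinarith [nrm_nonneg c]

end Pool.Agent.J4H56.SM
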