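import Mathlib

/-! Gaussian sums over lattices: near-constancy in the shift. -/

set_option autoImplicit false

namespace Pool.Agent.J4H56.SM

open Real Finset

/-- Poisson summation for a shifted real Gaussian. -/
lemma pois_shift {a : ℝ} (ha : 0 < a) (c : ℝ) :
    ((∑' n : ℤ, rexp (-π * a * ((n : ℝ) + c) ^ 2) : ℝ) : ℂ) =
      ((1 / √a : ℝ) : ℂ) * ∑' n : ℤ, Complex.exp (((-π / a * (n : ℝ) ^ 2 : ℝ) : ℂ) +
        2 * π * Complex.I * n * c) := by
  have h := Complex.tsum_exp_neg_quadratic (a := (a : ℂ)) (by simpa using ha) ((-(a * c) : ℝ) : ℂ)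
  have hac : (a : ℂ) ≠ 0 := by exact_mod_cast ha.ne'
  have e1 : ∀ n : ℤ, ((rexp (-π * a * ((n : ℝ) + c) ^ 2) : ℝ) : ℂ) =
      Complex.exp (-π * a * c ^ 2) *
      Complex.exp (-π * (a : ℂ) * n ^ 2 + 2 * π * ((-(a * c) : ℝ) : ℂ) * n) := by
    intro n
    rw [← Complex.exp_add, Complex.ofReal_exp]
    congr 1
    push_cast
    ring
  have e2 : ∀ n : ℤ, Complex.exp (((-π / a * (n : ℝ) ^ 2 : ℝ) : ℂ) +
        2 * π * Complex.I * n * c) = Complex.exp (-π * a * c ^ 2) *
      Complex.exp (-π / (a : ℂ) * (n + Complex.I * ((-(a * c) : ℝ) : ℂ)) ^ 2) := by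
    intro n
    rw [← Complex.exp_add]
    congr 1
    push_cast
    field_simp
    ring_nf
    rw [Complex.I_sq]
    ring
  have e3 : ((1 / √a : ℝ) : ℂ) = 1 / (a : ℂ) ^ (1 / 2 : ℂ) := by
    rw [Real.sqrt_eq_rpow]
    push_cast
    rw [Complex.ofReal_cpow ha.le]
    norm_num
  rw [Complex.ofReal_tsum]
  simp_rw [e1, e2]
  rw [tsum_mul_left, tsum_mul_left, h, e3]
  ring

lemma summable_gauss {b : ℝ} (hb : 0 < b) : Summable (fun n : ℤ => rexp (-b * (n : ℝ) ^ 2)) := by
  have h := (summable_pow_mul_jacobiTheta₂_term_bound 0 (T := b / π) (by positivity) 0)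
  refine h.congr fun n => ?_
  simp only [pow_zero, one_mul]
  congr 1
  simp
  field_simp

lemma summable_gauss_shift {b : ℝ} (hb : 0 < b) (c : ℝ) :
    Summable (fun n : ℤ => rexp (-b * ((n : ℝ) + c) ^ 2)) := by
  have h := (summable_gauss (b := b / 2) (by positivity)).mul_left (rexp (b * c ^ 2))
  refine Summable.of_nonneg_of_le (fun n => (Real.exp_pos _).le) (fun n => ?_) h
  rw [← Real.exp_add]
  apply Real.exp_le_exp.2
  nlinarith [mul_nonneg hb.le (sq_nonneg ((n : ℝ) + 2 * c))]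

lemma one_dim {τ : ℝ} (hτ : 0 < τ) : ∃ C δ : ℝ, 0 ≤ C ∧ 0 < δ ∧ ∀ t : ℝ, 0 < t → t ≤ 1 → ∀ c : ℝ,
    Summable (fun n : ℤ => rexp (-π * t * (τ * ((n : ℝ) + c) ^ 2))) ∧
    |∑' n : ℤ, rexp (-π * t * (τ * ((n : ℝ) + c) ^ 2)) - (1 / √τ) * (1 / √t)| ≤
      C * (1 / √t) * rexp (-δ / t) := by
  have hg := summable_gauss (b := π / (2 * τ)) (by positivity)
  refine ⟨(1 / √τ) * ∑' n : ℤ, rexp (-(π / (2 * τ)) * (n : ℝ) ^ 2), π / (2 * τ), ?_, by positivity,
    fun t ht ht1 c => ?_⟩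
  · exact mul_nonneg (by positivity) (tsum_nonneg fun n => (Real.exp_pos _).le)
  have ha : 0 < t * τ := by positivity
  have hs : Summable (fun n : ℤ => rexp (-π * t * (τ * ((n : ℝ) + c) ^ 2))) := by
    refine (summable_gauss_shift (b := π * t * τ) (by positivity) c).congr fun n => ?_
    congr 1
    ring
  refine ⟨hs, ?_⟩
  have h := pois_shift ha c
  set g : ℤ → ℂ := fun n => Complex.exp (((-π / (t * τ) * (n : ℝ) ^ 2 : ℝ) : ℂ) +
        2 * π * Complex.I * n * c) with hgdef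
  have hnorm : ∀ n : ℤ, ‖g n‖ = rexp (-π / (t * τ) * (n : ℝ) ^ 2) := by
    intro n
    rw [hgdef]
    simp only
    rw [Complex.norm_exp]
    congr 1
    rw [Complex.add_re, Complex.ofReal_re]
    simp
  have hb1 : ∀ n : ℤ, n ≠ 0 → rexp (-π / (t * τ) * (n : ℝ) ^ 2) ≤
      rexp (-(π / (2 * τ)) / t) * rexp (-(π / (2 * τ)) * (n : ℝ) ^ 2) := by
    intro n hn
    rw [← Real.exp_add]
    apply Real.exp_le_exp.2
    have h1 : (1 : ℝ) ≤ (n : ℝ) ^ 2 := by
      have : (1 : ℤ) ≤ n ^ 2 := by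
        have := Int.one_le_abs hn
        nlinarith [sq_abs n]
      exact_mod_cast this
    have h2 : 1 / t ≥ 1 := by
      rw [ge_iff_le, le_div_iff₀ ht]
      linarith
    have e1 : -π / (t * τ) * (n : ℝ) ^ 2 = -(π / (2 * τ)) * (2 * (1 / t) * (n : ℝ) ^ 2) := by
      field_simp
    have e2 : -(π / (2 * τ)) / t + -(π / (2 * τ)) * (n : ℝ) ^ 2 =
      -(π / (2 * τ)) * (1 / t + (n : ℝ) ^ 2) := by
      field_simp
      ring
    rw [e1, e2]
    have h3 : 1 / t + (n : ℝ) ^ 2 ≤ 2 * (1 / t) * (n : ℝ) ^ 2 := by nlinarith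
    have h4 : 0 < π / (2 * τ) := by positivity
    nlinarith
  have hsg : Summable g := by
    apply Summable.of_norm
    have h5 : Summable fun n : ℤ => rexp (-π / (t * τ) * (n : ℝ) ^ 2) := by
      refine (summable_gauss (b := π / (t * τ)) (by positivity)).congr fun n => ?_
      congr 1
      ring
    exact h5.congr fun n => (hnorm n).symm
  have h0 : g 0 = 1 := by simp [hgdef]
  have h1 : (∑' n : ℤ, g n) = 1 + ∑' n : ℤ, ite (n = 0) 0 (g n) := by
    rw [hsg.tsum_eq_add_tsum_ite 0, h0]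
  have h2 : ‖∑' n : ℤ, ite (n = 0) 0 (g n)‖ ≤
      rexp (-(π / (2 * τ)) / t) * ∑' n : ℤ, rexp (-(π / (2 * τ)) * (n : ℝ) ^ 2) := by
    rw [← tsum_mul_left]
    refine tsum_of_norm_bounded (hg.mul_left _).hasSum fun n => ?_
    by_cases hn : n = 0
    · simp only [hn, if_true, norm_zero]
      positivity
    · rw [if_neg hn, hnorm]
      exact hb1 n hn
  have h3 : √(t * τ) = √t * √τ := Real.sqrt_mul ht.le τ
  have h4 : ((∑' n : ℤ, rexp (-π * t * (τ * ((n : ℝ) + c) ^ 2)) - (1 / √τ) * (1 / √t) : ℝ) : ℂ) =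
      ((1 / √(t * τ) : ℝ) : ℂ) * ∑' n : ℤ, ite (n = 0) 0 (g n) := by
    have e : ∑' n : ℤ, rexp (-π * t * (τ * ((n : ℝ) + c) ^ 2)) =
        ∑' n : ℤ, rexp (-π * (t * τ) * ((n : ℝ) + c) ^ 2) :=
      tsum_congr fun n => by congr 1; ring
    rw [e, Complex.ofReal_sub, h, h1, mul_add, mul_one, h3]
    push_cast
    ring
  have h5 : |∑' n : ℤ, rexp (-π * t * (τ * ((n : ℝ) + c) ^ 2)) - (1 / √τ) * (1 / √t)| =
      ‖((∑' n : ℤ, rexp (-π * t * (τ * ((n : ℝ) + c) ^ 2)) - (1 / √τ) * (1 / √t) : ℝ) : ℂ)‖ := by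
    rw [Complex.norm_real, Real.norm_eq_abs]
  rw [h5, h4, norm_mul, Complex.norm_real, h3, Real.norm_of_nonneg (by positivity)]
  calc 1 / (√t * √τ) * ‖∑' n : ℤ, ite (n = 0) 0 (g n)‖ ≤ 1 / (√t * √τ) *
      (rexp (-(π / (2 * τ)) / t) * ∑' n : ℤ, rexp (-(π / (2 * τ)) * (n : ℝ) ^ 2)) := by gcongr
    _ = _ := by ring

variable {E : Type*} [NormedAddCommGroup E] [InnerProductSpace ℝ E]

/-- Gaussian sums over `ℤ^D` with linearly independent generators. -/
theorem theta_basis : ∀ (D : ℕ) (b : Fin D → E), LinearIndependent ℝ b →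
    ∃ A C δ : ℝ, 0 < A ∧ 0 ≤ C ∧ 0 < δ ∧ ∀ t : ℝ, 0 < t → t ≤ 1 →
      ∀ s ∈ Submodule.span ℝ (Set.range b),
      Summable (fun k : Fin D → ℤ => rexp (-π * t * ‖∑ j, (k j : ℝ) • b j + s‖ ^ 2)) ∧
      |∑' k : Fin D → ℤ, rexp (-π * t * ‖∑ j, (k j : ℝ) • b j + s‖ ^ 2) - A * (1 / √t) ^ D| ≤
        C * (1 / √t) ^ D * rexp (-δ / t) := by
  intro D
  induction D with
  | zero =>
    intro b hb
    refine ⟨1, 0, 1, one_pos, le_rfl, one_pos, fun t ht ht1 s hs => ?_⟩
    have hs0 : s = 0 := by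
      rw [Set.range_eq_empty, Submodule.span_empty] at hs
      exact (Submodule.mem_bot ℝ).1 hs
    subst hs0
    refine ⟨Summable.of_finite, ?_⟩
    rw [tsum_fintype]
    simp
  | succ D ih =>
    intro b hb
    have hbt : LinearIndependent ℝ (Fin.tail b) := by
      have := linearIndependent_finSucc.1 hb
      exact this.1
    have hb0 : b 0 ∉ Submodule.span ℝ (Set.range (Fin.tail b)) := (linearIndependent_finSucc.1 hb).2
    obtain ⟨A', C', δ', hA', hC', hδ', hI⟩ := ih _ hbt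
    set V : Submodule ℝ E := Submodule.span ℝ (Set.range (Fin.tail b)) with hV
    have : FiniteDimensional ℝ V := FiniteDimensional.span_of_finite ℝ (Set.finite_range _)
    obtain ⟨w, hw, u, hu, hbu⟩ : ∃ w ∈ V, ∃ u ∈ Vᗮ, b 0 = w + u := by
      have := Submodule.exists_add_mem_mem_orthogonal (K := V) (b 0)
      obtain ⟨w, hw, u, hu, h⟩ := this
      exact ⟨w, hw, u, hu, h⟩
    have hu0 : u ≠ 0 := by
      rintro rfl
      rw [add_zero] at hbu
      exact hb0 (hbu ▸ hw)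
    have hτ : 0 < ‖u‖ ^ 2 := by positivity
    obtain ⟨C₁, δ₁, hC₁, hδ₁, h1⟩ := one_dim hτ
    set A₁ : ℝ := 1 / √(‖u‖ ^ 2) with hA₁
    have hA₁p : 0 < A₁ := by positivity
    refine ⟨A' * A₁, C' * (A₁ + C₁) + A' * C₁, min δ' δ₁, by positivity, by positivity,
      lt_min hδ' hδ₁, fun t ht ht1 s hs => ?_⟩
    obtain ⟨c, s', hs', hsc⟩ : ∃ c : ℝ, ∃ s' ∈ V, s = c • u + s' := by
      have hr : Set.range b = insert (b 0) (Set.range (Fin.tail b)) := by
        ext x
        constructor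
        · rintro ⟨j, rfl⟩
          refine Fin.cases ?_ (fun j => ?_) j
          · exact Set.mem_insert _ _
          · exact Set.mem_insert_of_mem _ ⟨j, rfl⟩
        · rintro (rfl | ⟨j, rfl⟩)
          · exact ⟨0, rfl⟩
          · exact ⟨j.succ, rfl⟩
      rw [hr, Submodule.mem_span_insert] at hs
      obtain ⟨c, z, hz, rfl⟩ := hs
      refine ⟨c, c • w + z, V.add_mem (V.smul_mem c hw) hz, ?_⟩
      rw [hbu, smul_add]
      abel
    set r : ℝ := 1 / √t with hr
    have hr0 : 0 < r := by positivity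
    -- splitting
    set g : ℤ → ℝ := fun n => rexp (-π * t * (‖u‖ ^ 2 * ((n : ℝ) + c) ^ 2)) with hg
    set Sh : ℤ → E := fun n => (n : ℝ) • w + s' with hSh
    have hShV : ∀ n, Sh n ∈ V := fun n => V.add_mem (V.smul_mem _ hw) hs'
    set e : ℤ → (Fin D → ℤ) → ℝ := fun n k =>
      rexp (-π * t * ‖∑ j, (k j : ℝ) • Fin.tail b j + Sh n‖ ^ 2) with he
    obtain ⟨hgs, hge⟩ := h1 t ht ht1 c
    have hsplit : ∀ p : ℤ × (Fin D → ℤ),
        rexp (-π * t * ‖∑ j, ((Fin.cons p.1 p.2 : Fin (D + 1) → ℤ) j : ℝ) • b j + s‖ ^ 2) =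
        g p.1 * e p.1 p.2 := by
      rintro ⟨n, k⟩
      have hdec : ∑ j, ((Fin.cons n k : Fin (D + 1) → ℤ) j : ℝ) • b j + s =
          ((n : ℝ) + c) • u + (∑ j, (k j : ℝ) • Fin.tail b j + Sh n) := by
        rw [Fin.sum_univ_succ, hsc, hSh]
        simp only [Fin.cons_zero, Fin.cons_succ, Fin.tail]
        rw [hbu, smul_add, add_smul]
        abel
      have hmem : ∑ j, (k j : ℝ) • Fin.tail b j + Sh n ∈ V :=
        V.add_mem (V.sum_mem fun j _ => V.smul_mem _ (Submodule.subset_span ⟨j, rfl⟩)) (hShV n)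
      have horth : inner ℝ (((n : ℝ) + c) • u) (∑ j, (k j : ℝ) • Fin.tail b j + Sh n) = 0 := by
        rw [inner_smul_left]
        have := (Submodule.mem_orthogonal' V u).1 hu _ hmem
        rw [this, mul_zero]
      have hn : ‖∑ j, ((Fin.cons n k : Fin (D + 1) → ℤ) j : ℝ) • b j + s‖ ^ 2 =
          ‖u‖ ^ 2 * ((n : ℝ) + c) ^ 2 + ‖∑ j, (k j : ℝ) • Fin.tail b j + Sh n‖ ^ 2 := by
        rw [hdec, norm_add_sq_real, horth, norm_smul, mul_pow, Real.norm_eq_abs, sq_abs]
        ring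
      simp only [hg, he]
      rw [hn, ← Real.exp_add]
      congr 1
      ring
    have hes : ∀ n, Summable (e n) := fun n => (hI t ht ht1 (Sh n) (hShV n)).1
    have hee : ∀ n, |∑' k, e n k - A' * r ^ D| ≤ C' * r ^ D * rexp (-δ' / t) :=
      fun n => (hI t ht ht1 (Sh n) (hShV n)).2
    have hepos : ∀ n k, 0 ≤ e n k := fun n k => (Real.exp_pos _).le
    have hgpos : ∀ n, 0 ≤ g n := fun n => (Real.exp_pos _).le
    set Θ : ℤ → ℝ := fun n => ∑' k, e n k with hΘ
    have hΘ0 : ∀ n, 0 ≤ Θ n := fun n => tsum_nonneg (hepos n)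
    have hexp1 : ∀ x : ℝ, 0 < x → rexp (-x / t) ≤ 1 := fun x hx =>
      Real.exp_le_one_iff.2 (by rw [neg_div]; exact neg_nonpos.2 (by positivity))
    have hΘb : ∀ n, Θ n ≤ (A' + C') * r ^ D := by
      intro n
      have := (abs_le.1 (hee n)).2
      have h3 : C' * r ^ D * rexp (-δ' / t) ≤ C' * r ^ D :=
        mul_le_of_le_one_right (by positivity) (hexp1 _ hδ')
      simp only [hΘ]
      linarith
    have hgΘ : Summable fun n => g n * Θ n :=
      Summable.of_nonneg_of_le (fun n => mul_nonneg (hgpos n) (hΘ0 n))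
        (fun n => mul_le_mul_of_nonneg_left (hΘb n) (hgpos n)) (hgs.mul_right _)
    have hprod : Summable (fun p : ℤ × (Fin D → ℤ) => g p.1 * e p.1 p.2) := by
      rw [summable_prod_of_nonneg (fun p => mul_nonneg (hgpos _) (hepos _ _))]
      refine ⟨fun n => ?_, ?_⟩
      · exact (hes n).mul_left (g n)
      · refine hgΘ.congr fun n => ?_
        exact (tsum_mul_left (a := g n) (f := e n)).symm
    let eqv : ℤ × (Fin D → ℤ) ≃ (Fin (D + 1) → ℤ) := Fin.consEquiv (fun _ => ℤ)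
    have heqv : ∀ p, eqv p = (Fin.cons p.1 p.2 : Fin (D + 1) → ℤ) := fun p => rfl
    constructor
    · rw [← eqv.summable_iff]
      refine hprod.congr fun p => ?_
      rw [Function.comp_apply, heqv, hsplit]
    · rw [← eqv.tsum_eq]
      have e1 : ∑' p : ℤ × (Fin D → ℤ), rexp (-π * t * ‖∑ j, ((eqv p) j : ℝ) • b j + s‖ ^ 2) =
          ∑' n, g n * Θ n := by
        calc _ = ∑' p : ℤ × (Fin D → ℤ), g p.1 * e p.1 p.2 := tsum_congr fun p => by
              rw [heqv, hsplit]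
          _ = ∑' n, ∑' k, g n * e n k := hprod.tsum_prod
          _ = _ := tsum_congr fun n => by rw [tsum_mul_left]
      rw [e1]
      have e2 : ∑' n, g n * Θ n - A' * A₁ * r ^ (D + 1) =
          ∑' n, g n * (Θ n - A' * r ^ D) + A' * r ^ D * (∑' n, g n - A₁ * r) := by
        have : ∑' n, g n * (Θ n - A' * r ^ D) = ∑' n, g n * Θ n - (∑' n, g n) * (A' * r ^ D) := by
          rw [← tsum_mul_right, ← hgΘ.tsum_sub (hgs.mul_right _)]
          exact tsum_congr fun n => by ring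
        rw [this]
        ring
      rw [e2]
      have hG : ∑' n, g n ≤ (A₁ + C₁) * r := by
        have := (abs_le.1 hge).2
        have h3 : C₁ * r * rexp (-δ₁ / t) ≤ C₁ * r :=
          mul_le_of_le_one_right (by positivity) (hexp1 _ hδ₁)
        linarith
      have b1 : |∑' n, g n * (Θ n - A' * r ^ D)| ≤
          (A₁ + C₁) * r * (C' * r ^ D * rexp (-δ' / t)) := by
        have h5 : ‖∑' n, g n * (Θ n - A' * r ^ D)‖ ≤
            ∑' n, g n * (C' * r ^ D * rexp (-δ' / t)) := by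
          refine tsum_of_norm_bounded (hgs.mul_right _).hasSum fun n => ?_
          rw [norm_mul, Real.norm_of_nonneg (hgpos n), Real.norm_eq_abs]
          exact mul_le_mul_of_nonneg_left (hee n) (hgpos n)
        rw [Real.norm_eq_abs, tsum_mul_right] at h5
        exact h5.trans (mul_le_mul_of_nonneg_right hG (by positivity))
      have b2 : |A' * r ^ D * (∑' n, g n - A₁ * r)| ≤ A' * r ^ D * (C₁ * r * rexp (-δ₁ / t)) := by
        rw [abs_mul, abs_of_nonneg (by positivity : 0 ≤ A' * r ^ D)]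
        exact mul_le_mul_of_nonneg_left hge (by positivity)
      have m1 : rexp (-δ' / t) ≤ rexp (-(min δ' δ₁) / t) := by
        apply Real.exp_le_exp.2
        gcongr
        exact min_le_left _ _
      have m2 : rexp (-δ₁ / t) ≤ rexp (-(min δ' δ₁) / t) := by
        apply Real.exp_le_exp.2
        gcongr
        exact min_le_right _ _
      calc _ ≤ |∑' n, g n * (Θ n - A' * r ^ D)| + |A' * r ^ D * (∑' n, g n - A₁ * r)| :=
            abs_add_le _ _
        _ ≤ (A₁ + C₁) * r * (C' * r ^ D * rexp (-(min δ' δ₁) / t)) +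
            A' * r ^ D * (C₁ * r * rexp (-(min δ' δ₁) / t)) := by
            refine add_le_add (b1.trans ?_) (b2.trans ?_) <;> gcongr
        _ = _ := by ring

/-- Gaussian sums over lattices. -/
theorem theta_lattice [FiniteDimensional ℝ E] {L : Type*} [AddCommGroup L] (h : L →+ E)
    (hinj : Function.Injective h) (hfin : ∀ R : ℝ, {x : L | ‖h x‖ ≤ R}.Finite) :
    ∃ (D : ℕ) (A C δ : ℝ), 0 < A ∧ 0 ≤ C ∧ 0 < δ ∧ ∀ t : ℝ, 0 < t → t ≤ 1 →
      ∀ s ∈ Submodule.span ℝ (Set.range h),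
      Summable (fun x : L => rexp (-π * t * ‖h x + s‖ ^ 2)) ∧
      |∑' x : L, rexp (-π * t * ‖h x + s‖ ^ 2) - A * (1 / √t) ^ D| ≤
        C * (1 / √t) ^ D * rexp (-δ / t) := by
  let LE : Submodule ℤ E := AddSubgroup.toIntSubmodule (AddMonoidHom.range h)
  have hmem : ∀ y : E, y ∈ LE ↔ ∃ x, h x = y := fun y => Iff.rfl
  have hdisc : DiscreteTopology LE := by
    apply discreteTopology_of_isOpen_singleton_zero
    have hf : {y : LE | ‖(y : E)‖ ≤ 1}.Finite := by
      have h1 : ((fun x : L => (⟨h x, x, rfl⟩ : LE)) '' {x : L | ‖h x‖ ≤ 1}).Finite :=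
        (hfin 1).image _
      refine h1.subset ?_
      rintro ⟨y, x, rfl⟩ hy
      exact ⟨x, hy, rfl⟩
    have h2 : ({y : LE | ‖(y : E)‖ ≤ 1} \ {0}).Finite := hf.subset Set.diff_subset
    have h3 : ({0} : Set LE) = Metric.ball 0 1 \ ({y : LE | ‖(y : E)‖ ≤ 1} \ {0}) := by
      ext y
      constructor
      · rintro rfl
        exact ⟨Metric.mem_ball_self one_pos, fun h => h.2 rfl⟩
      · rintro ⟨hy1, hy2⟩
        by_contra hne
        refine hy2 ⟨?_, hne⟩
        rw [mem_ball_zero_iff] at hy1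
        exact hy1.le
    rw [h3]
    exact Metric.isOpen_ball.sdiff h2.isClosed
  let b0 := Module.finBasis ℤ LE
  set D := Module.finrank ℤ LE with hD
  let b : Fin D → E := fun j => (b0 j : E)
  have hspan : Submodule.span ℤ (Set.range b) = LE := by
    have : Set.range b = (Submodule.subtype LE) '' (Set.range b0) := by
      rw [← Set.range_comp]
      rfl
    rw [this, ← Submodule.map_span, b0.span_eq, Submodule.map_top, Submodule.range_subtype]
  have hli : LinearIndependent ℝ b := by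
    rw [linearIndependent_iff_card_eq_finrank_span]
    have hd : DiscreteTopology (Submodule.span ℤ (Set.range b)) := by
      rw [hspan]
      exact hdisc
    rw [Real.finrank_eq_int_finrank_of_discrete hd, Set.finrank, hspan, Fintype.card_fin]
  obtain ⟨A, C, δ, hA, hC, hδ, H⟩ := theta_basis D b hli
  refine ⟨D, A, C, δ, hA, hC, hδ, fun t ht ht1 s hs => ?_⟩
  let e1 : L ≃ LE := (Equiv.ofInjective h hinj)
  let e : (Fin D → ℤ) ≃ L := b0.equivFun.symm.toEquiv.trans e1.symm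
  have he : ∀ k, h (e k) = ∑ j, (k j : ℝ) • b j := by
    intro k
    have h1 : h (e k) = ((e1 (e k) : LE) : E) := rfl
    rw [h1]
    simp only [e, Equiv.trans_apply, Equiv.apply_symm_apply]
    change ((b0.equivFun.symm k : LE) : E) = _
    rw [b0.equivFun_symm_apply, Submodule.coe_sum]
    refine Finset.sum_congr rfl fun j _ => ?_
    rw [Submodule.coe_smul, Int.cast_smul_eq_zsmul]
  have hs' : s ∈ Submodule.span ℝ (Set.range b) := by
    refine (Submodule.span_le.2 ?_) hs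
    rintro _ ⟨x, rfl⟩
    obtain ⟨k, rfl⟩ := e.surjective x
    rw [he]
    exact Submodule.sum_mem _ fun j _ => Submodule.smul_mem _ _ (Submodule.subset_span ⟨j, rfl⟩)
  obtain ⟨h1, h2⟩ := H t ht ht1 s hs'
  constructor
  · rw [← e.summable_iff]
    refine h1.congr fun k => ?_
    rw [Function.comp_apply, he]
  · rw [← e.tsum_eq]
    simp_rw [he]
    exact h2

end Pool.Agent.J4H56.SM
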