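import Pool.Agent.J4H56.SM.LatB
import Pool.Agent.J4H56.SM.Theta

/-! Gaussian sums over the ring of integers. -/

set_option autoImplicit false

namespace Pool.Agent.J4H56.SM

open Finset NumberField Real
open scoped NumberField

variable {K : Type} [Field K] [NumberField K]

variable (K) in
/-- Euclidean version of the archimedean embedding -/
noncomputable def h0 : 𝓞 K →+ PiLp 2 (fun _ : InfinitePlace K => ℂ) where
  toFun c := WithLp.toLp 2 (iota K c)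
  map_zero' := by rw [map_zero]; rfl
  map_add' x y := by rw [map_add]; rfl

lemma norm_h0 (c : 𝓞 K) : ‖h0 K c‖ ^ 2 = ∑ v, ‖iota K c v‖ ^ 2 := by
  rw [PiLp.norm_sq_eq_of_L2]
  rfl

lemma nrm_le_h0 (c : 𝓞 K) : nrm c ≤ ‖h0 K c‖ := by
  rw [nrm, pi_norm_le_iff_of_nonneg (norm_nonneg _)]
  intro v
  apply le_of_sq_le_sq _ (norm_nonneg _)
  rw [norm_h0]
  exact single_le_sum (f := fun v => ‖iota K c v‖ ^ 2) (fun _ _ => sq_nonneg _) (mem_univ v)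

lemma nrm_zero {c : 𝓞 K} (h : nrm c = 0) : c = 0 := by
  obtain ⟨v⟩ := (inferInstance : Nonempty (InfinitePlace K))
  have h1 := place_le_nrm c v
  rw [h] at h1
  have h2 : v (c : K) = 0 := le_antisymm h1 (apply_nonneg v _)
  rw [map_eq_zero] at h2
  exact_mod_cast h2

theorem theta_O : ∃ (D : ℕ) (B : ℝ), 0 ≤ B ∧ ∀ t : ℝ, 0 < t → t ≤ 1 →
    Summable (fun c : 𝓞 K => rexp (-π * t * ‖h0 K c‖ ^ 2)) ∧
    ∑' c : 𝓞 K, rexp (-π * t * ‖h0 K c‖ ^ 2) ≤ B * (1 / √t) ^ D := by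
  obtain ⟨D, A, C, δ, hA, hC, hδ, H⟩ := theta_lattice (h0 K) (by
    rw [injective_iff_map_eq_zero]
    intro c hc
    apply nrm_zero
    apply le_antisymm _ (nrm_nonneg c)
    have := nrm_le_h0 c
    rwa [hc, norm_zero] at this) (fun R => (finite_nrm R).subset fun c hc => (nrm_le_h0 c).trans hc)
  refine ⟨D, A + C, by positivity, fun t ht ht1 => ?_⟩
  obtain ⟨h1, h2⟩ := H t ht ht1 0 (Submodule.zero_mem _)
  simp only [add_zero] at h1 h2
  refine ⟨h1, ?_⟩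
  have h3 := (abs_le.1 h2).2
  have h4 : C * (1 / √t) ^ D * rexp (-δ / t) ≤ C * (1 / √t) ^ D := by
    refine mul_le_of_le_one_right (by positivity) (Real.exp_le_one_iff.2 ?_)
    rw [neg_div]
    exact neg_nonpos.2 (by positivity)
  linarith

theorem gaussO (κ : ℕ) : ∃ (B : ℝ) (m : ℕ), 0 ≤ B ∧ ∀ t : ℝ, 0 < t → t ≤ 1 →
    Summable (fun c : 𝓞 K => rexp (-π * t * ‖h0 K c‖ ^ 2) * (1 + nrm c) ^ κ) ∧
    ∑' c : 𝓞 K, rexp (-π * t * ‖h0 K c‖ ^ 2) * (1 + nrm c) ^ κ ≤ B * (1 / √t) ^ m := by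
  obtain ⟨D, B, hB, H⟩ := theta_O (K := K)
  refine ⟨2 ^ κ * (2 / π) ^ κ * κ.factorial * rexp (π / 2) * (B * √2 ^ D), 2 * κ + D,
    by positivity, fun t ht ht1 => ?_⟩
  obtain ⟨h1, h2⟩ := H (t / 2) (by positivity) (by linarith)
  have hst : 0 < √t := Real.sqrt_pos.2 ht
  have key : ∀ c : 𝓞 K, rexp (-π * t * ‖h0 K c‖ ^ 2) * (1 + nrm c) ^ κ ≤
      (2 ^ κ * (2 / π) ^ κ * κ.factorial * rexp (π / 2) * (1 / √t) ^ (2 * κ)) *
        rexp (-π * (t / 2) * ‖h0 K c‖ ^ 2) := by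
    intro c
    set ρ := ‖h0 K c‖ with hρ
    have hρ0 : 0 ≤ ρ := norm_nonneg _
    have h3 : 1 + nrm c ≤ 2 * (1 + ρ ^ 2) := by
      have := nrm_le_h0 c
      nlinarith [sq_nonneg (ρ - 1)]
    have h4 : (1 + nrm c) ^ κ ≤ (2 * (1 + ρ ^ 2)) ^ κ := by
      have := nrm_nonneg c
      gcongr
    have h5 := Real.pow_div_factorial_le_exp (π * (t / 2) * (1 + ρ ^ 2)) (by positivity) κ
    rw [div_le_iff₀ (by positivity)] at h5
    have h6 : (1 + ρ ^ 2) ^ κ = (2 / π) ^ κ * (1 / √t) ^ (2 * κ) * (π * (t / 2) * (1 + ρ ^ 2)) ^ κ := by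
      rw [pow_mul, ← mul_pow, ← mul_pow]
      congr 1
      have : (1 / √t) ^ 2 = 1 / t := by rw [div_pow, one_pow, Real.sq_sqrt ht.le]
      rw [this]
      have hpi := Real.pi_pos.ne'
      field_simp
    have h7 : rexp (-π * t * ρ ^ 2) * rexp (π * (t / 2) * (1 + ρ ^ 2)) =
        rexp (π * (t / 2)) * rexp (-π * (t / 2) * ρ ^ 2) := by
      rw [← Real.exp_add, ← Real.exp_add]
      congr 1
      ring
    have h8 : rexp (π * (t / 2)) ≤ rexp (π / 2) := by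
      apply Real.exp_le_exp.2
      nlinarith [Real.pi_pos]
    calc rexp (-π * t * ρ ^ 2) * (1 + nrm c) ^ κ ≤ rexp (-π * t * ρ ^ 2) * (2 * (1 + ρ ^ 2)) ^ κ := by
          gcongr
      _ = rexp (-π * t * ρ ^ 2) * (2 ^ κ * ((2 / π) ^ κ * (1 / √t) ^ (2 * κ) *
            (π * (t / 2) * (1 + ρ ^ 2)) ^ κ)) := by rw [mul_pow, h6]
      _ ≤ rexp (-π * t * ρ ^ 2) * (2 ^ κ * ((2 / π) ^ κ * (1 / √t) ^ (2 * κ) *
            (rexp (π * (t / 2) * (1 + ρ ^ 2)) * κ.factorial))) := by gcongr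
      _ = (2 ^ κ * (2 / π) ^ κ * κ.factorial * (1 / √t) ^ (2 * κ)) *
            (rexp (-π * t * ρ ^ 2) * rexp (π * (t / 2) * (1 + ρ ^ 2))) := by ring
      _ = (2 ^ κ * (2 / π) ^ κ * κ.factorial * (1 / √t) ^ (2 * κ)) *
            (rexp (π * (t / 2)) * rexp (-π * (t / 2) * ρ ^ 2)) := by rw [h7]
      _ ≤ (2 ^ κ * (2 / π) ^ κ * κ.factorial * (1 / √t) ^ (2 * κ)) *
            (rexp (π / 2) * rexp (-π * (t / 2) * ρ ^ 2)) := by gcongr
      _ = _ := by ring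
  have hs : Summable (fun c : 𝓞 K => rexp (-π * t * ‖h0 K c‖ ^ 2) * (1 + nrm c) ^ κ) := by
    refine Summable.of_nonneg_of_le (fun c => ?_) key (h1.mul_left _)
    have := nrm_nonneg c
    positivity
  refine ⟨hs, ?_⟩
  calc _ ≤ ∑' c : 𝓞 K, (2 ^ κ * (2 / π) ^ κ * κ.factorial * rexp (π / 2) * (1 / √t) ^ (2 * κ)) *
        rexp (-π * (t / 2) * ‖h0 K c‖ ^ 2) := hs.tsum_le_tsum key (h1.mul_left _)
    _ = (2 ^ κ * (2 / π) ^ κ * κ.factorial * rexp (π / 2) * (1 / √t) ^ (2 * κ)) *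
        ∑' c : 𝓞 K, rexp (-π * (t / 2) * ‖h0 K c‖ ^ 2) := tsum_mul_left
    _ ≤ (2 ^ κ * (2 / π) ^ κ * κ.factorial * rexp (π / 2) * (1 / √t) ^ (2 * κ)) *
        (B * (1 / √(t / 2)) ^ D) := by gcongr
    _ = _ := by
      have : 1 / √(t / 2) = √2 * (1 / √t) := by
        rw [Real.sqrt_div ht.le]
        field_simp
      rw [this, mul_pow, pow_add]
      ring

end Pool.Agent.J4H56.SM
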