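import Pool.Agent.J4H56.SM.LatC
import Pool.Agent.J4H56.SM.Frame
import Pool.Agent.J4H56.SM.Core

/-! The quadratic form with equal marginals on the relation lattice. -/

set_option autoImplicit false

namespace Pool.Agent.J4H56.SM

open Finset NumberField
open scoped NumberField

variable {K : Type} [Field K] [NumberField K] {n : ℕ}

variable (K n) in
/-- the archimedean space of vectors -/
abbrev VecSp := Fin n → InfinitePlace K → ℂ

variable (K n) in
/-- the Euclidean space -/
abbrev EucSp := PiLp 2 (fun _ : InfinitePlace K × Fin n => ℂ)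

/-- the linear map defined by matrices and phases -/
noncomputable def Hmap (S : InfinitePlace K → Fin n → Fin n → ℝ) (ε : InfinitePlace K → Fin n → ℂ) :
    VecSp K n →ₗ[ℝ] EucSp K n where
  toFun Z := WithLp.toLp 2 fun p => ∑ j, (S p.1 p.2 j : ℂ) * (ε p.1 j * Z j p.1)
  map_add' Z Z' := by
    ext p
    simp only [PiLp.add_apply, Pi.add_apply]
    rw [← sum_add_distrib]
    exact sum_congr rfl fun j _ => by ring
  map_smul' r Z := by
    ext p
    simp only [PiLp.smul_apply, Pi.smul_apply, RingHom.id_apply, Complex.real_smul]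
    rw [mul_sum]
    exact sum_congr rfl fun j _ => by ring

lemma norm_Hmap (S : InfinitePlace K → Fin n → Fin n → ℝ) (ε : InfinitePlace K → Fin n → ℂ)
    (Z : VecSp K n) :
    ‖Hmap S ε Z‖ ^ 2 = ∑ v, ∑ k, ‖∑ j, (S v k j : ℂ) * (ε v j * Z j v)‖ ^ 2 := by
  rw [PiLp.norm_sq_eq_of_L2, ← Fintype.sum_prod_type']
  rfl

/-- coordinatewise embedding -/
noncomputable def iotaV : (Fin n → 𝓞 K) →+ VecSp K n where
  toFun x j := iota K (x j)
  map_zero' := by funext j; simp
  map_add' x y := by funext j; simp

lemma iotaV_apply (x : Fin n → 𝓞 K) (j : Fin n) (v : InfinitePlace K) :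
    iotaV x j v = v.embedding (x j : K) := rfl

/-- span of the relation lattice with a vanishing coordinate -/
theorem span_rel (a : Fin n → 𝓞 K) (i k : Fin n) (hk : k ≠ i) (hk0 : (a k : K) ≠ 0)
    (Z : VecSp K n) (hZr : ∀ j v, v.IsReal → (Z j v).im = 0) (hZi : Z i = 0)
    (hZ : ∀ v, ∑ j, v.embedding (a j : K) * Z j v = 0) :
    Z ∈ Submodule.span ℝ (iotaV '' {y : Fin n → 𝓞 K | ∑ j, a j * y j = 0 ∧ y i = 0}) := by
  classical
  set T := Submodule.span ℝ (iotaV '' {y : Fin n → 𝓞 K | ∑ j, a j * y j = 0 ∧ y i = 0}) with hT
  have hσk : ∀ v : InfinitePlace K, v.embedding (a k : K) ≠ 0 := fun v => by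
    rw [Ne, map_eq_zero]; exact hk0
  let Ej : Fin n → (InfinitePlace K → ℂ) →ₗ[ℝ] VecSp K n := fun j =>
    { toFun := fun u l v => (if l = j then v.embedding (a k : K) * u v else 0) -
        (if l = k then v.embedding (a j : K) * u v else 0)
      map_add' := by
        intro u u'
        funext l v
        simp only [Pi.add_apply]
        split_ifs <;> ring
      map_smul' := by
        intro r u
        funext l v
        simp only [Pi.smul_apply, Complex.real_smul, RingHom.id_apply]
        split_ifs <;> ring }
  have hEj : ∀ j, j ≠ i → ∀ u ∈ Submodule.span ℝ (Set.range (iota K)), Ej j u ∈ T := by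
    intro j hj u hu
    have h1 : Submodule.map (Ej j) (Submodule.span ℝ (Set.range (iota K))) ≤ T := by
      rw [Submodule.map_span, Submodule.span_le]
      rintro _ ⟨_, ⟨c, rfl⟩, rfl⟩
      apply Submodule.subset_span
      refine ⟨fun l => (if l = j then a k * c else 0) - (if l = k then a j * c else 0), ⟨?_, ?_⟩, ?_⟩
      · have : ∀ l, a l * ((if l = j then a k * c else 0) - (if l = k then a j * c else 0)) =
            (if l = j then a l * (a k * c) else 0) - (if l = k then a l * (a j * c) else 0) := by
          intro l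
          split_ifs <;> ring
        simp_rw [this]
        rw [sum_sub_distrib, sum_ite_eq', sum_ite_eq', if_pos (mem_univ _), if_pos (mem_univ _)]
        ring
      · simp only [if_neg (Ne.symm hj), if_neg (Ne.symm hk), sub_zero]
      · funext l v
        rw [iotaV_apply]
        simp only [Ej, LinearMap.coe_mk, AddHom.coe_mk, iota_apply]
        split_ifs <;> simp
    exact h1 ⟨u, hu, rfl⟩
  have hZsum : Z = ∑ j ∈ (univ.erase i).erase k, Ej j (fun v => Z j v / v.embedding (a k : K)) := by
    funext l v
    rw [Finset.sum_apply, Finset.sum_apply]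
    simp only [Ej, LinearMap.coe_mk, AddHom.coe_mk]
    rw [sum_sub_distrib]
    have hkm : k ∈ univ.erase i := mem_erase.2 ⟨hk, mem_univ _⟩
    have hrel := hZ v
    rw [← add_sum_erase univ _ (mem_univ i), ← add_sum_erase _ _ hkm, hZi, Pi.zero_apply, mul_zero,
      zero_add] at hrel
    by_cases hlk : l = k
    · subst hlk
      have h1 : ∑ j ∈ (univ.erase i).erase l, (if l = j then v.embedding (a l : K) *
          (Z j v / v.embedding (a l : K)) else 0) = 0 := by
        refine sum_eq_zero fun j hj => ?_
        rw [if_neg (Ne.symm (ne_of_mem_erase hj))]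
      rw [h1]
      simp only [if_true]
      have h2 : ∑ j ∈ (univ.erase i).erase l, v.embedding (a j : K) *
          (Z j v / v.embedding (a l : K)) =
          (∑ j ∈ (univ.erase i).erase l, v.embedding (a j : K) * Z j v) / v.embedding (a l : K) := by
        rw [sum_div]
        exact sum_congr rfl fun j _ => by ring
      rw [h2]
      have h3 := hσk v
      field_simp
      linear_combination hrel
    · have h1 : ∑ j ∈ (univ.erase i).erase k, (if l = k then v.embedding (a j : K) *
          (Z j v / v.embedding (a k : K)) else 0) = 0 := by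
        refine sum_eq_zero fun j hj => ?_
        rw [if_neg hlk]
      rw [h1, sub_zero]
      by_cases hli : l = i
      · rw [sum_eq_zero, hli, hZi]
        · rfl
        · intro j hj
          rw [if_neg]
          rw [hli]
          exact Ne.symm (ne_of_mem_erase (mem_of_mem_erase hj))
      · rw [sum_ite_eq, if_pos (mem_erase.2 ⟨hlk, mem_erase.2 ⟨hli, mem_univ _⟩⟩)]
        have h3 := hσk v
        field_simp
  rw [hZsum]
  refine T.sum_mem fun j hj => hEj j (ne_of_mem_erase (mem_of_mem_erase hj)) _ ?_
  apply mem_span_iota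
  intro v hv
  have h1 := hZr j v hv
  rw [← InfinitePlace.embedding_of_isReal_apply hv, Complex.div_ofReal_im, h1, zero_div]

end Pool.Agent.J4H56.SM
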