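import Pool.Agent.J4H56.SM.LatD

/-! Functionals of polynomial growth vanish on the relation lattice. -/

set_option autoImplicit false

namespace Pool.Agent.J4H56.SM

open Finset NumberField Real
open scoped NumberField

variable {K : Type} [Field K] [NumberField K] {n : ℕ}

/-- the minimising vectors -/
noncomputable def Tmap (ε : InfinitePlace K → Fin n → ℂ) (y : InfinitePlace K → Fin n → Fin n → ℝ)
    (i : Fin n) : VecSp K n →ₗ[ℝ] VecSp K n where
  toFun Z j v := (starRingEnd ℂ) (ε v j) * (ε v i * ((y v i j : ℂ) * Z i v))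
  map_add' Z Z' := by
    funext j v
    simp only [Pi.add_apply]
    ring
  map_smul' r Z := by
    funext j v
    simp only [Pi.smul_apply, Complex.real_smul, RingHom.id_apply]
    ring

theorem functional_zero (hn : 0 < n) (a : Fin n → 𝓞 K)
    (h1 : ∀ v : InfinitePlace K, ∀ i : Fin n, v (a i : K) < ∑ j ∈ univ.erase i, v (a j : K))
    (h2 : ∀ (i : Fin n) (c : 𝓞 K), ∃ x : Fin n → 𝓞 K, ∑ j, a j * x j = 0 ∧ x i = c)
    (f : Fin n → 𝓞 K → ℝ) (hf0 : ∀ c, ∑ i, f i c = 0)
    (hf : ∀ x ∈ {x : Fin n → 𝓞 K | ∑ j, a j * x j = 0}, 0 ≤ ∑ i, f i (x i))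
    (hM : ∃ (M : ℝ) (κ : ℕ), 0 ≤ M ∧ ∀ i c, |f i c| ≤ M * (1 + nrm c) ^ κ) :
    ∀ x ∈ {x : Fin n → 𝓞 K | ∑ j, a j * x j = 0}, ∑ i, f i (x i) = 0 := by
  classical
  obtain ⟨M, κ, hM0, hM⟩ := hM
  choose S y hy1 hy2 hS using fun v : InfinitePlace K => frame_complex hn
    (fun j => v (a j : K)) (fun j => apply_nonneg v _) (h1 v)
  let ε : InfinitePlace K → Fin n → ℂ := fun v j =>
    if (a j : K) = 0 then 1 else v.embedding (a j : K) / ((v (a j : K) : ℝ) : ℂ)
  have hε1 : ∀ v j, ‖ε v j‖ = 1 := by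
    intro v j
    by_cases h0 : (a j : K) = 0
    · simp only [ε, if_pos h0, norm_one]
    · simp only [ε, if_neg h0]
      have h3 : 0 < v (a j : K) := by rw [InfinitePlace.pos_iff]; exact h0
      rw [norm_div, InfinitePlace.norm_embedding_eq, Complex.norm_real, Real.norm_of_nonneg h3.le,
        div_self h3.ne']
  have hεc : ∀ v j, ε v j * (starRingEnd ℂ) (ε v j) = 1 := by
    intro v j
    rw [Complex.mul_conj, Complex.normSq_eq_norm_sq, hε1]
    simp
  have hεa : ∀ v j, ((v (a j : K) : ℝ) : ℂ) * ε v j = v.embedding (a j : K) := by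
    intro v j
    by_cases h0 : (a j : K) = 0
    · simp [ε, h0]
    · simp only [ε, if_neg h0]
      have h3 : ((v (a j : K) : ℝ) : ℂ) ≠ 0 := by
        have : 0 < v (a j : K) := by rw [InfinitePlace.pos_iff]; exact h0
        exact_mod_cast this.ne'
      field_simp
  have hεr : ∀ v j, v.IsReal → (ε v j).im = 0 := by
    intro v j hv
    by_cases h0 : (a j : K) = 0
    · simp only [ε, if_pos h0, Complex.one_im]
    · simp only [ε, if_neg h0]
      rw [← InfinitePlace.embedding_of_isReal_apply hv, Complex.div_ofReal_im, Complex.ofReal_im,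
        zero_div]
  set H : VecSp K n →ₗ[ℝ] EucSp K n := Hmap S ε with hH
  -- norm identity
  have hNI : ∀ (Z : VecSp K n), (∀ v, ∑ j, v.embedding (a j : K) * Z j v = 0) → ∀ i,
      ‖H Z‖ ^ 2 = ∑ v, ‖Z i v‖ ^ 2 + ‖H (Z - Tmap ε y i Z)‖ ^ 2 := by
    intro Z hZ i
    rw [hH, norm_Hmap, norm_Hmap, ← sum_add_distrib]
    refine sum_congr rfl fun v _ => ?_
    have h3 := hS v i (fun j => ε v j * Z j v) (by
      rw [← hZ v]
      refine sum_congr rfl fun j _ => ?_
      rw [← mul_assoc, hεa])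
    rw [h3]
    congr 1
    · rw [norm_mul, hε1, one_mul]
    · refine sum_congr rfl fun k _ => ?_
      congr 2
      refine sum_congr rfl fun j _ => ?_
      congr 1
      simp only [Pi.sub_apply, Tmap, LinearMap.coe_mk, AddHom.coe_mk]
      rw [mul_sub, ← mul_assoc (ε v j) ((starRingEnd ℂ) (ε v j)), hεc]
      ring
  have hrel : ∀ x : Fin n → 𝓞 K, ∑ j, a j * x j = 0 →
      ∀ v : InfinitePlace K, ∑ j, v.embedding (a j : K) * iotaV x j v = 0 := by
    intro x hx v
    have h3 : v.embedding ((∑ j, a j * x j : 𝓞 K) : K) = 0 := by rw [hx]; simp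
    rw [← h3]
    simp [iotaV_apply]
  let h : (Fin n → 𝓞 K) →+ EucSp K n := H.toAddMonoidHom.comp iotaV
  have hh : ∀ x, h x = H (iotaV x) := fun x => rfl
  have hsum0 : ∀ c : 𝓞 K, ∑ v, ‖iota K c v‖ ^ 2 = ‖h0 K c‖ ^ 2 := fun c => (norm_h0 c).symm
  have hnr : ∀ x : Fin n → 𝓞 K, ∑ j, a j * x j = 0 → ∀ i, nrm (x i) ≤ ‖h x‖ := by
    intro x hx i
    refine (nrm_le_h0 (x i)).trans ?_
    apply le_of_sq_le_sq _ (norm_nonneg _)
    rw [hh, hNI _ (hrel x hx) i, ← hsum0]
    have h3 : ∀ v, iotaV x i v = iota K (x i) v := fun v => rfl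
    simp_rw [h3]
    exact le_add_of_nonneg_right (sq_nonneg _)
  -- sublattices
  let Y : Fin n → AddSubgroup (Fin n → 𝓞 K) := fun i =>
    { carrier := {y | ∑ j, a j * y j = 0 ∧ y i = 0}
      add_mem' := by
        rintro y y' ⟨hy, hyi⟩ ⟨hy', hyi'⟩
        refine ⟨?_, by simp [hyi, hyi']⟩
        simp only [Pi.add_apply, mul_add]
        rw [sum_add_distrib, hy, hy', add_zero]
      zero_mem' := ⟨by simp, rfl⟩
      neg_mem' := by
        rintro y ⟨hy, hyi⟩
        refine ⟨?_, by simp [hyi]⟩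
        simp only [Pi.neg_apply, mul_neg]
        rw [sum_neg_distrib, hy, neg_zero] }
  have hY : ∀ i (y : Y i), ∑ j, a j * (y : Fin n → 𝓞 K) j = 0 ∧ (y : Fin n → 𝓞 K) i = 0 :=
    fun i y => y.2
  choose D A C δ hA hC hδ hTh using fun i : Fin n => theta_lattice (h.comp (Y i).subtype) (by
      rw [injective_iff_map_eq_zero]
      rintro ⟨y, hy⟩ hy0
      apply Subtype.ext
      funext j
      apply nrm_zero
      apply le_antisymm _ (nrm_nonneg _)
      have h3 := hnr y hy.1 j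
      have h4 : h y = 0 := hy0
      rwa [h4, norm_zero] at h3) (by
      intro R
      have hfin : (Set.pi Set.univ fun _ : Fin n => {c : 𝓞 K | nrm c ≤ R}).Finite :=
        Set.Finite.pi fun _ => finite_nrm R
      refine Set.Finite.of_finite_image (f := fun y : Y i => (y : Fin n → 𝓞 K))
        (hfin.subset ?_) (fun x _ y _ hxy => Subtype.ext hxy)
      rintro _ ⟨y, hy, rfl⟩ j _
      exact (hnr y.1 y.2.1 j).trans hy)
  -- sections
  choose s hs0 hsi using h2
  -- pivots
  obtain ⟨v₀⟩ := (inferInstance : Nonempty (InfinitePlace K))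
  have hpiv : ∀ i : Fin n, ∃ k, k ≠ i ∧ (a k : K) ≠ 0 := by
    intro i
    have hS : 0 < ∑ j ∈ univ.erase i, v₀ (a j : K) := lt_of_le_of_lt (apply_nonneg v₀ _) (h1 v₀ i)
    obtain ⟨k, hk, hk0⟩ := exists_lt_of_sum_lt (s := univ.erase i) (f := fun _ => (0 : ℝ))
      (g := fun j => v₀ (a j : K)) (by simpa using hS)
    refine ⟨k, ne_of_mem_erase hk, fun h => ?_⟩
    rw [h, map_zero] at hk0
    exact lt_irrefl _ hk0
  let p : Fin n → 𝓞 K → EucSp K n := fun i c =>
    H (iotaV (s i c) - Tmap ε y i (iotaV (s i c)))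
  have hp : ∀ i c, p i c ∈ Submodule.span ℝ (Set.range (h.comp (Y i).subtype)) := by
    intro i c
    obtain ⟨k, hk, hk0⟩ := hpiv i
    have hZ := span_rel a i k hk hk0 (iotaV (s i c) - Tmap ε y i (iotaV (s i c))) (by
        intro j v hv
        simp only [Pi.sub_apply, Tmap, LinearMap.coe_mk, AddHom.coe_mk, iotaV_apply]
        have e1 : ∃ r : ℝ, v.embedding (s i c j : K) = (r : ℂ) :=
          ⟨InfinitePlace.embedding_of_isReal hv _, (InfinitePlace.embedding_of_isReal_apply hv _).symm⟩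
        have e2 : ∃ r : ℝ, v.embedding (s i c i : K) = (r : ℂ) :=
          ⟨InfinitePlace.embedding_of_isReal hv _, (InfinitePlace.embedding_of_isReal_apply hv _).symm⟩
        have e3 : ∀ j, ∃ r : ℝ, ε v j = (r : ℂ) := fun j =>
          ⟨(ε v j).re, Complex.ext rfl (by rw [hεr v j hv]; simp)⟩
        obtain ⟨r1, hr1⟩ := e1
        obtain ⟨r2, hr2⟩ := e2
        obtain ⟨r3, hr3⟩ := e3 j
        obtain ⟨r4, hr4⟩ := e3 i
        rw [hr1, hr2, hr3, hr4, Complex.conj_ofReal]
        rw [← Complex.ofReal_mul, ← Complex.ofReal_mul, ← Complex.ofReal_mul, ← Complex.ofReal_sub,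
          Complex.ofReal_im]) (by
        funext v
        simp only [Pi.sub_apply, Tmap, LinearMap.coe_mk, AddHom.coe_mk, Pi.zero_apply]
        rw [← mul_assoc, mul_comm ((starRingEnd ℂ) (ε v i)), hεc, hy1]
        simp) (by
        intro v
        have h3 := hrel (s i c) (hs0 i c) v
        simp only [Pi.sub_apply, Tmap, LinearMap.coe_mk, AddHom.coe_mk]
        simp_rw [mul_sub]
        rw [sum_sub_distrib, h3, zero_sub, neg_eq_zero]
        have h4 : ∀ j, v.embedding (a j : K) * ((starRingEnd ℂ) (ε v j) * (ε v i *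
            ((y v i j : ℂ) * iotaV (s i c) i v))) =
            (ε v i * iotaV (s i c) i v) * (((v (a j : K) * y v i j : ℝ)) : ℂ) := by
          intro j
          rw [← hεa v j]
          push_cast
          linear_combination ((v (a j : K) : ℝ) : ℂ) * (ε v i * ((y v i j : ℂ) * iotaV (s i c) i v)) *
            hεc v j
        simp_rw [h4]
        rw [← mul_sum, ← Complex.ofReal_sum, hy2]
        simp)
    have h5 : H (iotaV (s i c) - Tmap ε y i (iotaV (s i c))) ∈ Submodule.map H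
        (Submodule.span ℝ (iotaV '' {y : Fin n → 𝓞 K | ∑ j, a j * y j = 0 ∧ y i = 0})) :=
      ⟨_, hZ, rfl⟩
    rw [Submodule.map_span] at h5
    refine Submodule.span_mono ?_ h5
    rintro _ ⟨_, ⟨y, hy, rfl⟩, rfl⟩
    exact ⟨⟨y, hy⟩, rfl⟩
  let Λ := {x : Fin n → 𝓞 K // ∑ j, a j * x j = 0}
  let e : ∀ i, 𝓞 K × Y i ≃ Λ := fun i =>
    { toFun := fun q => ⟨s i q.1 + (q.2 : Fin n → 𝓞 K), by
        simp only [Pi.add_apply, mul_add]
        rw [sum_add_distrib, hs0, (hY i q.2).1, add_zero]⟩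
      invFun := fun x => ⟨x.1 i, ⟨x.1 - s i (x.1 i), by
        refine ⟨?_, ?_⟩
        · simp only [Pi.sub_apply, mul_sub]
          rw [sum_sub_distrib, hs0, x.2, sub_zero]
        · rw [Pi.sub_apply, hsi, sub_self]⟩⟩
      left_inv := by
        rintro ⟨c, y⟩
        have h3 : (s i c + (y : Fin n → 𝓞 K)) i = c := by
          rw [Pi.add_apply, hsi, (hY i y).2, add_zero]
        refine Prod.ext h3 (Subtype.ext ?_)
        simp only
        rw [h3]
        abel
      right_inv := by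
        rintro ⟨x, hx⟩
        apply Subtype.ext
        simp }
  have he : ∀ i c (y : Y i), ((e i (c, y)).1 : Fin n → 𝓞 K) = s i c + y := fun i c y => rfl
  have hnorm : ∀ i c (y : Y i), ‖h (s i c + (y : Fin n → 𝓞 K))‖ ^ 2 =
      ‖h0 K c‖ ^ 2 + ‖(h.comp (Y i).subtype) y + p i c‖ ^ 2 := by
    intro i c yy
    have hx : ∑ j, a j * (s i c + (yy : Fin n → 𝓞 K)) j = 0 := (e i (c, yy)).2
    rw [hh, hNI _ (hrel _ hx) i]
    have hxi : (s i c + (yy : Fin n → 𝓞 K)) i = c := by
      rw [Pi.add_apply, hsi, (hY i yy).2, add_zero]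
    congr 1
    · rw [← hsum0]
      refine sum_congr rfl fun v _ => ?_
      have : iotaV (s i c + (yy : Fin n → 𝓞 K)) i v = iota K c v := by
        change iota K ((s i c + (yy : Fin n → 𝓞 K)) i) v = _
        rw [hxi]
      rw [this]
    · have hT0 : Tmap ε y i (iotaV (yy : Fin n → 𝓞 K)) = 0 := by
        funext j v
        simp only [Tmap, LinearMap.coe_mk, AddHom.coe_mk, Pi.zero_apply]
        rw [iotaV_apply, (hY i yy).2]
        simp
      have h6 : iotaV (s i c + (yy : Fin n → 𝓞 K)) - Tmap ε y i (iotaV (s i c + (yy : Fin n → 𝓞 K))) =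
          iotaV (yy : Fin n → 𝓞 K) + (iotaV (s i c) - Tmap ε y i (iotaV (s i c))) := by
        rw [map_add, map_add, hT0]
        abel
      rw [h6, map_add]
      rfl
  intro x hx
  have := core (Λ := Λ) (O := 𝓞 K) hn (fun i x => x.1 i)
    (fun t x => rexp (-π * t * ‖h x.1‖ ^ 2)) (fun t c => rexp (-π * t * ‖h0 K c‖ ^ 2))
    (fun c => 1 + nrm c) (fun t x => (Real.exp_pos _).le) (fun t c => Real.exp_pos _)
    gaussO (fun i => Y i) e (fun i c yy => by
      change (s i c + (yy : Fin n → 𝓞 K)) i = c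
      rw [Pi.add_apply, hsi, (hY i yy).2, add_zero])
    (fun i t c yy => rexp (-π * t * ‖(h.comp (Y i).subtype) yy + p i c‖ ^ 2))
    (fun i t c yy => (Real.exp_pos _).le) (fun i t c yy => by
      change rexp (-π * t * ‖h (s i c + (yy : Fin n → 𝓞 K))‖ ^ 2) = _
      rw [hnorm, ← Real.exp_add]
      congr 1
      ring)
    A C δ D hC hδ (fun i t ht ht1 c => hTh i t ht ht1 (p i c) (hp i c))
    f hf0 (fun x => hf x.1 x.2) M κ hM0 hM ⟨x, hx⟩ (rexp (-π * ‖h x‖ ^ 2)) (Real.exp_pos _)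
    (fun t ht ht1 => by
      apply Real.exp_le_exp.2
      simp only
      have h7 : 0 ≤ π * ‖h x‖ ^ 2 := by positivity
      nlinarith)
  exact this

end Pool.Agent.J4H56.SM
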