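import Pool.Agent.J4H56.SM.GalC

/-! Necessity of the criteria. -/

set_option autoImplicit false

namespace Pool.Agent.J4H56.SM

open Finset NumberField IsDedekindDomain Polynomial
open scoped NumberField

variable {K : Type} [Field K] [NumberField K]

lemma exists_val (v : HeightOneSpectrum (𝓞 K)) :
    ∃ B : ValuationSubring (AlgebraicClosure K), ∀ x : K, v.valuation K x < 1 →
      B.valuation (algebraMap K (AlgebraicClosure K) x) < 1 := by
  let A : Subring (AlgebraicClosure K) :=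
    ((v.valuation K).integer).map (algebraMap K (AlgebraicClosure K))
  have hA : ∀ y : A, ∃ x : K, v.valuation K x ≤ 1 ∧ algebraMap K (AlgebraicClosure K) x = y := by
    rintro ⟨_, x, hx, rfl⟩
    exact ⟨x, hx, rfl⟩
  let I : Ideal A :=
    { carrier := {y | ∃ x : K, v.valuation K x < 1 ∧ algebraMap K (AlgebraicClosure K) x = y}
      add_mem' := by
        rintro y y' ⟨x, hx, hxy⟩ ⟨x', hx', hxy'⟩
        refine ⟨x + x', Valuation.map_add_lt _ hx hx', ?_⟩
        rw [map_add, hxy, hxy']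
        rfl
      zero_mem' := ⟨0, by rw [map_zero]; exact zero_lt_one, by simp⟩
      smul_mem' := by
        rintro r y ⟨x, hx, hxy⟩
        obtain ⟨z, hz, hzr⟩ := hA r
        refine ⟨z * x, ?_, ?_⟩
        · rw [map_mul]
          exact lt_of_le_of_lt (mul_le_of_le_one_left' hz) hx
        · rw [map_mul, hxy, hzr]
          rfl }
  have hI : I ≠ ⊤ := by
    intro h
    obtain ⟨x, hx, hx1⟩ : (1 : A) ∈ I := h ▸ Submodule.mem_top
    have : x = 1 := by
      apply (algebraMap K (AlgebraicClosure K)).injective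
      rw [hx1, map_one]
      rfl
    rw [this, map_one] at hx
    exact lt_irrefl _ hx
  obtain ⟨B, -, hB⟩ := Ideal.image_subset_nonunits_valuationSubring I hI
  refine ⟨B, fun x hx => ?_⟩
  have hmem : algebraMap K (AlgebraicClosure K) x ∈ A := ⟨x, hx.le, rfl⟩
  exact B.mem_nonunits_iff.1 (hB ⟨⟨_, hmem⟩, ⟨x, hx, rfl⟩, rfl⟩)

omit [NumberField K] in
lemma finite_orbit (α : AlgebraicClosure K) :
    (Set.range fun τ : AlgebraicClosure K ≃ₐ[K] AlgebraicClosure K => τ α).Finite := by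
  have hint : IsIntegral K α := Algebra.IsIntegral.isIntegral α
  refine ((minpoly K α).rootSet_finite (AlgebraicClosure K)).subset ?_
  rintro _ ⟨τ, rfl⟩
  rw [mem_rootSet_of_ne (minpoly.ne_zero hint)]
  rw [aeval_algEquiv, AlgHom.comp_apply, minpoly.aeval]
  exact map_zero _

omit [NumberField K] in
lemma exists_max {Γ : Type*} [LinearOrder Γ] (w : AlgebraicClosure K → Γ) (α : AlgebraicClosure K) :
    ∃ τ₀ : AlgebraicClosure K ≃ₐ[K] AlgebraicClosure K,
      ∀ τ : AlgebraicClosure K ≃ₐ[K] AlgebraicClosure K, w (τ α) ≤ w (τ₀ α) := by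
  obtain ⟨_, ⟨τ₀, rfl⟩, h⟩ := (finite_orbit α).exists_maximalFor w _ ⟨α, 1, rfl⟩
  refine ⟨τ₀, fun τ => ?_⟩
  by_contra hlt
  push Not at hlt
  exact absurd (h ⟨τ, rfl⟩ hlt.le) (not_le.2 hlt)

omit [NumberField K] in
lemma exists_conj {α β : AlgebraicClosure K} (h : minpoly K α = minpoly K β) :
    ∃ g : AlgebraicClosure K ≃ₐ[K] AlgebraicClosure K, g α = β := by
  exact minpoly.exists_algEquiv_of_root (K := K) (L := AlgebraicClosure K) (x := α) (y := β)
    (Algebra.IsAlgebraic.isAlgebraic β) (by rw [← h, minpoly.aeval])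

theorem nec_nonarch (n : ℕ) (a : Fin n → 𝓞 K) (hS : IsSmyth K n a) (ha : ∃ j, a j ≠ 0)
    (v : HeightOneSpectrum (𝓞 K)) (i : Fin n) :
    ∃ j : Fin n, j ≠ i ∧ v.valuation K (a i : K) ≤ v.valuation K (a j : K) := by
  classical
  by_contra hcon
  push Not at hcon
  have hi0 : (a i : K) ≠ 0 := by
    intro h0
    obtain ⟨j, hj⟩ := ha
    have hji : j ≠ i := by
      rintro rfl
      exact hj (by exact_mod_cast h0)
    have := hcon j hji
    rw [h0, map_zero] at this
    exact not_lt_zero this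
  obtain ⟨α, hα0, hαm, hα⟩ := hS
  obtain ⟨B, hB⟩ := exists_val v
  obtain ⟨τ₀, hτ₀⟩ := exists_max B.valuation (α i)
  set c : 𝓞 K → AlgebraicClosure K := fun x => algebraMap K (AlgebraicClosure K) (x : K) with hc
  have hci : c (a i) ≠ 0 := by
    simp only [hc]
    rw [Ne, map_eq_zero]
    exact hi0
  have hlt : ∀ j, j ≠ i → B.valuation (c (a j)) < B.valuation (c (a i)) := by
    intro j hj
    have h1 : v.valuation K ((a j : K) / (a i : K)) < 1 := by
      rw [map_div₀]
      rw [div_lt_one₀]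
      · exact hcon j hj
      · rw [zero_lt_iff, Ne, Valuation.zero_iff]
        exact hi0
    have h2 := hB _ h1
    rw [map_div₀, map_div₀] at h2
    rwa [div_lt_one₀] at h2
    rw [zero_lt_iff, Ne, Valuation.zero_iff]
    exact hci
  have hsum : ∑ j, c (a j) * τ₀ (α j) = 0 := by
    have := congrArg τ₀ hα
    rw [map_sum, map_zero] at this
    rw [← this]
    refine sum_congr rfl fun j _ => ?_
    rw [map_mul]
    congr 1
    exact (τ₀.commutes _).symm
  rw [← add_sum_erase univ _ (mem_univ i)] at hsum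
  have hτ0 : τ₀ (α i) ≠ 0 := by simpa using hα0 i
  have hMpos : B.valuation (τ₀ (α i)) ≠ 0 := by
    rw [Ne, Valuation.zero_iff]
    exact hτ0
  have h3 : B.valuation (∑ j ∈ univ.erase i, c (a j) * τ₀ (α j)) <
      B.valuation (c (a i) * τ₀ (α i)) := by
    apply Valuation.map_sum_lt
    · rw [Valuation.ne_zero_iff]
      exact mul_ne_zero hci hτ0
    · intro j hj
      rw [map_mul, map_mul]
      obtain ⟨g, hg⟩ := exists_conj (hαm i j)
      have h4 : B.valuation (τ₀ (α j)) ≤ B.valuation (τ₀ (α i)) := by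
        rw [← hg]
        exact hτ₀ (g.trans τ₀)
      calc B.valuation (c (a j)) * B.valuation (τ₀ (α j)) ≤
          B.valuation (c (a j)) * B.valuation (τ₀ (α i)) := mul_le_mul_right h4 _
        _ < B.valuation (c (a i)) * B.valuation (τ₀ (α i)) :=
          mul_lt_mul_of_pos_right (hlt j (ne_of_mem_erase hj)) (zero_lt_iff.2 hMpos)
  have h5 : ∑ j ∈ univ.erase i, c (a j) * τ₀ (α j) = -(c (a i) * τ₀ (α i)) := by
    linear_combination hsum
  rw [h5, Valuation.map_neg] at h3
  exact lt_irrefl _ h3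

/-- equality case of the triangle inequality -/
lemma equality_case {ι : Type*} (s : Finset ι) (w : ι → ℂ) (b : ι → ℝ) (hb : ∀ j ∈ s, ‖w j‖ ≤ b j)
    (W : ℂ) (hW : W ≠ 0) (hsum : ∑ j ∈ s, w j = W) (hWb : ∑ j ∈ s, b j ≤ ‖W‖) :
    ∀ j ∈ s, w j = (b j : ℂ) * (W / (‖W‖ : ℂ)) := by
  have hWn : 0 < ‖W‖ := norm_pos_iff.2 hW
  have hWc : (‖W‖ : ℂ) ≠ 0 := by exact_mod_cast hWn.ne'
  set ζ : ℂ := W / (‖W‖ : ℂ) with hζ
  have hζn : ‖ζ‖ = 1 := by
    rw [hζ, norm_div, Complex.norm_real, norm_norm, div_self hWn.ne']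
  have hζc : ζ * (starRingEnd ℂ) ζ = 1 := by
    rw [Complex.mul_conj, Complex.normSq_eq_norm_sq, hζn]
    simp
  have h1 : ∑ j ∈ s, (w j * (starRingEnd ℂ) ζ).re = ‖W‖ := by
    rw [← Complex.re_sum, ← sum_mul, hsum]
    have : W = (‖W‖ : ℂ) * ζ := by rw [hζ]; field_simp
    rw [this, mul_assoc, hζc, mul_one, Complex.ofReal_re, norm_mul, hζn, mul_one, Complex.norm_real,
      norm_norm]
  have h2 : ∀ j ∈ s, (w j * (starRingEnd ℂ) ζ).re ≤ b j := by
    intro j hj
    refine (Complex.re_le_norm _).trans ?_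
    rw [norm_mul, Complex.norm_conj, hζn, mul_one]
    exact hb j hj
  have h3 : ∀ j ∈ s, (w j * (starRingEnd ℂ) ζ).re = b j := by
    have h4 : ∑ j ∈ s, (w j * (starRingEnd ℂ) ζ).re = ∑ j ∈ s, b j :=
      le_antisymm (sum_le_sum h2) (by rw [h1]; exact hWb)
    exact (sum_eq_sum_iff_of_le h2).1 h4
  intro j hj
  have h5 := h3 j hj
  have h6 : ‖w j * (starRingEnd ℂ) ζ‖ ≤ b j := by
    rw [norm_mul, Complex.norm_conj, hζn, mul_one]
    exact hb j hj
  have h7 : (w j * (starRingEnd ℂ) ζ).re = ‖w j * (starRingEnd ℂ) ζ‖ :=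
    le_antisymm (Complex.re_le_norm _) (by rw [h5]; exact h6)
  have h8 : w j * (starRingEnd ℂ) ζ = (b j : ℂ) := by
    have h9 := Complex.re_eq_norm.1 h7
    apply Complex.ext
    · rw [h5, Complex.ofReal_re]
    · rw [← (Complex.le_def.1 h9).2]
      simp
  calc w j = w j * ((starRingEnd ℂ) ζ * ζ) := by rw [mul_comm ((starRingEnd ℂ) ζ), hζc, mul_one]
    _ = _ := by rw [← mul_assoc, h8]

theorem nec_arch (n : ℕ) (a : Fin n → 𝓞 K) (hS : IsSmyth K n a) (ha : ∃ j, a j ≠ 0)
    (v : InfinitePlace K) (i : Fin n)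
    (hv : ∑ j ∈ univ.erase i, v (a j : K) ≤ v (a i : K)) :
    ∃ ω : Fin n → AlgebraicClosure K,
        (∀ i, ∃ m : ℕ, 0 < m ∧ ω i ^ m = 1) ∧
        ∑ i, algebraMap K (AlgebraicClosure K) (a i : K) * ω i = 0 := by
  classical
  obtain ⟨α, hα0, hαm, hα⟩ := hS
  have hi0 : (a i : K) ≠ 0 := by
    intro h0
    obtain ⟨j, hj⟩ := ha
    have hji : j ≠ i := by
      rintro rfl
      exact hj (by exact_mod_cast h0)
    rw [h0, map_zero] at hv
    have h1 : v (a j : K) ≤ ∑ j ∈ univ.erase i, v (a j : K) :=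
      single_le_sum (f := fun j => v (a j : K)) (fun _ _ => apply_nonneg v _)
        (mem_erase.2 ⟨hji, mem_univ _⟩)
    have h2 : 0 < v (a j : K) := by
      rw [InfinitePlace.pos_iff]
      exact_mod_cast hj
    linarith
  have hvi : 0 < v (a i : K) := by rw [InfinitePlace.pos_iff]; exact hi0
  obtain ⟨φ, hφ⟩ : ∃ φ : AlgebraicClosure K →+* ℂ, ∀ x : K,
      φ (algebraMap K (AlgebraicClosure K) x) = v.embedding x := by
    let _ : Algebra K ℂ := v.embedding.toAlgebra
    let ψ : AlgebraicClosure K →ₐ[K] ℂ := IsAlgClosed.lift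
    exact ⟨ψ.toRingHom, fun x => ψ.commutes x⟩
  obtain ⟨τ₀, hτ₀⟩ := exists_max (fun z => ‖φ z‖) (α i)
  set M : ℝ := ‖φ (τ₀ (α i))‖ with hM
  have hM0 : 0 < M := by
    rw [hM, norm_pos_iff, Ne, map_eq_zero]
    simpa using hα0 i
  choose g hg using fun j => exists_conj (hαm i j)
  have hle : ∀ (τ : AlgebraicClosure K ≃ₐ[K] AlgebraicClosure K) j, ‖φ (τ (α j))‖ ≤ M := by
    intro τ j
    rw [← hg j]
    exact hτ₀ ((g j).trans τ)
  have hrel : ∀ (τ : AlgebraicClosure K ≃ₐ[K] AlgebraicClosure K),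
      ∑ j, v.embedding (a j : K) * φ (τ (α j)) = 0 := by
    intro τ
    have := congrArg (fun z => φ (τ z)) hα
    simp only [map_sum, map_zero, map_mul] at this
    rw [← this]
    refine sum_congr rfl fun j _ => ?_
    rw [τ.commutes, hφ]
  set u : Fin n → ℂ := fun j => -(v (a j : K) : ℂ) * v.embedding (a i : K) /
    ((v (a i : K) : ℂ) * v.embedding (a j : K)) with hu
  have hσi : v.embedding (a i : K) ≠ 0 := by rw [Ne, map_eq_zero]; exact hi0
  have hvic : (v (a i : K) : ℂ) ≠ 0 := by exact_mod_cast hvi.ne'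
  -- rigidity
  have hrig : ∀ (τ : AlgebraicClosure K ≃ₐ[K] AlgebraicClosure K), ‖φ (τ (α i))‖ = M →
      ∀ j, j ≠ i → (a j : K) ≠ 0 → φ (τ (α j)) = u j * φ (τ (α i)) := by
    intro τ hτ j hj hj0
    have hσj : v.embedding (a j : K) ≠ 0 := by rw [Ne, map_eq_zero]; exact hj0
    have hzi : φ (τ (α i)) ≠ 0 := by
      rw [← norm_pos_iff, hτ]; exact hM0
    set W : ℂ := -(v.embedding (a i : K) * φ (τ (α i))) with hW
    have hW0 : W ≠ 0 := neg_ne_zero.2 (mul_ne_zero hσi hzi)
    have hWn : ‖W‖ = v (a i : K) * M := by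
      rw [hW, norm_neg, norm_mul, hτ, InfinitePlace.norm_embedding_eq]
    have hr := hrel τ
    rw [← add_sum_erase univ _ (mem_univ i)] at hr
    have h3 := equality_case (univ.erase i) (fun j => v.embedding (a j : K) * φ (τ (α j)))
      (fun j => v (a j : K) * M) (fun j _ => by
        rw [norm_mul, InfinitePlace.norm_embedding_eq]
        exact mul_le_mul_of_nonneg_left (hle τ j) (apply_nonneg v _)) W hW0
      (by rw [hW]; linear_combination hr) (by
        rw [hWn, ← sum_mul]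
        exact mul_le_mul_of_nonneg_right hv hM0.le) j (mem_erase.2 ⟨hj, mem_univ _⟩)
    rw [hWn] at h3
    have hMc : (M : ℂ) ≠ 0 := by exact_mod_cast hM0.ne'
    have h4 : φ (τ (α j)) = (v (a j : K) : ℂ) * M * (W / ((v (a i : K) : ℂ) * M)) /
        v.embedding (a j : K) := by
      rw [eq_div_iff hσj, mul_comm, h3]
      push_cast
      ring
    rw [h4, hu, hW]
    field_simp
  have hun : ∀ j, (a j : K) ≠ 0 → ‖u j‖ = 1 := by
    intro j hj0
    have hvj : 0 < v (a j : K) := by rw [InfinitePlace.pos_iff]; exact hj0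
    simp only [hu]
    rw [norm_div, norm_mul, norm_mul, norm_neg, Complex.norm_real, Complex.norm_real,
      Real.norm_of_nonneg hvj.le, Real.norm_of_nonneg hvi.le, InfinitePlace.norm_embedding_eq,
      InfinitePlace.norm_embedding_eq]
    field_simp
  -- roots of unity
  have hroot : ∀ j, j ≠ i → (a j : K) ≠ 0 → ∃ m : ℕ, 0 < m ∧ u j ^ m = 1 := by
    intro j hj hj0
    let RM : Set ℂ := {z | ∃ τ : AlgebraicClosure K ≃ₐ[K] AlgebraicClosure K,
      φ (τ (α i)) = z ∧ ‖z‖ = M}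
    have hfin : RM.Finite := by
      refine ((finite_orbit (α i)).image φ).subset ?_
      rintro _ ⟨τ, rfl, -⟩
      exact ⟨τ (α i), ⟨τ, rfl⟩, rfl⟩
    have hmul : ∀ z ∈ RM, u j * z ∈ RM := by
      rintro _ ⟨τ, rfl, hz⟩
      refine ⟨(g j).trans τ, ?_, ?_⟩
      · rw [AlgEquiv.trans_apply, hg, hrig τ hz j hj hj0]
      · rw [norm_mul, hun j hj0, hz, one_mul]
    have hpow : ∀ k : ℕ, u j ^ k * φ (τ₀ (α i)) ∈ RM := by
      intro k
      induction k with
      | zero => exact ⟨τ₀, by simp, by simp [hM]⟩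
      | succ k ih =>
        rw [pow_succ', mul_assoc]
        exact hmul _ ih
    have : Finite RM := hfin
    obtain ⟨k, l, hkl, heq⟩ := Finite.exists_ne_map_eq_of_infinite
      (fun k : ℕ => (⟨u j ^ k * φ (τ₀ (α i)), hpow k⟩ : RM))
    have hz0 : φ (τ₀ (α i)) ≠ 0 := by rw [← norm_pos_iff]; exact hM0
    have heq' : u j ^ k = u j ^ l := mul_right_cancel₀ hz0 (congrArg Subtype.val heq)
    have hu0 : u j ≠ 0 := by
      rw [← norm_pos_iff, hun j hj0]; exact one_pos
    have key : ∀ k l : ℕ, k < l → u j ^ k = u j ^ l → ∃ m : ℕ, 0 < m ∧ u j ^ m = 1 := by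
      intro k l hkl heq
      refine ⟨l - k, by omega, ?_⟩
      have : u j ^ l = u j ^ k * u j ^ (l - k) := by rw [← pow_add]; congr 1; omega
      rw [this] at heq
      exact (mul_right_cancel₀ (pow_ne_zero k hu0) (by rw [one_mul, mul_comm, ← heq])).symm
    rcases lt_or_gt_of_ne hkl with h | h
    · exact key k l h heq'
    · exact key l k h heq'.symm
  have hτi : τ₀ (α i) ≠ 0 := by simpa using hα0 i
  refine ⟨fun j => if (a j : K) = 0 then 1 else τ₀ (α j) / τ₀ (α i), fun j => ?_, ?_⟩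
  · by_cases hj0 : (a j : K) = 0
    · exact ⟨1, one_pos, by simp only [if_pos hj0, one_pow]⟩
    · simp only [if_neg hj0]
      by_cases hj : j = i
      · exact ⟨1, one_pos, by rw [hj, div_self hτi, one_pow]⟩
      · obtain ⟨m, hm, hum⟩ := hroot j hj hj0
        refine ⟨m, hm, ?_⟩
        apply φ.injective
        rw [map_pow, map_div₀, hrig τ₀ rfl j hj hj0, map_one]
        rw [mul_div_assoc, div_self, mul_one, hum]
        rw [Ne, map_eq_zero]
        exact hτi
  · have h1 : ∑ j, algebraMap K (AlgebraicClosure K) (a j : K) * τ₀ (α j) = 0 := by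
      have := congrArg τ₀ hα
      rw [map_sum, map_zero] at this
      rw [← this]
      refine sum_congr rfl fun j _ => ?_
      rw [map_mul, τ₀.commutes]
    have h2 : ∀ j, algebraMap K (AlgebraicClosure K) (a j : K) *
        (if (a j : K) = 0 then 1 else τ₀ (α j) / τ₀ (α i)) =
        algebraMap K (AlgebraicClosure K) (a j : K) * τ₀ (α j) * (τ₀ (α i))⁻¹ := by
      intro j
      split_ifs with h
      · rw [h, map_zero, zero_mul, zero_mul, zero_mul]
      · rw [div_eq_mul_inv, mul_assoc]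
    rw [sum_congr rfl fun j _ => h2 j, ← sum_mul, h1, zero_mul]

end Pool.Agent.J4H56.SM
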