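import Mathlib

/-! From balanced real weights to balanced finite families and permutations. -/

set_option autoImplicit false

namespace Pool.Agent.J4H56.SM

open Finset

lemma exists_phi (s : Finset ℝ) (hs : ∀ p ∈ s, 0 < p) : ∃ φ : ℝ →ₗ[ℚ] ℚ, ∀ p ∈ s, 0 < φ p := by
  classical
  let V : Submodule ℚ ℝ := Submodule.span ℚ (s : Set ℝ)
  have : FiniteDimensional ℚ V := FiniteDimensional.span_of_finite ℚ s.finite_toSet
  let b := Module.finBasis ℚ V
  have hmem : ∀ p ∈ s, p ∈ V := fun p hp => Submodule.subset_span hp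
  have hexp : ∀ p (hp : p ∈ s), p = ∑ k, ((b.repr ⟨p, hmem p hp⟩ k : ℚ) : ℝ) * ((b k : V) : ℝ) := by
    intro p hp
    have h1 := congrArg (fun z : V => (z : ℝ)) (b.sum_repr ⟨p, hmem p hp⟩)
    simp only [Submodule.coe_sum, Submodule.coe_smul] at h1
    refine h1.symm.trans ?_
    exact sum_congr rfl fun k _ => by rw [Rat.smul_def]
  let U : Set (Fin (Module.finrank ℚ V) → ℝ) :=
    ⋂ p : s, {r | 0 < ∑ k, ((b.repr ⟨p.1, hmem p.1 p.2⟩ k : ℚ) : ℝ) * r k}
  have hU : IsOpen U := by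
    refine isOpen_iInter_of_finite fun p => ?_
    refine isOpen_lt continuous_const ?_
    fun_prop
  have hne : U.Nonempty := by
    refine ⟨fun k => ((b k : V) : ℝ), Set.mem_iInter.2 fun p => ?_⟩
    change 0 < ∑ k, ((b.repr ⟨p.1, hmem p.1 p.2⟩ k : ℚ) : ℝ) * ((b k : V) : ℝ)
    rw [← hexp p.1 p.2]
    exact hs p.1 p.2
  have hdense : DenseRange (Pi.map (fun _ : Fin (Module.finrank ℚ V) => ((↑) : ℚ → ℝ))) :=
    DenseRange.piMap fun _ => Rat.denseRange_cast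
  obtain ⟨q, hq⟩ := hdense.exists_mem_open hU hne
  obtain ⟨φ, hφ⟩ := LinearMap.exists_extend (b.constr ℚ q : V →ₗ[ℚ] ℚ)
  refine ⟨φ, fun p hp => ?_⟩
  have h1 : φ p = ∑ k, b.repr ⟨p, hmem p hp⟩ k * q k := by
    have h2 : φ p = (b.constr ℚ q : V →ₗ[ℚ] ℚ) ⟨p, hmem p hp⟩ := by
      rw [← hφ]; rfl
    rw [h2, Module.Basis.constr_apply_fintype]
    rfl
  have h3 := Set.mem_iInter.1 hq ⟨p, hp⟩
  have h4 : (0 : ℝ) < ∑ k, ((b.repr ⟨p, hmem p hp⟩ k : ℚ) : ℝ) * ((q k : ℚ) : ℝ) := h3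
  rw [h1]
  exact_mod_cast h4

/-- integer weights -/
lemma exists_psi (s : Finset ℝ) (hs : ∀ p ∈ s, 0 < p) :
    ∃ (ψ : ℝ →+ ℚ) (m : ℝ → ℕ), ∀ p ∈ s, 0 < m p ∧ ψ p = m p := by
  classical
  obtain ⟨φ, hφ⟩ := exists_phi s hs
  let N : ℕ := ∏ p ∈ s, (φ p).den
  have hN : 0 < N := Finset.prod_pos fun p _ => (φ p).den_pos
  refine ⟨N • φ.toAddMonoidHom, fun p => ((N : ℚ) * φ p).num.toNat, fun p hp => ?_⟩
  have hd : (φ p).den ∣ N := Finset.dvd_prod_of_mem _ hp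
  obtain ⟨k, hk⟩ := hd
  have h1 : (N : ℚ) * φ p = (k * (φ p).num : ℤ) := by
    rw [hk]
    push_cast
    have := Rat.den_mul_eq_num (φ p)
    calc ((φ p).den : ℚ) * k * φ p = k * (((φ p).den : ℚ) * φ p) := by ring
      _ = _ := by rw [this]
  have h2 : 0 < (N : ℚ) * φ p := by
    have := hφ p hp
    positivity
  rw [h1] at h2
  have h3 : 0 < (k * (φ p).num : ℤ) := by exact_mod_cast h2
  have h4 : ((N : ℚ) * φ p).num = k * (φ p).num := by rw [h1]; exact Rat.num_intCast _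
  constructor
  · change 0 < ((N : ℚ) * φ p).num.toNat
    rw [h4]
    omega
  · have h5 : (((k * (φ p).num).toNat : ℤ) : ℚ) = ((k * (φ p).num : ℤ) : ℚ) := by
      rw [Int.toNat_of_nonneg h3.le]
    change (N • φ.toAddMonoidHom) p = ((((N : ℚ) * φ p).num.toNat : ℕ) : ℚ)
    rw [h4]
    rw [Int.cast_natCast] at h5
    rw [h5, ← h1]
    simp

theorem balanced_perm {O : Type*} [DecidableEq O] {n : ℕ} (hn : 0 < n) (Λ : Set (Fin n → O))
    (P : (Fin n → O) →₀ ℝ) (hP : ∀ x, 0 ≤ P x) (hPΛ : ∀ x, P x ≠ 0 → x ∈ Λ) (x₀ : Fin n → O)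
    (hx₀ : 0 < P x₀)
    (hbal : ∀ i j c, (P.sum fun x r => if x i = c then r else 0) =
        P.sum fun x r => if x j = c then r else 0) :
    ∃ (N : ℕ) (v : Fin N → O) (σ : Fin n → Equiv.Perm (Fin N)),
      (∀ r, (fun i => v (σ i r)) ∈ Λ) ∧ ∃ r, (fun i => v (σ i r)) = x₀ := by
  classical
  obtain ⟨ψ, m, hm⟩ := exists_psi (P.support.image P) (by
    intro p hp
    obtain ⟨x, hx, rfl⟩ := Finset.mem_image.1 hp
    exact lt_of_le_of_ne (hP x) (Ne.symm (Finsupp.mem_support_iff.1 hx)))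
  have hm' : ∀ x ∈ P.support, 0 < m (P x) ∧ ψ (P x) = m (P x) := fun x hx =>
    hm _ (Finset.mem_image_of_mem _ hx)
  let R := Σ x : P.support, Fin (m (P x.1))
  have hcard : ∀ i c, ((Fintype.card {r : R // r.1.1 i = c} : ℕ) : ℚ) =
      ψ (P.sum fun x r => if x i = c then r else 0) := by
    intro i c
    rw [Fintype.card_subtype, Finset.card_filter]
    rw [Fintype.sum_sigma, Finsupp.sum, map_sum]
    push_cast
    rw [← Finset.sum_coe_sort P.support (fun x => ψ (if x i = c then P x else 0))]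
    refine Finset.sum_congr rfl fun x _ => ?_
    rw [Finset.sum_const, Finset.card_univ, Fintype.card_fin, nsmul_eq_mul]
    split_ifs with h
    · rw [(hm' x.1 x.2).2, mul_one]
    · simp
  have hcard2 : ∀ i j c, Fintype.card {r : R // r.1.1 i = c} = Fintype.card {r : R // r.1.1 j = c} := by
    intro i j c
    have : ((Fintype.card {r : R // r.1.1 i = c} : ℕ) : ℚ) = (Fintype.card {r : R // r.1.1 j = c} : ℕ) := by
      rw [hcard, hcard, hbal i j c]
    exact_mod_cast this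
  let i₀ : Fin n := ⟨0, hn⟩
  let τ : Fin n → R ≃ R := fun i => Equiv.ofFiberEquiv (f := fun r : R => r.1.1 i)
    (g := fun r : R => r.1.1 i₀) (fun c => Fintype.equivOfCardEq (hcard2 i i₀ c))
  have hτ : ∀ i r, ((τ i r).1.1 i₀ : O) = r.1.1 i := fun i r =>
    Equiv.ofFiberEquiv_map (f := fun r : R => r.1.1 i)
    (g := fun r : R => r.1.1 i₀) (fun c => Fintype.equivOfCardEq (hcard2 i i₀ c)) r
  let e : R ≃ Fin (Fintype.card R) := Fintype.equivFin R
  refine ⟨Fintype.card R, fun k => (e.symm k).1.1 i₀, fun i => (e.symm.trans (τ i)).trans e, ?_, ?_⟩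
  · intro r
    have : (fun i => ((e.symm (((e.symm.trans (τ i)).trans e) r)).1.1 i₀ : O)) = (e.symm r).1.1 := by
      funext i
      simp only [Equiv.trans_apply, Equiv.symm_apply_apply]
      rw [hτ]
    simp only [this]
    exact hPΛ _ (Finsupp.mem_support_iff.1 (e.symm r).1.2)
  · have hx₀s : x₀ ∈ P.support := Finsupp.mem_support_iff.2 hx₀.ne'
    refine ⟨e ⟨⟨x₀, hx₀s⟩, ⟨0, (hm' x₀ hx₀s).1⟩⟩, ?_⟩
    funext i
    simp only [Equiv.trans_apply, Equiv.symm_apply_apply]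
    rw [hτ]

end Pool.Agent.J4H56.SM
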