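import Pool.Agent.J4H56.SM.LatE
import Pool.Agent.J4H56.SM.Dual2
import Pool.Agent.J4H56.SM.Rat
import Pool.Agent.J4H56.SM.GalC

/-! Strong absolute value criteria imply the Smyth property. -/

set_option autoImplicit false

namespace Pool.Agent.J4H56.SM

open Finset NumberField IsDedekindDomain
open scoped NumberField

theorem suff_a (K : Type) [Field K] [NumberField K] (n : ℕ) (a : Fin n → 𝓞 K)
    (h1 : ∀ v : InfinitePlace K, ∀ i : Fin n, v (a i : K) < ∑ j ∈ univ.erase i, v (a j : K))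
    (h2 : ∀ v : HeightOneSpectrum (𝓞 K), ∀ i : Fin n,
          ∃ j : Fin n, j ≠ i ∧ v.valuation K (a i : K) ≤ v.valuation K (a j : K)) :
    IsSmyth K n a := by
  classical
  rcases Nat.eq_zero_or_pos n with rfl | hn
  · exact ⟨fun i => i.elim0, fun i => i.elim0, fun i => i.elim0, by simp⟩
  have h2s := proj_surj a h2
  obtain ⟨θ, R, hθ0, hθ1, hR, hdesc⟩ := descent hn a h1 h2s
  obtain ⟨x₀, hx₀, hx₀i⟩ := h2s ⟨0, hn⟩ 1
  obtain ⟨P, hP, hPΛ, hPx₀, hbal⟩ := dual_main hn {x : Fin n → 𝓞 K | ∑ j, a j * x j = 0}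
    (fun c => 1 + nrm c) hθ0 hθ1 hR (fun c => by have := nrm_nonneg c; linarith)
    ((finite_nrm (R - 1)).subset fun c hc => by
      have hc' : 1 + nrm c ≤ R := hc
      show nrm c ≤ R - 1
      linarith) (fun c hc i => hdesc c hc i)
    (fun f hf0 hf hM => functional_zero hn a h1 h2s f hf0 hf hM) x₀ hx₀
  obtain ⟨N, v, σ, hσ, r, hr⟩ := balanced_perm hn {x : Fin n → 𝓞 K | ∑ j, a j * x j = 0} P hP hPΛ
    x₀ hPx₀ hbal
  refine isSmyth_of_balanced K n a N v σ (fun r => hσ r) ⟨⟨0, hn⟩, r, ?_⟩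
  have := congrFun hr ⟨0, hn⟩
  rw [this, hx₀i]
  exact one_ne_zero

end Pool.Agent.J4H56.SM
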