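import Pool.Agent.J4H56.SM.GalC

/-! Relations between roots of unity give Smyth tuples. -/

set_option autoImplicit false

namespace Pool.Agent.J4H56.SM

open Finset NumberField IsDedekindDomain Polynomial
open scoped NumberField

theorem exists_eisenstein (K : Type) [Field K] [NumberField K] (N : ℕ) (hN : 0 < N) :
    ∃ p : 𝓞 K, p ≠ 0 ∧ Irreducible (X ^ N - C (p : K) : K[X]) := by
  obtain ⟨m, hm⟩ := Ideal.exists_maximal (𝓞 K)
  have hbot : m ≠ ⊥ := Ring.ne_bot_of_isMaximal_of_not_isField hm (RingOfIntegers.not_isField K)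
  let v : HeightOneSpectrum (𝓞 K) := ⟨m, hm.isPrime, hbot⟩
  obtain ⟨p, hp⟩ := v.intValuation_exists_uniformizer
  have hp1 : p ∈ v.asIdeal := by
    have := (v.intValuation_le_pow_iff_mem p 1).1 (by rw [hp]; norm_num)
    rwa [pow_one] at this
  have hp2 : p ∉ v.asIdeal ^ 2 := by
    intro h
    have := (v.intValuation_le_pow_iff_mem p 2).2 h
    rw [hp, WithZero.exp_le_exp] at this
    norm_num at this
  have hp0 : p ≠ 0 := by
    rintro rfl
    exact hp2 (Ideal.zero_mem _)
  refine ⟨p, hp0, ?_⟩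
  have hmonic : (X ^ N - C p : (𝓞 K)[X]).Monic := monic_X_pow_sub_C p hN.ne'
  have hdeg : (X ^ N - C p : (𝓞 K)[X]).natDegree = N := natDegree_X_pow_sub_C
  have heis : (X ^ N - C p : (𝓞 K)[X]).IsEisensteinAt v.asIdeal := by
    refine ⟨?_, ?_, ?_⟩
    · rw [hmonic.leadingCoeff]
      exact fun h => v.isPrime.ne_top ((Ideal.eq_top_iff_one _).2 h)
    · intro k hk
      rw [hdeg] at hk
      rw [coeff_sub, coeff_X_pow, if_neg hk.ne, coeff_C, zero_sub]
      split_ifs
      · exact v.asIdeal.neg_mem hp1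
      · simp
    · rw [coeff_sub, coeff_X_pow, if_neg hN.ne, coeff_C, if_pos rfl, zero_sub]
      intro h
      exact hp2 (by simpa using (v.asIdeal ^ 2).neg_mem h)
  have hirr : Irreducible (X ^ N - C p : (𝓞 K)[X]) :=
    heis.irreducible v.isPrime hmonic.isPrimitive (by rw [hdeg]; exact hN)
  have := (hmonic.irreducible_iff_irreducible_map_fraction_map (K := K)).1 hirr
  rw [Polynomial.map_sub, Polynomial.map_pow, map_X, map_C] at this
  exact this

theorem suff_b (K : Type) [Field K] [NumberField K] (n : ℕ) (a : Fin n → 𝓞 K)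
    (ω : Fin n → AlgebraicClosure K) (hω : ∀ i, ∃ m : ℕ, 0 < m ∧ ω i ^ m = 1)
    (h : ∑ i, algebraMap K (AlgebraicClosure K) (a i : K) * ω i = 0) : IsSmyth K n a := by
  choose m hm hωm using hω
  set N := ∏ i, m i with hN
  have hN0 : 0 < N := prod_pos fun i _ => hm i
  have hωN : ∀ i, ω i ^ N = 1 := by
    intro i
    obtain ⟨k, hk⟩ := dvd_prod_of_mem m (mem_univ i)
    rw [hN, hk, pow_mul, hωm, one_pow]
  obtain ⟨p, hp0, hirr⟩ := exists_eisenstein K N hN0
  have hpK : (algebraMap K (AlgebraicClosure K) (p : K)) ≠ 0 := by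
    rw [Ne, map_eq_zero]
    exact_mod_cast hp0
  obtain ⟨θ, hθ⟩ := IsAlgClosed.exists_pow_nat_eq (algebraMap K (AlgebraicClosure K) (p : K)) hN0
  have hθ0 : θ ≠ 0 := by
    rintro rfl
    rw [zero_pow hN0.ne'] at hθ
    exact hpK hθ.symm
  have hω0 : ∀ i, ω i ≠ 0 := by
    intro i hi
    have := hωm i
    rw [hi, zero_pow (hm i).ne'] at this
    exact zero_ne_one this
  have hmin : ∀ i, minpoly K (ω i * θ) = X ^ N - C (p : K) := by
    intro i
    symm
    apply minpoly.eq_of_irreducible_of_monic hirr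
    · simp only [map_sub, map_pow, aeval_X, aeval_C]
      rw [mul_pow, hωN, one_mul, hθ, sub_self]
    · exact monic_X_pow_sub_C _ hN0.ne'
  refine ⟨fun i => ω i * θ, fun i => mul_ne_zero (hω0 i) hθ0, fun i j => by rw [hmin, hmin], ?_⟩
  simp_rw [← mul_assoc]
  rw [← sum_mul, h, zero_mul]

end Pool.Agent.J4H56.SM
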